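import Pool.Agent.H337_stamp.Stmts

/-!
Core of A2: an eventually-frequent polynomial coincidence with a sequence of naturals
asymptotic to `c h ^ 4`, `c` irrational, is impossible.
-/

namespace Pool.Agent.H337_stamp

open Polynomial Filter Topology

/-- If a sequence `f` of natural numbers satisfies `f h / h ^ 4 → c` with `c` irrational, then a
real polynomial agrees with `f` at only finitely many `h`. -/
theorem polyArg_core (f : ℕ → ℕ) (c : ℝ) (hc : Irrational c)
    (hf : Tendsto (fun h : ℕ => (f h : ℝ) / (h : ℝ) ^ 4) atTop (𝓝 c)) (P : ℝ[X]) :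
    {h : ℕ | (f h : ℝ) = P.eval (h : ℝ)}.Finite := by
  by_contra hS
  replace hS : {h : ℕ | (f h : ℝ) = P.eval (h : ℝ)}.Infinite := hS
  have hfreq : ∃ᶠ h in atTop, (f h : ℝ) = P.eval (h : ℝ) := Nat.frequently_atTop_iff_infinite.mpr hS
  have hnat : Tendsto (fun h : ℕ => (h : ℝ)) atTop atTop := tendsto_natCast_atTop_atTop
  have hc0 : c ≠ 0 := hc.ne_zero
  have hX4 : (X ^ 4 : ℝ[X]).degree = 4 := by simp
  -- the values along the coincidence set
  have key : ∀ g : ℕ → ℝ, (∀ h : ℕ, (f h : ℝ) = P.eval (h : ℝ) → g h = (f h : ℝ) / (h : ℝ) ^ 4) →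
      ∀ l : ℝ, Tendsto g atTop (𝓝 l) → l = c := by
    intro g hg l hl
    by_contra hne
    obtain ⟨U, hU, V, hV, hUV⟩ := disjoint_nhds_nhds.mpr hne |> Filter.disjoint_iff.mp
    have h1 : ∀ᶠ h in atTop, g h ∈ U := hl hU
    have h2 : ∀ᶠ h in atTop, (f h : ℝ) / (h : ℝ) ^ 4 ∈ V := hf hV
    obtain ⟨h, hh, hh1, hh2⟩ := (hfreq.and_eventually (h1.and h2)).exists
    rw [hg h hh] at hh1
    exact Set.disjoint_left.mp hUV hh1 hh2
  have hquot : ∀ h : ℕ, (f h : ℝ) = P.eval (h : ℝ) →
      (fun x : ℝ => eval x P / eval x (X ^ 4 : ℝ[X])) (h : ℝ) = (f h : ℝ) / (h : ℝ) ^ 4 := by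
    intro h hh
    simp [hh]
  have hdeg : P.degree = 4 := by
    rcases lt_trichotomy P.degree (4 : WithBot ℕ) with hlt | heq | hgt
    · exfalso
      have h0 := (Polynomial.div_tendsto_atTop_zero_of_degree_lt P (X ^ 4 : ℝ[X])
        (by rw [hX4]; exact hlt)).comp hnat
      exact hc0 (key _ (fun h hh => hquot h hh) 0 h0).symm
    · exact heq
    · exfalso
      have h0 := (Polynomial.abs_div_tendsto_atTop_atTop_of_degree_gt P (X ^ 4 : ℝ[X])
        (by rw [hX4]; exact hgt) (by simp)).comp hnat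
      have h1 : ∀ᶠ h : ℕ in atTop, |c| + 1 <
          |eval (h : ℝ) P / eval (h : ℝ) (X ^ 4 : ℝ[X])| := h0.eventually_gt_atTop (|c| + 1)
      have h2 : ∀ᶠ h : ℕ in atTop, |(f h : ℝ) / (h : ℝ) ^ 4| < |c| + 1 :=
        hf.abs.eventually_lt_const (by linarith)
      obtain ⟨h, hh, hh1, hh2⟩ := (hfreq.and_eventually (h1.and h2)).exists
      have h3 := hquot h hh
      simp only at h3
      rw [h3] at hh1
      linarith
  have hlead : P.leadingCoeff = c := by
    have h0 := (Polynomial.div_tendsto_atTop_leadingCoeff_div_of_degree_eq P (X ^ 4 : ℝ[X])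
        (by rw [hX4]; exact hdeg)).comp hnat
    have := key _ (fun h hh => hquot h hh) _ h0
    simpa using this
  -- rational interpolation
  obtain ⟨t, ht, htc⟩ := hS.exists_subset_card_eq 5
  have hinj : Set.InjOn (fun n : ℕ => (n : ℚ)) (t : Set ℕ) := fun a _ b _ h =>
    Nat.cast_injective (R := ℚ) h
  set Q : ℚ[X] := Lagrange.interpolate t (fun n : ℕ => (n : ℚ)) (fun n : ℕ => (f n : ℚ)) with hQ
  have hQdeg : Q.degree < (5 : ℕ) := by
    have := Lagrange.degree_interpolate_lt (s := t) (v := fun n : ℕ => (n : ℚ))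
      (fun n : ℕ => (f n : ℚ)) hinj
    rw [htc] at this
    exact this
  have hPQ : P = Q.map (algebraMap ℚ ℝ) := by
    apply Polynomial.eq_of_degrees_lt_of_eval_finset_eq (t.image (fun n : ℕ => (n : ℝ)))
    · rw [Finset.card_image_of_injective _ Nat.cast_injective, htc, hdeg]
      exact_mod_cast (by norm_num : (4 : ℕ) < 5)
    · rw [Finset.card_image_of_injective _ Nat.cast_injective, htc, Polynomial.degree_map]
      exact hQdeg
    · intro x hx
      obtain ⟨n, hn, rfl⟩ := Finset.mem_image.mp hx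
      have h1 : (f n : ℝ) = P.eval (n : ℝ) := ht (Finset.mem_coe.mpr hn)
      have h2 : Q.eval (n : ℚ) = (f n : ℚ) :=
        Lagrange.eval_interpolate_at_node (s := t) (v := fun n : ℕ => (n : ℚ)) _ hinj hn
      have h3 : (Q.map (algebraMap ℚ ℝ)).eval ((n : ℕ) : ℝ) = ((Q.eval (n : ℚ) : ℚ) : ℝ) := by
        have h4 : ((n : ℕ) : ℝ) = algebraMap ℚ ℝ ((n : ℕ) : ℚ) := by simp
        rw [h4, Polynomial.eval_map_apply]
        simp
      rw [h3, h2, ← h1]
      simp
  apply hc
  refine ⟨Q.leadingCoeff, ?_⟩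
  rw [← hlead, hPQ, Polynomial.leadingCoeff_map]
  simp

/-- (A2) polynomial argument. -/
theorem polyArg : PolyArg := fun f c hc hf P => polyArg_core f c hc hf P

end Pool.Agent.H337_stamp
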