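import Mathlib

/-!
Covering lemma and digit manipulation for the lower bound construction of four-element
postage stamp bases (MP_da66b4_nt, project part L).
-/

namespace Pool.Agent.H337_stamp.LCore

/-- `Good H β x y s r v` says that the triangle with index `(s, r, v)` contains `(x, y)`. -/
def Good (H β x y s r v : ℤ) : Prop :=
  0 ≤ s ∧ s ≤ 3 ∧ 0 ≤ r ∧ r ≤ 2 ∧ -2 ≤ v ∧ v ≤ 0 ∧
      0 ≤ x + s * (19 * H - 26 * β) + r * (13 * H - 32 * β) + v * (30 * (H - β)) ∧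
      0 ≤ y + s * (4 * H - 26 * β) + r * (30 * β) ∧
      (x + s * (19 * H - 26 * β) + r * (13 * H - 32 * β) + v * (30 * (H - β))) +
        (y + s * (4 * H - 26 * β) + r * (30 * β)) + (s + 1) * (40 * β - 5 * H) ≤ 90 * β

/-- The twelve triangles cover the rectangle `[0, a2) x [0, B)`. -/
theorem cover (H β x y : ℤ) (h1 : 2439 * H ≤ 10000 * β) (h2 : 10000 * β ≤ 2440 * H)
    (hx0 : 0 ≤ x) (hx1 : x < 30 * (H - β)) (hy0 : 0 ≤ y) (hy1 : y < 30 * β) :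
    ∃ s r v : ℤ, Good H β x y s r v := by
  by_contra hno
  push Not at hno
  have c0 : 90 * β < x + y + (40 * β - 5 * H) := by
    have := hno 0 0 0
    unfold Good at this
    omega
  have c2 : 90 * β < x + (13 * H - 32 * β) + (y + 30 * β) + (40 * β - 5 * H) := by
    have := hno 0 1 0
    unfold Good at this
    omega
  have c5 : 90 * β < x + (19 * H - 26 * β) + (13 * H - 32 * β) - 30 * (H - β)
      + (y + (4 * H - 26 * β) + 30 * β) + 2 * (40 * β - 5 * H) := by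
    have := hno 1 1 (-1)
    unfold Good at this
    omega
  have c11 : 90 * β < x + 3 * (19 * H - 26 * β) + (13 * H - 32 * β) - 2 * (30 * (H - β))
      + (y + 3 * (4 * H - 26 * β) + 30 * β) + 4 * (40 * β - 5 * H) := by
    have := hno 3 1 (-2)
    unfold Good at this
    omega
  rcases lt_or_ge (x + (13 * H - 32 * β) - 30 * (H - β)) 0 with hX1 | hX1
  · have c4 : x + (19 * H - 26 * β) - 30 * (H - β) < 0 ∨ y + (4 * H - 26 * β) < 0 := by
      have := hno 1 0 (-1)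
      unfold Good at this
      omega
    rcases c4 with c4 | c4
    · have := hno 3 0 (-2)
      unfold Good at this
      have h3 := hno 0 2 (-1)
      unfold Good at h3
      omega
    · have h3 := hno 0 2 (-1)
      have h9 := hno 2 1 (-2)
      have h10 := hno 3 0 (-2)
      unfold Good at h3 h9 h10
      omega
  · have h1 := hno 0 1 (-1)
    have h7 := hno 2 0 (-2)
    unfold Good at h1 h7
    omega

/-- The second basis element. -/
def A2 (H β : ℤ) : ℤ := 30 * (H - β)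
/-- The third basis element. -/
def A3 (H β : ℤ) : ℤ := 30 * β * A2 H β + (13 * H - 32 * β)
/-- The fourth basis element. -/
def A4 (H β : ℤ) : ℤ := (40 * β - 5 * H) * A3 H β + (4 * H - 26 * β) * A2 H β + (19 * H - 26 * β)

/-- Step A: digits `(x, y, z, e)` with `z ≥ 2`, `e ≥ 3`. -/
theorem stepA (H β x y z e : ℤ) (h1 : 2439 * H ≤ 10000 * β) (h2 : 10000 * β ≤ 2440 * H)
    (hx0 : 0 ≤ x) (hx1 : x < A2 H β) (hy0 : 0 ≤ y) (hy1 : y ≤ 30 * β)
    (hz0 : 2 ≤ z) (hz1 : z ≤ (40 * β - 5 * H) + 1) (he0 : 3 ≤ e) (he1 : e < 30 * H - 90 * β) :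
    ∃ X Y Z W : ℤ, 0 ≤ X ∧ 0 ≤ Y ∧ 0 ≤ Z ∧ 0 ≤ W ∧
      X + Y * A2 H β + Z * A3 H β + W * A4 H β = x + y * A2 H β + z * A3 H β + e * A4 H β ∧
      X + Y + Z + W ≤ 30 * H + 5 := by
  have hx1' : x < 30 * (H - β) := hx1
  obtain ⟨y', hy'0, hy'1, hd0, hd1⟩ : ∃ y' : ℤ, 0 ≤ y' ∧ y' < 30 * β ∧ 0 ≤ y - y' ∧ y - y' ≤ 1 := by
    rcases lt_or_ge y (30 * β) with h | h
    · exact ⟨y, hy0, h, by omega, by omega⟩
    · exact ⟨y - 1, by omega, by omega, by omega, by omega⟩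
  obtain ⟨s, r, v, hs0, hs1, hr0, hr1, hv0, hv1, hX, hY, hS⟩ :=
    cover H β x y' h1 h2 hx0 hx1' hy'0 hy'1
  have hG : 0 ≤ 40 * β - 5 * H := by omega
  have hsG : 0 ≤ s * (40 * β - 5 * H) := mul_nonneg hs0 hG
  refine ⟨x + s * (19 * H - 26 * β) + r * (13 * H - 32 * β) + v * (30 * (H - β)),
    y + s * (4 * H - 26 * β) + r * (30 * β) - v, z + s * (40 * β - 5 * H) - r, e - s,
    hX, ?_, ?_, ?_, ?_, ?_⟩
  · linarith
  · linarith
  · linarith
  · unfold A4 A3 A2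
    ring
  · nlinarith

/-- Normalisation of the digit `x` (one carry). -/
theorem carry (a x : ℤ) (hx0 : 0 ≤ x) (hx1 : x < 2 * a) :
    ∃ c x' : ℤ, 0 ≤ c ∧ c ≤ 1 ∧ 0 ≤ x' ∧ x' < a ∧ x = x' + c * a := by
  rcases lt_or_ge x a with h | h
  · exact ⟨0, x, by norm_num, by norm_num, hx0, h, by ring⟩
  · exact ⟨1, x - a, by norm_num, by norm_num, by linarith, by linarith, by ring⟩

/-- Step B: digits `(x, y, z, e)` with `z < 2`, `e ≥ 4`. -/
theorem stepB (H β x y z e : ℤ) (h1 : 2439 * H ≤ 10000 * β) (h2 : 10000 * β ≤ 2440 * H)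
    (hH : 100 ≤ H)
    (hx0 : 0 ≤ x) (hx1 : x < A2 H β) (hy0 : 0 ≤ y) (hy1 : y ≤ 30 * β)
    (hz0 : 0 ≤ z) (hz1 : z < 2) (he0 : 4 ≤ e) (he1 : e < 30 * H - 90 * β) :
    ∃ X Y Z W : ℤ, 0 ≤ X ∧ 0 ≤ Y ∧ 0 ≤ Z ∧ 0 ≤ W ∧
      X + Y * A2 H β + Z * A3 H β + W * A4 H β = x + y * A2 H β + z * A3 H β + e * A4 H β ∧
      X + Y + Z + W ≤ 30 * H + 5 := by
  have hA2 : A2 H β = 30 * (H - β) := rfl
  obtain ⟨c1, x1, hc0, hc1, hx10, hx11, hxe⟩ :=
    carry (A2 H β) (x + (19 * H - 26 * β)) (by omega) (by omega)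
  rcases le_or_gt 0 (y + (4 * H - 26 * β) + c1) with hy | hy
  · obtain ⟨X, Y, Z, W, hX, hY, hZ, hW, hm, hs⟩ :=
      stepA H β x1 (y + (4 * H - 26 * β) + c1) (z + (40 * β - 5 * H)) (e - 1) h1 h2 hx10 hx11 hy
        (by omega) (by omega) (by omega) (by omega) (by omega)
    refine ⟨X, Y, Z, W, hX, hY, hZ, hW, ?_, hs⟩
    rw [hm]
    have : x1 = x + (19 * H - 26 * β) - c1 * A2 H β := by linarith
    rw [this]
    unfold A4
    ring
  · obtain ⟨c2, x2, hc20, hc21, hx20, hx21, hxe2⟩ :=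
      carry (A2 H β) (x1 + (13 * H - 32 * β)) (by omega) (by omega)
    obtain ⟨X, Y, Z, W, hX, hY, hZ, hW, hm, hs⟩ :=
      stepA H β x2 (y + (4 * H - 26 * β) + c1 + 30 * β + c2) (z + (40 * β - 5 * H) - 1) (e - 1)
        h1 h2 hx20 hx21 (by omega) (by omega) (by omega) (by omega) (by omega) (by omega)
    refine ⟨X, Y, Z, W, hX, hY, hZ, hW, ?_, hs⟩
    rw [hm]
    have e2 : x2 = x1 + (13 * H - 32 * β) - c2 * A2 H β := by linarith
    have e1 : x1 = x + (19 * H - 26 * β) - c1 * A2 H β := by linarith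
    rw [e2, e1]
    unfold A4 A3
    ring

/-- Step C: small `e`. -/
theorem stepC (H β x y z e : ℤ) (h1 : 2439 * H ≤ 10000 * β) (h2 : 10000 * β ≤ 2440 * H)
    (hx0 : 0 ≤ x) (hx1 : x < A2 H β) (hy0 : 0 ≤ y) (hy1 : y ≤ 30 * β)
    (hz0 : 0 ≤ z) (hz1 : z < 40 * β - 5 * H) (he0 : 0 ≤ e) (he1 : e ≤ 3) :
    ∃ X Y Z W : ℤ, 0 ≤ X ∧ 0 ≤ Y ∧ 0 ≤ Z ∧ 0 ≤ W ∧
      X + Y * A2 H β + Z * A3 H β + W * A4 H β = x + y * A2 H β + z * A3 H β + e * A4 H β ∧
      X + Y + Z + W ≤ 30 * H + 5 := by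
  have hA2 : A2 H β = 30 * (H - β) := rfl
  rcases le_or_gt (x + y + z + e) (30 * H + 5) with h | h
  · exact ⟨x, y, z, e, hx0, hy0, hz0, he0, rfl, h⟩
  · refine ⟨x + (13 * H - 32 * β) - A2 H β, y + 30 * β + 1, z - 1, e, ?_, ?_, ?_, he0, ?_, ?_⟩
    · omega
    · omega
    · omega
    · unfold A3
      ring
    · omega

/-- The digits of an integer `m < E * A4`. -/
theorem digits (H β m : ℤ) (h1 : 2439 * H ≤ 10000 * β) (h2 : 10000 * β ≤ 2440 * H)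
    (hH : 100 ≤ H) (hm0 : 0 ≤ m) (hm1 : m < (30 * H - 90 * β) * A4 H β) :
    ∃ x y z e : ℤ, 0 ≤ x ∧ x < A2 H β ∧ 0 ≤ y ∧ y ≤ 30 * β ∧ 0 ≤ z ∧ z < 40 * β - 5 * H ∧
      0 ≤ e ∧ e < 30 * H - 90 * β ∧ m = x + y * A2 H β + z * A3 H β + e * A4 H β := by
  have hA2 : A2 H β = 30 * (H - β) := rfl
  have hA2pos : 0 < A2 H β := by omega
  have hβ : 0 < β := by omega
  have hA3 : A3 H β = 30 * β * A2 H β + (13 * H - 32 * β) := rfl
  have hA3pos : 0 < A3 H β := by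
    rw [hA3]
    have : 0 < 30 * β * A2 H β := by positivity
    omega
  have hA4 : A4 H β = (40 * β - 5 * H) * A3 H β + (4 * H - 26 * β) * A2 H β + (19 * H - 26 * β) :=
    rfl
  -- A4 < (40 β - 5 H) * A3
  have hlt : (4 * H - 26 * β) * A2 H β + (19 * H - 26 * β) ≤ 0 := by
    have h3 : 4 * H - 26 * β ≤ -1 := by omega
    have h4 : 19 * H - 26 * β ≤ A2 H β := by omega
    nlinarith
  have hA4lt : A4 H β ≤ (40 * β - 5 * H) * A3 H β := by linarith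
  have hA4pos : 0 < A4 H β := by
    -- (4H - 26β) A2 ≥ - A3 since 26 β - 4 H ≤ 30 β
    have h3 : (4 * H - 26 * β) * A2 H β ≥ -(30 * β) * A2 H β := by nlinarith
    have h4 : (4 * H - 26 * β) * A2 H β ≥ - A3 H β := by
      rw [hA3]
      have : 0 ≤ 13 * H - 32 * β := by omega
      linarith
    have h5 : 2 ≤ 40 * β - 5 * H := by omega
    have h6 : 0 < 19 * H - 26 * β := by omega
    nlinarith
  have e1 := Int.mul_ediv_add_emod m (A4 H β)
  have e2 := Int.mul_ediv_add_emod (m % A4 H β) (A3 H β)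
  have e3 := Int.mul_ediv_add_emod (m % A4 H β % A3 H β) (A2 H β)
  have r1 := Int.emod_nonneg m hA4pos.ne'
  have r1' := Int.emod_lt_of_pos m hA4pos
  have r2 := Int.emod_nonneg (m % A4 H β) hA3pos.ne'
  have r2' := Int.emod_lt_of_pos (m % A4 H β) hA3pos
  have r3 := Int.emod_nonneg (m % A4 H β % A3 H β) hA2pos.ne'
  have r3' := Int.emod_lt_of_pos (m % A4 H β % A3 H β) hA2pos
  refine ⟨m % A4 H β % A3 H β % A2 H β, m % A4 H β % A3 H β / A2 H β, m % A4 H β / A3 H β,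
    m / A4 H β, r3, r3', ?_, ?_, ?_, ?_, ?_, ?_, ?_⟩
  · exact Int.ediv_nonneg r2 hA2pos.le
  · have : m % A4 H β % A3 H β / A2 H β < 30 * β + 1 := by
      apply Int.ediv_lt_of_lt_mul hA2pos
      have : 13 * H - 32 * β ≤ A2 H β := by omega
      linarith
    omega
  · exact Int.ediv_nonneg r1 hA3pos.le
  · apply Int.ediv_lt_of_lt_mul hA3pos
    linarith
  · exact Int.ediv_nonneg hm0 hA4pos.le
  · apply Int.ediv_lt_of_lt_mul hA4pos
    linarith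
  · linarith

/-- The core statement: every `m < E * A4` is a nonnegative combination of
`1, A2, A3, A4` with at most `30 H + 5` terms. -/
theorem core (H β m : ℤ) (h1 : 2439 * H ≤ 10000 * β) (h2 : 10000 * β ≤ 2440 * H)
    (hH : 100 ≤ H) (hm0 : 0 ≤ m) (hm1 : m < (30 * H - 90 * β) * A4 H β) :
    ∃ X Y Z W : ℤ, 0 ≤ X ∧ 0 ≤ Y ∧ 0 ≤ Z ∧ 0 ≤ W ∧
      X + Y * A2 H β + Z * A3 H β + W * A4 H β = m ∧ X + Y + Z + W ≤ 30 * H + 5 := by
  obtain ⟨x, y, z, e, hx0, hx1, hy0, hy1, hz0, hz1, he0, he1, hm⟩ :=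
    digits H β m h1 h2 hH hm0 hm1
  rw [hm]
  rcases le_or_gt e 3 with h3 | h3
  · exact stepC H β x y z e h1 h2 hx0 hx1 hy0 hy1 hz0 hz1 he0 h3
  · rcases lt_or_ge z 2 with hz | hz
    · exact stepB H β x y z e h1 h2 hH hx0 hx1 hy0 hy1 hz0 hz (by omega) he1
    · exact stepA H β x y z e h1 h2 hx0 hx1 hy0 hy1 hz (by omega) (by omega) he1

end Pool.Agent.H337_stamp.LCore
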