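import Pool.Agent.H337_stamp.Stmts
import Pool.Agent.H337_stamp.LCore

/-!
Lower bound for the four-element postage stamp function (MP_da66b4_nt, project part L):
for every `η > 0` and all large `h` there is a four-element `h`-basis for some
`n ≥ (cval b - η) h ^ 4`.
-/

namespace Pool.Agent.H337_stamp

open LCore

namespace LPart

/-- The asymptotic size of the construction. -/
theorem growth (b x q : ℝ) (hb : 2439 / 10000 < b) (hb' : b < 2440 / 10000) (hx : 100 ≤ x)
    (hq1 : q ≤ b * x) (hq2 : b * x - 1 ≤ q) :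
    810000 * cval b * x ^ 4 - 396000 * x ^ 3 ≤
      (30 * x - 90 * q) * ((40 * q - 5 * x) * (30 * q * (30 * (x - q)) + (13 * x - 32 * q))
        + (4 * x - 26 * q) * (30 * (x - q)) + (19 * x - 26 * q)) := by
  have hx0 : 0 < x := by linarith
  have hbx : b * x ≤ 2440 / 10000 * x := by nlinarith
  have hbx' : 2439 / 10000 * x ≤ b * x := by nlinarith
  have hE : 30 * (1 - 3 * b) * x ≤ 30 * x - 90 * q := by linarith
  have hA : 30 * (1 - b) * x ≤ 30 * (x - q) := by linarith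
  have hG : (40 * b - 5) * x - 40 ≤ 40 * q - 5 * x := by linarith
  have hB : 30 * b * x - 30 ≤ 30 * q := by linarith
  have hE0 : 0 ≤ 30 * (1 - 3 * b) * x := by
    have : 0 ≤ 1 - 3 * b := by linarith
    positivity
  have hA0 : 0 ≤ 30 * (1 - b) * x := by
    have : 0 ≤ 1 - b := by linarith
    positivity
  have hG0 : 0 ≤ (40 * b - 5) * x - 40 := by linarith
  have hB0 : 0 ≤ 30 * b * x - 30 := by linarith
  have h13 : 0 ≤ 13 * x - 32 * q := by linarith
  have h19 : 0 ≤ 19 * x - 26 * q := by linarith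
  have hGB : ((40 * b - 5) * x - 40) * (30 * b * x - 30) ≤ (40 * q - 5 * x) * (30 * q) :=
    mul_le_mul hG hB hB0 (by linarith)
  have hin : (40 * b - 5) * (30 * b) * x ^ 2 - 440 * x ≤
      (40 * q - 5 * x) * (30 * q) + (4 * x - 26 * q) := by
    nlinarith
  have hin0 : 0 ≤ (40 * b - 5) * (30 * b) * x ^ 2 - 440 * x := by
    have h1 : 4 ≤ 40 * b - 5 := by linarith
    have h2 : 7 ≤ 30 * b := by linarith
    have h3 : 28 ≤ (40 * b - 5) * (30 * b) := by nlinarith
    have h4 : 28 * x ^ 2 ≤ (40 * b - 5) * (30 * b) * x ^ 2 :=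
      mul_le_mul_of_nonneg_right h3 (by positivity)
    nlinarith
  have hEA : 30 * (1 - 3 * b) * x * (30 * (1 - b) * x) ≤ (30 * x - 90 * q) * (30 * (x - q)) :=
    mul_le_mul hE hA hA0 (by linarith)
  have hEA0 : 0 ≤ 30 * (1 - 3 * b) * x * (30 * (1 - b) * x) := mul_nonneg hE0 hA0
  have hprod : 30 * (1 - 3 * b) * x * (30 * (1 - b) * x) *
      ((40 * b - 5) * (30 * b) * x ^ 2 - 440 * x) ≤
      (30 * x - 90 * q) * (30 * (x - q)) * ((40 * q - 5 * x) * (30 * q) + (4 * x - 26 * q)) :=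
    mul_le_mul hEA hin hin0 (by linarith)
  have hrest : 0 ≤ (30 * x - 90 * q) * ((40 * q - 5 * x) * (13 * x - 32 * q) + (19 * x - 26 * q)) := by
    apply mul_nonneg
    · linarith
    · have : 0 ≤ (40 * q - 5 * x) * (13 * x - 32 * q) := mul_nonneg (by linarith) h13
      linarith
  have hmain : 810000 * cval b * x ^ 4 - 396000 * ((1 - 3 * b) * (1 - b)) * x ^ 3 =
      30 * (1 - 3 * b) * x * (30 * (1 - b) * x) * ((40 * b - 5) * (30 * b) * x ^ 2 - 440 * x) := by
    unfold cval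
    ring
  have hle : (1 - 3 * b) * (1 - b) ≤ 1 := by nlinarith
  have hx3 : 0 ≤ x ^ 3 := by positivity
  have h5 : 396000 * ((1 - 3 * b) * (1 - b)) * x ^ 3 ≤ 396000 * x ^ 3 := by
    have := mul_le_mul_of_nonneg_right hle hx3
    linarith
  have h6 : (30 * x - 90 * q) * ((40 * q - 5 * x) * (30 * q * (30 * (x - q)) + (13 * x - 32 * q))
        + (4 * x - 26 * q) * (30 * (x - q)) + (19 * x - 26 * q)) =
      (30 * x - 90 * q) * (30 * (x - q)) * ((40 * q - 5 * x) * (30 * q) + (4 * x - 26 * q)) +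
      (30 * x - 90 * q) * ((40 * q - 5 * x) * (13 * x - 32 * q) + (19 * x - 26 * q)) := by
    ring
  linarith

/-- Bounds for `cval`. -/
theorem cval_bounds (b : ℝ) (hb : 2439 / 10000 < b) (hb' : b < 2440 / 10000) :
    0 ≤ cval b ∧ cval b ≤ 1 := by
  have h : cval b = (1 - 3 * b) * (1 - b) * b * (8 * b - 1) / 6 := by
    unfold cval
    ring
  rw [h]
  have h1 : 0 ≤ 1 - 3 * b := by linarith
  have h2 : 0 ≤ 1 - b := by linarith
  have h3 : 0 ≤ 8 * b - 1 := by linarith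
  have h4 : 0 ≤ b := by linarith
  constructor
  · positivity
  · have a1 : (1 - 3 * b) * (1 - b) ≤ 1 := mul_le_one₀ (by linarith) h2 (by linarith)
    have a2 : (1 - 3 * b) * (1 - b) * b ≤ 1 := mul_le_one₀ a1 h4 (by linarith)
    have a3 : (1 - 3 * b) * (1 - b) * b * (8 * b - 1) ≤ 1 := mul_le_one₀ a2 h3 (by linarith)
    linarith

/-- The final numeric comparison. -/
theorem compare (b η h x : ℝ) (hb : 2439 / 10000 < b) (hb' : b < 2440 / 10000) (hη : 0 < η)
    (h1 : 30 * x ≤ h) (h2 : h ≤ 30 * x + 35) (h3 : 156 ≤ η * h) (h4 : 35 ≤ h) (hx : 0 ≤ x) :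
    (cval b - η) * h ^ 4 ≤ 810000 * cval b * x ^ 4 - 396000 * x ^ 3 - 1 := by
  obtain ⟨c0, c1⟩ := cval_bounds b hb hb'
  have hh : 0 < h := by linarith
  have e1 : (h - 35) ^ 4 ≤ (30 * x) ^ 4 := pow_le_pow_left₀ (by linarith) (by linarith) 4
  have e2 : (30 * x) ^ 3 ≤ h ^ 3 := pow_le_pow_left₀ (by linarith) h1 3
  have e3 : h ^ 4 - 140 * h ^ 3 ≤ (h - 35) ^ 4 := by nlinarith [mul_pos hh hh]
  have e4 : cval b * (h ^ 4 - 140 * h ^ 3) ≤ cval b * (30 * x) ^ 4 :=
    mul_le_mul_of_nonneg_left (e3.trans e1) c0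
  have e5 : cval b * h ^ 3 ≤ 1 * h ^ 3 := mul_le_mul_of_nonneg_right c1 (by positivity)
  have e6 : 156 * h ^ 3 ≤ η * h * h ^ 3 := mul_le_mul_of_nonneg_right h3 (by positivity)
  have e7 : 1 ≤ h ^ 3 := one_le_pow₀ (by linarith)
  nlinarith

/-- Representations by multisets. -/
theorem rep_of (h : ℕ) (a2 a3 a4 m X Y Z W : ℕ) (hm : X + Y * a2 + Z * a3 + W * a4 = m)
    (hs : X + Y + Z + W ≤ h) : Rep h {1, a2, a3, a4} m := by
  refine ⟨Multiset.replicate X 1 + Multiset.replicate Y a2 + Multiset.replicate Z a3 +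
    Multiset.replicate W a4, ?_, ?_, ?_⟩
  · intro x hx
    simp only [Multiset.mem_add, Multiset.mem_replicate] at hx
    simp only [Finset.mem_insert, Finset.mem_singleton]
    tauto
  · simpa using hs
  · simp only [Multiset.sum_add, Multiset.sum_replicate, smul_eq_mul, mul_one]
    exact hm

end LPart

open LPart

/-- Part L of the project: the lower bound. -/
theorem lower : Lower := by
  intro b hroot η hη
  have hb := hroot.lo
  have hb' := hroot.hi
  -- threshold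
  obtain ⟨N1, hN1⟩ := exists_nat_ge (156 / η)
  obtain ⟨N2, hN2⟩ := exists_nat_ge (10000 / (10000 * b - 2439))
  refine ⟨N1 + 30 * N2 + 3100, fun h hh => ?_⟩
  -- parameters
  obtain ⟨H, hH⟩ : ∃ H : ℕ, H = (h - 5) / 30 := ⟨_, rfl⟩
  have hH1 : 30 * H + 5 ≤ h := by omega
  have hH2 : h ≤ 30 * H + 35 := by omega
  have hH3 : 100 ≤ H := by omega
  have hH4 : N2 ≤ H := by omega
  have hbpos : 0 < 10000 * b - 2439 := by linarith
  have hbH : 0 ≤ b * H := by positivity
  obtain ⟨β, hβ⟩ : ∃ β : ℕ, β = ⌊b * H⌋₊ := ⟨_, rfl⟩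
  have hβ1 : (β : ℝ) ≤ b * H := by rw [hβ]; exact Nat.floor_le hbH
  have hβ2 : b * H - 1 ≤ (β : ℝ) := by
    rw [hβ]
    have := Nat.lt_floor_add_one (b * H)
    linarith
  have hHR : (100 : ℝ) ≤ H := by exact_mod_cast hH3
  have hg1R : 2439 * (H : ℝ) ≤ 10000 * β := by
    have h1 : 10000 / (10000 * b - 2439) ≤ H := hN2.trans (by exact_mod_cast hH4)
    rw [div_le_iff₀ hbpos] at h1
    nlinarith
  have hg2R : 10000 * (β : ℝ) ≤ 2440 * H := by nlinarith
  have hg1 : 2439 * (H : ℤ) ≤ 10000 * β := by exact_mod_cast hg1R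
  have hg2 : 10000 * (β : ℤ) ≤ 2440 * H := by exact_mod_cast hg2R
  have hH3' : (100 : ℤ) ≤ H := by exact_mod_cast hH3
  -- positivity and order of the elements
  have p2 : 1 < A2 H β := by unfold A2; omega
  have p3 : A2 H β < A3 H β := by
    have h1 : (0 : ℤ) ≤ 13 * H - 32 * β := by omega
    have h2 : (2 : ℤ) ≤ 30 * β := by omega
    unfold A3
    nlinarith
  have p4 : A3 H β < A4 H β := by
    have h1 : (4 * (H : ℤ) - 26 * β) * A2 H β ≥ - (30 * β) * A2 H β := by nlinarith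
    have h2 : (0 : ℤ) ≤ 13 * H - 32 * β := by omega
    have h3 : (4 * (H : ℤ) - 26 * β) * A2 H β ≥ - A3 H β := by
      unfold A3
      linarith
    have h4 : (2 : ℤ) ≤ 40 * β - 5 * H := by omega
    have h5 : (0 : ℤ) < 19 * H - 26 * β := by omega
    unfold A4
    nlinarith
  obtain ⟨a2, ha2⟩ : ∃ a2 : ℕ, (a2 : ℤ) = A2 H β := ⟨(A2 H β).toNat, Int.toNat_of_nonneg (by linarith)⟩
  obtain ⟨a3, ha3⟩ : ∃ a3 : ℕ, (a3 : ℤ) = A3 H β := ⟨(A3 H β).toNat, Int.toNat_of_nonneg (by linarith)⟩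
  obtain ⟨a4, ha4⟩ : ∃ a4 : ℕ, (a4 : ℤ) = A4 H β := ⟨(A4 H β).toNat, Int.toNat_of_nonneg (by linarith)⟩
  have hE : (0 : ℤ) < 30 * H - 90 * β := by omega
  have hEpos : 0 < (30 * (H : ℤ) - 90 * β) * A4 H β := mul_pos hE (by linarith)
  obtain ⟨n, hn⟩ : ∃ n : ℕ, (n : ℤ) = (30 * (H : ℤ) - 90 * β) * A4 H β - 1 :=
    ⟨((30 * (H : ℤ) - 90 * β) * A4 H β - 1).toNat, Int.toNat_of_nonneg (by linarith)⟩
  rw [← ha2] at p2 p3
  rw [← ha3] at p3 p4
  rw [← ha4] at p4
  have q2 : 1 < a2 := by exact_mod_cast p2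
  have q3 : a2 < a3 := by exact_mod_cast p3
  have q4 : a3 < a4 := by exact_mod_cast p4
  refine ⟨{1, a2, a3, a4}, ?_, n, ⟨?_, ?_⟩, ?_⟩
  · rw [Finset.card_insert_of_notMem, Finset.card_insert_of_notMem, Finset.card_insert_of_notMem,
      Finset.card_singleton]
    · simp only [Finset.mem_singleton]; omega
    · simp only [Finset.mem_insert, Finset.mem_singleton]; omega
    · simp only [Finset.mem_insert, Finset.mem_singleton]; omega
  · intro a ha
    simp only [Finset.mem_insert, Finset.mem_singleton] at ha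
    omega
  · intro m hm
    have hm' : (m : ℤ) < (30 * (H : ℤ) - 90 * β) * A4 H β := by
      have : (m : ℤ) ≤ n := by exact_mod_cast hm
      linarith
    obtain ⟨X, Y, Z, W, hX, hY, hZ, hW, hsum, hcard⟩ :=
      core H β m hg1 hg2 hH3' (by positivity) hm'
    lift X to ℕ using hX
    lift Y to ℕ using hY
    lift Z to ℕ using hZ
    lift W to ℕ using hW
    rw [← ha2, ← ha3, ← ha4] at hsum
    have hsum' : X + Y * a2 + Z * a3 + W * a4 = m := by exact_mod_cast hsum
    have hcard' : X + Y + Z + W ≤ h := by omega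
    exact rep_of h a2 a3 a4 m X Y Z W hsum' hcard'
  · have hnR : (n : ℝ) = (30 * (H : ℝ) - 90 * β) * ((40 * β - 5 * H) * (30 * β * (30 * (H - β))
        + (13 * H - 32 * β)) + (4 * H - 26 * β) * (30 * (H - β)) + (19 * H - 26 * β)) - 1 := by
      have h1 : ((n : ℤ) : ℝ) = (((30 * (H : ℤ) - 90 * β) * A4 H β - 1 : ℤ) : ℝ) := by rw [hn]
      unfold A4 A3 A2 at h1
      push_cast at h1
      exact h1
    rw [hnR]
    have hgr := growth b H β hb hb' hHR hβ1 hβ2
    have hhR1 : 30 * (H : ℝ) ≤ h := by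
      have : 30 * H ≤ h := by omega
      exact_mod_cast this
    have hhR2 : (h : ℝ) ≤ 30 * H + 35 := by exact_mod_cast hH2
    have hN1' : (N1 : ℝ) ≤ h := by
      have : N1 ≤ h := by omega
      exact_mod_cast this
    have h156 : 156 ≤ η * h := by
      have h1 : 156 / η ≤ h := hN1.trans hN1'
      rw [div_le_iff₀ hη] at h1
      linarith
    have := compare b η h H hb hb' hη hhR1 hhR2 h156 (by linarith) (by positivity)
    linarith

end Pool.Agent.H337_stamp
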