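import Pool.Agent.H337_stamp.Stmts

/-! (S) `stamp h k` is attained and is an upper bound (problem MP_da66b4_nt, Q2; part S). -/

namespace Pool.Agent.H337_stamp

/-- Counting bound: an `h`-basis `A` for `n` satisfies `n + 1 ≤ (h + 1) ^ |A|`. -/
theorem basis_card_bound (h : ℕ) (A : Finset ℕ) (n : ℕ) (hA : IsBasis h A n) :
    n + 1 ≤ (h + 1) ^ A.card := by
  classical
  have hsub : Finset.range (n + 1) ⊆
      (Finset.univ : Finset (A → Fin (h + 1))).image
        (fun f => ∑ a : A, ((f a : Fin (h + 1)) : ℕ) * (a : ℕ)) := by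
    intro m hm
    have hm' : m ≤ n := Nat.lt_succ_iff.mp (Finset.mem_range.mp hm)
    obtain ⟨s, hs, hcard, hsum⟩ := hA.2 m hm'
    refine Finset.mem_image.mpr ⟨fun a => ⟨s.count (a : ℕ), ?_⟩, Finset.mem_univ _, ?_⟩
    · exact Nat.lt_succ_iff.mpr ((Multiset.count_le_card _ _).trans hcard)
    · have h1 : s.sum = ∑ a ∈ A, s.count a • a := by
        apply Finset.sum_multiset_count_of_subset
        intro x hx
        exact hs x (Multiset.mem_toFinset.mp hx)
      rw [← hsum, h1, ← Finset.sum_coe_sort A (fun a => s.count a • a)]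
      simp [smul_eq_mul]
  have h2 := Finset.card_le_card hsub
  rw [Finset.card_range] at h2
  refine h2.trans (Finset.card_image_le.trans ?_)
  simp

/-- (S) `stamp h k` is the maximum of its defining set. -/
theorem stampMax : StampMax := by
  intro h k
  have hne : {n : ℕ | ∃ A : Finset ℕ, A.card = k ∧ IsBasis h A n}.Nonempty := by
    refine ⟨0, Finset.Icc 1 k, by simp, ?_, ?_⟩
    · intro a ha
      exact (Finset.mem_Icc.mp ha).1
    · intro m hm
      exact ⟨0, by simp, by simp, by simpa using (Nat.le_zero.mp hm).symm⟩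
  have hbdd : BddAbove {n : ℕ | ∃ A : Finset ℕ, A.card = k ∧ IsBasis h A n} := by
    refine ⟨(h + 1) ^ k, ?_⟩
    rintro n ⟨A, hk, hA⟩
    have := basis_card_bound h A n hA
    rw [hk] at this
    omega
  exact ⟨Nat.sSup_mem hne hbdd, fun n hn => le_csSup hbdd hn⟩

end Pool.Agent.H337_stamp
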