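import Pool.Agent.H337_stamp.Stmts

/-! (U1) the integer level reduction `ConfOfBasis`. -/

namespace Pool.Agent.H337_stamp.U1


/-- `m` is a sum of at most `h` elements of `1, a, b, c`. -/
def Rep4 (h a b c m : ℕ) : Prop :=
  ∃ X Y Z W : ℕ, X + Y + Z + W ≤ h ∧ X + Y * a + Z * b + W * c = m

/-- normal form: fewer than `a` ones. -/
theorem rep_normal {h a b c m : ℕ} (ha : 1 ≤ a) (hr : Rep4 h a b c m) :
    ∃ X Y Z W : ℕ, X < a ∧ X + Y + Z + W ≤ h ∧ X + Y * a + Z * b + W * c = m := by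
  obtain ⟨X, Y, Z, W, hs, hm⟩ := hr
  refine ⟨X % a, Y + X / a, Z, W, Nat.mod_lt _ ha, ?_, ?_⟩
  · have h1 : X % a + a * (X / a) = X := Nat.mod_add_div X a
    have h2 : X / a ≤ a * (X / a) := Nat.le_mul_of_pos_left _ ha
    omega
  · have h1 : X % a + a * (X / a) = X := Nat.mod_add_div X a
    calc X % a + (Y + X / a) * a + Z * b + W * c
        = (X % a + a * (X / a)) + Y * a + Z * b + W * c := by ring
      _ = m := by rw [h1, hm]

theorem count {h a b n : ℕ}
    (H : ∀ m ≤ n, ∃ X Y Z : ℕ, X + Y + Z ≤ h ∧ X + Y * a + Z * b = m) :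
    n + 1 ≤ (h + 1) ^ 3 := by
  classical
  have hsub : Finset.range (n + 1) ⊆
      ((Finset.range (h + 1) ×ˢ (Finset.range (h + 1) ×ˢ Finset.range (h + 1))).image
        (fun p : ℕ × ℕ × ℕ => p.1 + p.2.1 * a + p.2.2 * b)) := by
    intro m hm
    obtain ⟨X, Y, Z, hs, he⟩ := H m (by simpa [Nat.lt_succ_iff] using Finset.mem_range.mp hm)
    refine Finset.mem_image.mpr ⟨(X, Y, Z), ?_, he⟩
    simp only [Finset.mem_product, Finset.mem_range]
    omega
  have h1 := Finset.card_le_card hsub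
  have h2 := h1.trans Finset.card_image_le
  simp only [Finset.card_range, Finset.card_product] at h2
  calc n + 1 ≤ (h + 1) * ((h + 1) * (h + 1)) := h2
    _ = (h + 1) ^ 3 := by ring

theorem basic_facts {h a b c n : ℕ} (ha : 1 < a) (hab : a < b) (hbc : b < c)
    (H : ∀ m ≤ n, Rep4 h a b c m) (hn : (h + 1) ^ 3 < n + 1) :
    c ≤ n ∧ a ≤ h + 1 ∧ a + b / a ≤ h + 2 ∧ c / b ≤ h ∧ n / c ≤ h ∧
      n < (n / c + 1) * ((c / b + 1) * ((b / a + 1) * a)) := by
  have hcn : c ≤ n := by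
    by_contra hcn
    push Not at hcn
    have : n + 1 ≤ (h + 1) ^ 3 := by
      apply count (a := a) (b := b)
      intro m hm
      obtain ⟨X, Y, Z, W, hs, he⟩ := H m hm
      have hW : W = 0 := by
        by_contra hW
        have : 1 * c ≤ W * c := Nat.mul_le_mul_right _ (by omega)
        omega
      subst hW
      exact ⟨X, Y, Z, by omega, by simpa using he⟩
    omega
  have ha1 : a ≤ h + 1 := by
    obtain ⟨X, Y, Z, W, hs, he⟩ := H (a - 1) (by omega)
    have hY : Y = 0 := by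
      by_contra hY
      have : 1 * a ≤ Y * a := Nat.mul_le_mul_right _ (by omega)
      omega
    have hZ : Z = 0 := by
      by_contra hY
      have : 1 * b ≤ Z * b := Nat.mul_le_mul_right _ (by omega)
      omega
    have hW : W = 0 := by
      by_contra hY
      have : 1 * c ≤ W * c := Nat.mul_le_mul_right _ (by omega)
      omega
    subst hY hZ hW
    omega
  have hB : a + b / a ≤ h + 2 := by
    have hba : b / a * a ≤ b := Nat.div_mul_le_self b a
    have hb1 : 1 ≤ b / a := (Nat.one_le_div_iff (by omega)).mpr hab.le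
    obtain ⟨X, Y, Z, W, hXa, hs, he⟩ := rep_normal (by omega) (H (b / a * a - 1) (by omega))
    have hge : 1 * a ≤ b / a * a := Nat.mul_le_mul_right _ hb1
    have hZ : Z = 0 := by
      by_contra hY
      have : 1 * b ≤ Z * b := Nat.mul_le_mul_right _ (by omega)
      omega
    have hW : W = 0 := by
      by_contra hY
      have : 1 * c ≤ W * c := Nat.mul_le_mul_right _ (by omega)
      omega
    subst hZ hW
    -- X + Y a + 1 = B a, X < a, so X = a - 1 and Y = B - 1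
    have he' : (X + 1) + Y * a = b / a * a := by omega
    have hdvd : a ∣ X + 1 := by
      have h1 : a ∣ (X + 1) + Y * a := by rw [he']; exact Dvd.intro_left _ rfl
      exact (Nat.dvd_add_left (Dvd.intro_left _ rfl)).mp h1
    have hX : X + 1 = a := by
      have := Nat.le_of_dvd (by omega) hdvd
      omega
    have hY : (Y + 1) * a = b / a * a := by rw [← he', hX]; ring
    have hY' : Y + 1 = b / a := Nat.eq_of_mul_eq_mul_right (by omega) hY
    omega
  have hG : c / b ≤ h := by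
    obtain ⟨X, Y, Z, W, hs, he⟩ := H (c - 1) (by omega)
    have hW : W = 0 := by
      by_contra hY
      have : 1 * c ≤ W * c := Nat.mul_le_mul_right _ (by omega)
      omega
    subst hW
    have h1 : X ≤ X * b := Nat.le_mul_of_pos_right _ (by omega)
    have h2 : Y * a ≤ Y * b := Nat.mul_le_mul_left _ hab.le
    have h3 : c - 1 ≤ (X + Y + Z) * b := by
      calc c - 1 ≤ X * b + Y * b + Z * b := by omega
        _ = (X + Y + Z) * b := by ring
    have h4 : (X + Y + Z) * b ≤ h * b := Nat.mul_le_mul_right _ (by omega)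
    have h5 : c < (h + 1) * b := by
      calc c ≤ h * b + 1 := by omega
        _ < h * b + b := by omega
        _ = (h + 1) * b := by ring
    have := (Nat.div_lt_iff_lt_mul (by omega : 0 < b)).mpr h5
    omega
  have hE : n / c ≤ h := by
    obtain ⟨X, Y, Z, W, hs, he⟩ := H n le_rfl
    have h1 : X ≤ X * c := Nat.le_mul_of_pos_right _ (by omega)
    have h2 : Y * a ≤ Y * c := Nat.mul_le_mul_left _ (by omega)
    have h3 : Z * b ≤ Z * c := Nat.mul_le_mul_left _ (by omega)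
    have h4 : n ≤ (X + Y + Z + W) * c := by
      calc n ≤ X * c + Y * c + Z * c + W * c := by omega
        _ = (X + Y + Z + W) * c := by ring
    have h5 : (X + Y + Z + W) * c ≤ h * c := Nat.mul_le_mul_right _ hs
    calc n / c ≤ (h * c) / c := Nat.div_le_div_right (h4.trans h5)
      _ = h := Nat.mul_div_cancel _ (by omega)
  refine ⟨hcn, ha1, hB, hG, hE, ?_⟩
  have h1 : n < (n / c + 1) * c := by
    have := Nat.lt_div_mul_add (a := n) (b := c) (by omega)
    calc n < n / c * c + c := this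
      _ = (n / c + 1) * c := by ring
  have h2 : c < (c / b + 1) * b := by
    have := Nat.lt_div_mul_add (a := c) (b := b) (by omega)
    calc c < c / b * b + b := this
      _ = (c / b + 1) * b := by ring
  have h3 : b < (b / a + 1) * a := by
    have := Nat.lt_div_mul_add (a := b) (b := a) (by omega)
    calc b < b / a * a + a := this
      _ = (b / a + 1) * a := by ring
  calc n < (n / c + 1) * c := h1
    _ ≤ (n / c + 1) * ((c / b + 1) * b) := Nat.mul_le_mul_left _ h2.le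
    _ ≤ (n / c + 1) * ((c / b + 1) * ((b / a + 1) * a)) :=
      Nat.mul_le_mul_left _ (Nat.mul_le_mul_left _ h3.le)



/-- The integer core of the reduction. -/
theorem core {h a b c B B1 G G1 G2 e x y z X Y Z W Q M Ky : ℤ}
    (ha : 2 ≤ a) (hQ : 1 ≤ Q) (hM : 0 ≤ M) (hKy : 0 ≤ Ky)
    (hb : b = B * a + B1) (hB1 : 0 ≤ B1) (hB1a : B1 < a)
    (hc : c = G * b + (G2 * a + G1)) (hG1 : 0 ≤ G1) (hG1a : G1 < a) (hG2 : 0 ≤ G2)
    (hG2b : G2 * a + G1 < b)
    (hBpos : 1 ≤ B) (hGpos : 1 ≤ G)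
    (hQG : h ≤ Q * G) (hQB : h ≤ Q * B) (hhbig : Ky + M + 2 ≤ h)
    (hx : x ≤ 0) (hx' : -(M * a) - 1 ≤ x) (hy : y ≤ M * B) (hy' : -(M * h) - Ky ≤ y)
    (hz : 0 ≤ z) 
    (hX : 0 ≤ X) (hXa : X < a) (hY : 0 ≤ Y) (hYh : Y ≤ h) (hZh : Z ≤ h)
    (hW : W ≤ e)
    (hm : e * c + z * b + y * a + x = X + Y * a + Z * b + W * c) :
    ∃ s r v : ℤ, 0 ≤ s ∧ s ≤ (3 + M) * Q ∧ r ≤ (2 + M) * Q ∧ -(M + (3 + M) * Q) ≤ r ∧
      v ≤ 2 + 2 * M + (3 + M) * Q ∧ -(M + 2 * ((3 + M) * Q) + (2 + M) * Q) ≤ v ∧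
      W = e - s ∧ Z = z + s * G - r ∧ Y = y + s * G2 + r * B - v ∧
      X = x + s * G1 + r * B1 + v * a := by
  have hapos : 0 < a := by linarith
  have hMh : 0 ≤ M * h := mul_nonneg hM (by linarith)
  have hh0 : 0 ≤ h := by linarith
  have haB : a ≤ B * a := by
    have := mul_le_mul_of_nonneg_right hBpos hapos.le
    linarith
  have hab : a ≤ b := by linarith
  have hbpos : 0 < b := by linarith
  have hGb' : b ≤ G * b := by
    have := mul_le_mul_of_nonneg_right hGpos hbpos.le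
    linarith
  have hG2a : 0 ≤ G2 * a := mul_nonneg hG2 hapos.le
  have hcpos : 0 < c := by linarith
  have hGb : G * b ≤ c := by linarith
  obtain ⟨s, hs⟩ : ∃ s, s = e - W := ⟨_, rfl⟩
  obtain ⟨r, hr⟩ : ∃ r, r = z + s * G - Z := ⟨_, rfl⟩
  obtain ⟨v, hv⟩ : ∃ v, v = y + s * G2 + r * B - Y := ⟨_, rfl⟩
  have hidX : X = x + s * G1 + r * B1 + v * a := by
    rw [hv, hr, hs]
    rw [hc, hb] at hm
    linear_combination (-1 : ℤ) * hm
  have hs0 : 0 ≤ s := by rw [hs]; linarith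
  have hYa : (Y - y) * a ≤ (h + M * h + Ky) * a :=
    mul_le_mul_of_nonneg_right (by linarith) hapos.le
  have hk1 : (h + M * h + Ky + M + 2) * a ≤ ((2 + M) * h) * a :=
    mul_le_mul_of_nonneg_right (by linarith) hapos.le
  have hsb : s ≤ (3 + M) * Q := by
    have h1 : s * c = (Z - z) * b + (Y - y) * a + (X - x) := by
      rw [hs]; linear_combination hm
    have h2 : (Z - z) * b ≤ h * b := mul_le_mul_of_nonneg_right (by linarith) hbpos.le
    have h6 : ((2 + M) * h) * a ≤ ((2 + M) * h) * b := by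
      apply mul_le_mul_of_nonneg_left hab
      positivity
    have h7 : s * c ≤ ((3 + M) * h) * b := by
      have : (h + M * h + Ky + M + 2) * a = (h + M * h + Ky) * a + (M + 2) * a := by ring
      have h8 : ((3 + M) * h) * b = h * b + ((2 + M) * h) * b := by ring
      linarith
    have h8 : ((3 + M) * h) * b ≤ ((3 + M) * Q) * c := by
      have h9 : h * b ≤ Q * c := by
        calc h * b ≤ (Q * G) * b := mul_le_mul_of_nonneg_right hQG hbpos.le
          _ = Q * (G * b) := by ring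
          _ ≤ Q * c := mul_le_mul_of_nonneg_left hGb (by linarith)
      calc ((3 + M) * h) * b = (3 + M) * (h * b) := by ring
        _ ≤ (3 + M) * (Q * c) := mul_le_mul_of_nonneg_left h9 (by linarith)
        _ = ((3 + M) * Q) * c := by ring
    exact le_of_mul_le_mul_right (h7.trans h8) hcpos
  have hrb : r * b = X + Y * a - x - y * a - s * (G2 * a + G1) := by
    rw [hr, hs]; rw [hc] at hm; linear_combination hm
  have hsG : 0 ≤ s * (G2 * a + G1) := mul_nonneg hs0 (by linarith)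
  have hsG' : s * (G2 * a + G1) ≤ s * b := mul_le_mul_of_nonneg_left hG2b.le hs0
  have hr1 : r ≤ (2 + M) * Q := by
    have h3 : r * b ≤ ((2 + M) * h) * a := by
      have : (h + M * h + Ky + M + 2) * a = (h + M * h + Ky) * a + (M + 2) * a := by ring
      have h10 : (Y - y) * a = Y * a - y * a := by ring
      linarith
    have h5 : ((2 + M) * h) * a ≤ ((2 + M) * Q) * b := by
      have h9 : h * a ≤ Q * b := by
        calc h * a ≤ (Q * B) * a := mul_le_mul_of_nonneg_right hQB hapos.le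
          _ = Q * (B * a) := by ring
          _ ≤ Q * b := mul_le_mul_of_nonneg_left (by linarith) (by linarith)
      calc ((2 + M) * h) * a = (2 + M) * (h * a) := by ring
        _ ≤ (2 + M) * (Q * b) := mul_le_mul_of_nonneg_left h9 (by linarith)
        _ = ((2 + M) * Q) * b := by ring
    exact le_of_mul_le_mul_right (h3.trans h5) hbpos
  have hr2 : -(M + (3 + M) * Q) ≤ r := by
    have h1 : y * a ≤ M * b := by
      calc y * a ≤ (M * B) * a := mul_le_mul_of_nonneg_right hy hapos.le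
        _ = M * (B * a) := by ring
        _ ≤ M * b := mul_le_mul_of_nonneg_left (by linarith) hM
    have h2 : 0 ≤ Y * a := mul_nonneg hY hapos.le
    have h3 : -(M + s) * b ≤ r * b := by
      have : -(M + s) * b = -(M * b) - s * b := by ring
      linarith
    have h4 := le_of_mul_le_mul_right h3 hbpos
    linarith
  have hv' : v * a = X - x - s * G1 - r * B1 := by linarith
  have hsG1 : 0 ≤ s * G1 := mul_nonneg hs0 hG1
  have hsG1' : s * G1 ≤ s * a := mul_le_mul_of_nonneg_left hG1a.le hs0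
  have hQ0 : 0 ≤ (3 + M) * Q := by positivity
  have hQ0' : 0 ≤ (2 + M) * Q := by positivity
  have hrB1 : -((M + (3 + M) * Q) * a) ≤ r * B1 := by
    have h1 : -(M + (3 + M) * Q) * B1 ≤ r * B1 := mul_le_mul_of_nonneg_right hr2 hB1
    have h2 : (M + (3 + M) * Q) * B1 ≤ (M + (3 + M) * Q) * a :=
      mul_le_mul_of_nonneg_left hB1a.le (by linarith)
    linarith
  have hrB1' : r * B1 ≤ ((2 + M) * Q) * a := by
    have h1 : r * B1 ≤ ((2 + M) * Q) * B1 := mul_le_mul_of_nonneg_right hr1 hB1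
    have h2 : ((2 + M) * Q) * B1 ≤ ((2 + M) * Q) * a := mul_le_mul_of_nonneg_left hB1a.le hQ0'
    linarith
  have hv1 : v ≤ 2 + 2 * M + (3 + M) * Q := by
    have h3 : v * a ≤ (2 + 2 * M + (3 + M) * Q) * a := by
      have : (2 + 2 * M + (3 + M) * Q) * a = 2 * a + M * a + (M + (3 + M) * Q) * a := by ring
      linarith
    exact le_of_mul_le_mul_right h3 hapos
  have hv2 : -(M + 2 * ((3 + M) * Q) + (2 + M) * Q) ≤ v := by
    have h0 : s * a ≤ ((3 + M) * Q) * a := mul_le_mul_of_nonneg_right hsb hapos.le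
    have h3 : -(M + 2 * ((3 + M) * Q) + (2 + M) * Q) * a ≤ v * a := by
      have h5 : -(M + 2 * ((3 + M) * Q) + (2 + M) * Q) * a
          = -(M * a) - 2 * (((3 + M) * Q) * a) - ((2 + M) * Q) * a := by ring
      have h6 : 0 ≤ M * a := mul_nonneg hM hapos.le
      have h7 : 0 ≤ ((3 + M) * Q) * a := mul_nonneg hQ0 hapos.le
      linarith
    exact le_of_mul_le_mul_right h3 hapos
  exact ⟨s, r, v, hs0, hsb, hr1, hr2, hv1, hv2, by rw [hs]; ring, by rw [hr]; ring,
    by rw [hv]; ring, hidX⟩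


/-- From an `h`-basis with four elements to `1 < a < b < c`. -/
theorem basis_four {h n : ℕ} {A : Finset ℕ} (hA : A.card = 4) (hB : IsBasis h A n) (hn : 1 ≤ n) :
    ∃ a b c : ℕ, 1 < a ∧ a < b ∧ b < c ∧ ∀ m ≤ n, Rep4 h a b c m := by
  obtain ⟨hpos, hrep⟩ := hB
  have h1A : 1 ∈ A := by
    obtain ⟨s, hs, -, hsum⟩ := hrep 1 hn
    have hs0 : s ≠ 0 := by
      rintro rfl
      simp at hsum
    obtain ⟨x, hx⟩ := Multiset.exists_mem_of_ne_zero hs0
    have hx1 : x ≤ 1 := by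
      rw [← hsum]
      exact Multiset.single_le_sum (fun y _ => Nat.zero_le y) x hx
    have hx0 := hpos x (hs x hx)
    have : x = 1 := by omega
    rw [← this]
    exact hs x hx
  let f := A.orderEmbOfFin hA
  have hf : ∀ i, f i ∈ A := fun i => A.orderEmbOfFin_mem hA i
  have h01 : f 0 < f 1 := f.strictMono (by decide)
  have h12 : f 1 < f 2 := f.strictMono (by decide)
  have h23 : f 2 < f 3 := f.strictMono (by decide)
  have hf0 : f 0 = 1 := by
    have hr : (1 : ℕ) ∈ Set.range f := by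
      rw [Finset.range_orderEmbOfFin]
      exact h1A
    obtain ⟨i, hi⟩ := hr
    have h0i : f 0 ≤ f i := f.monotone (Fin.zero_le i)
    have := hpos _ (hf 0)
    omega
  have hAeq : ({1, f 1, f 2, f 3} : Finset ℕ) = A := by
    apply Finset.eq_of_subset_of_card_le
    · intro x hx
      simp only [Finset.mem_insert, Finset.mem_singleton] at hx
      rcases hx with rfl | rfl | rfl | rfl
      · exact h1A
      · exact hf 1
      · exact hf 2
      · exact hf 3
    · rw [hA]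
      rw [Finset.card_insert_of_notMem, Finset.card_insert_of_notMem,
        Finset.card_insert_of_notMem, Finset.card_singleton]
      · simp only [Finset.mem_singleton]; omega
      · simp only [Finset.mem_insert, Finset.mem_singleton]; omega
      · simp only [Finset.mem_insert, Finset.mem_singleton]; omega
  refine ⟨f 1, f 2, f 3, by omega, h12, h23, ?_⟩
  intro m hm
  obtain ⟨s, hs, hcard, hsum⟩ := hrep m hm
  refine ⟨s.count 1, s.count (f 1), s.count (f 2), s.count (f 3), ?_, ?_⟩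
  · have h1 : ∑ x ∈ A, s.count x = Multiset.card s := Multiset.sum_count_eq_card hs
    rw [← hAeq, Finset.sum_insert, Finset.sum_insert, Finset.sum_insert, Finset.sum_singleton] at h1
    · omega
    · simp only [Finset.mem_singleton]; omega
    · simp only [Finset.mem_insert, Finset.mem_singleton]; omega
    · simp only [Finset.mem_insert, Finset.mem_singleton]; omega
  · have hsub : s.toFinset ⊆ A := fun x hx => hs x (Multiset.mem_toFinset.mp hx)
    have h1 := Finset.sum_multiset_count_of_subset s A hsub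
    rw [hsum, ← hAeq, Finset.sum_insert, Finset.sum_insert, Finset.sum_insert,
      Finset.sum_singleton] at h1
    · simp only [smul_eq_mul, mul_one] at h1
      omega
    · simp only [Finset.mem_singleton]; omega
    · simp only [Finset.mem_insert, Finset.mem_singleton]; omega
    · simp only [Finset.mem_insert, Finset.mem_singleton]; omega

/-- The tests, at integer level. -/
theorem test_int {h a b c B B1 G G1 G2 E Q M Ky Kz : ℤ}
    (ha : 2 ≤ a) (hQ : 1 ≤ Q) (hM : 0 ≤ M)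
    (hKy : Ky = 2 * M + 2 * ((3 + 2 * M) * Q) + (2 + 2 * M) * Q + 1) (hKz : Kz = M)
    (hb : b = B * a + B1) (hB1 : 0 ≤ B1) (hB1a : B1 < a)
    (hc : c = G * b + (G2 * a + G1)) (hG1 : 0 ≤ G1) (hG1a : G1 < a) (hG2 : 0 ≤ G2)
    (hG2b : G2 * a + G1 < b) (hG2B : G2 ≤ B) (hBh : B ≤ h)
    (hBpos : 1 ≤ B) (hGbig : Kz + 3 * M + Ky + 1 ≤ G)
    (hQG : h ≤ Q * G) (hQB : h ≤ Q * B) (hhbig : Ky + 2 * M + 2 ≤ h)
    (H : ∀ m : ℤ, 0 ≤ m → m < E * c → ∃ X Y Z W : ℤ, 0 ≤ X ∧ X < a ∧ 0 ≤ Y ∧ 0 ≤ Z ∧ 0 ≤ W ∧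
      X + Y + Z + W ≤ h ∧ X + Y * a + Z * b + W * c = m)
    (e a' b' t : ℤ) (he : 0 ≤ e) (heE : e + 1 ≤ E) (ha' : 0 ≤ a') (ha'M : a' ≤ M)
    (hb' : 0 ≤ b') (hb'M : b' ≤ M) (ht : |t| ≤ M) :
    ∃ s r v : ℤ, 0 ≤ s ∧ s ≤ e ∧ 1 ≤ (s - a') * G1 + r * B1 + v * a ∧
      (s - a') * G1 + r * B1 + v * a ≤ a ∧ 1 ≤ (s - b') * G2 + (r + t) * B ∧
      ((s - a') * G1 + r * B1 + v * a) + ((s - b') * G2 + (r + t) * B) + (s + 1) * G ≤
        h - e - 1 + (2 + Ky + Kz + (2 + 2 * (2 * M) + (3 + 2 * M) * Q) + (2 + 2 * M) * Q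
          + (3 + 2 * M) * Q) := by
  obtain ⟨ht1, ht2⟩ := abs_le.mp ht
  have hapos : 0 < a := by linarith
  have haB : a ≤ B * a := by
    have := mul_le_mul_of_nonneg_right hBpos hapos.le
    linarith
  have hab : a ≤ b := by linarith
  have hbpos : 0 < b := by linarith
  have hp1 : 0 ≤ (3 + 2 * M) * Q := by positivity
  have hp2 : 0 ≤ (2 + 2 * M) * Q := by positivity
  have hKy0 : 0 ≤ Ky := by rw [hKy]; linarith
  have hGpos : 1 ≤ G := by linarith
  have hG2a : 0 ≤ G2 * a := mul_nonneg hG2 hapos.le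
  have hcpos : 0 < c := by
    have : 0 < G * b := mul_pos (by linarith) hbpos
    linarith
  have hGb : G * b ≤ c := by linarith
  -- products
  have ha'G : a' * G1 ≤ M * a := by
    calc a' * G1 ≤ M * G1 := mul_le_mul_of_nonneg_right ha'M hG1
      _ ≤ M * a := mul_le_mul_of_nonneg_left hG1a.le hM
  have ha'G0 : 0 ≤ a' * G1 := mul_nonneg ha' hG1
  have hb'G : b' * G2 ≤ M * B := by
    calc b' * G2 ≤ M * G2 := mul_le_mul_of_nonneg_right hb'M hG2
      _ ≤ M * B := mul_le_mul_of_nonneg_left hG2B hM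
  have hb'G0 : 0 ≤ b' * G2 := mul_nonneg hb' hG2
  have htB : t * B ≤ M * B := mul_le_mul_of_nonneg_right ht2 (by linarith)
  have htB' : -(M * B) ≤ t * B := by
    have := mul_le_mul_of_nonneg_right ht1 (by linarith : 0 ≤ B)
    linarith
  have hMB : 0 ≤ M * B := mul_nonneg hM (by linarith)
  have hMBh : M * B ≤ M * h := mul_le_mul_of_nonneg_left hBh hM
  have hMa : 0 ≤ M * a := mul_nonneg hM hapos.le
  obtain ⟨x, hx⟩ : ∃ x, x = -(a' * G1) - 1 := ⟨_, rfl⟩
  obtain ⟨y, hy⟩ : ∃ y, y = -(b' * G2) + t * B - Ky := ⟨_, rfl⟩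
  obtain ⟨z, hz⟩ : ∃ z, z = G - Kz := ⟨_, rfl⟩
  have hBa : B * a ≤ b := by linarith
  have hMBa : (M * B) * a ≤ M * b := by
    calc (M * B) * a = M * (B * a) := by ring
      _ ≤ M * b := mul_le_mul_of_nonneg_left hBa hM
  have hya : y * a ≤ M * b := by
    have : y * a ≤ (M * B) * a := mul_le_mul_of_nonneg_right (by linarith) hapos.le
    linarith
  have hya' : -(2 * (M * b)) - Ky * b ≤ y * a := by
    have h1 : (-(2 * (M * B)) - Ky) * a ≤ y * a :=
      mul_le_mul_of_nonneg_right (by linarith) hapos.le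
    have h2 : Ky * a ≤ Ky * b := mul_le_mul_of_nonneg_left hab hKy0
    have h3 : (-(2 * (M * B)) - Ky) * a = -(2 * ((M * B) * a)) - Ky * a := by ring
    linarith
  have hMab : M * a ≤ M * b := mul_le_mul_of_nonneg_left hab hM
  have hm0 : 0 ≤ e * c + z * b + y * a + x := by
    have h1 : 0 ≤ e * c := mul_nonneg he hcpos.le
    have h2 : 0 ≤ (G - (Kz + 3 * M + Ky + 1)) * b := mul_nonneg (by linarith) hbpos.le
    have h3 : z * b = (G - (Kz + 3 * M + Ky + 1)) * b + 3 * (M * b) + Ky * b + b := by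
      rw [hz]; ring
    linarith
  have hm1 : e * c + z * b + y * a + x < (e + 1) * c := by
    have h3 : z * b = G * b - M * b := by rw [hz, hKz]; ring
    have h4 : (e + 1) * c = e * c + c := by ring
    linarith
  have hm2 : e * c + z * b + y * a + x < E * c :=
    lt_of_lt_of_le hm1 (mul_le_mul_of_nonneg_right heE hcpos.le)
  obtain ⟨X, Y, Z, W, hX, hXa, hY, hZ, hW, hsum, hm⟩ := H _ hm0 hm2
  have hWe : W ≤ e := by
    have h1 : 0 ≤ Y * a := mul_nonneg hY hapos.le
    have h2 : 0 ≤ Z * b := mul_nonneg hZ hbpos.le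
    have h3 : W * c < (e + 1) * c := by linarith
    have := lt_of_mul_lt_mul_right h3 hcpos.le
    linarith
  obtain ⟨s, r, v, hs0, hs1, hr1, hr2, hv1, hv2, hWs, hZs, hYs, hXs⟩ :=
    core (h := h) (a := a) (b := b) (c := c) (B := B) (B1 := B1) (G := G) (G1 := G1) (G2 := G2)
      (e := e) (x := x) (y := y) (z := z) (X := X) (Y := Y) (Z := Z) (W := W) (Q := Q)
      (M := 2 * M) (Ky := Ky) ha hQ (by linarith) hKy0 hb hB1 hB1a hc hG1 hG1a hG2 hG2b hBpos
      hGpos hQG hQB (by linarith) (by rw [hx]; linarith) (by rw [hx]; linarith)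
      (by rw [hy]; linarith) (by rw [hy]; linarith) (by rw [hz, hKz]; linarith)
      hX hXa hY (by linarith) (by linarith) hWe hm.symm
  have hXf : (s - a') * G1 + r * B1 + v * a = X + 1 := by rw [hXs, hx]; ring
  have hYf : (s - b') * G2 + (r + t) * B = Y + Ky + v := by rw [hYs, hy]; ring
  have hZf : (s + 1) * G = Z + Kz + r := by rw [hZs, hz]; ring
  refine ⟨s, r, v, hs0, by linarith, by rw [hXf]; linarith, by rw [hXf]; linarith, ?_, ?_⟩
  · rw [hYf]; linarith
  · rw [hXf, hYf, hZf]; linarith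

theorem factor_bound {δ : ℝ} {R h n g : ℕ} (hR : 8 ≤ (R : ℝ) * δ) (hh : 2 * R ≤ h)
    (hn : δ * (h : ℝ) ^ 4 ≤ n) (hlt : n < (g + 1) * (h + 1) ^ 3) (hh1 : 1 ≤ h) :
    h ≤ 2 * R * g := by
  have h1 : (h + 1) ^ 3 ≤ 8 * h ^ 3 := by
    calc (h + 1) ^ 3 ≤ (2 * h) ^ 3 := Nat.pow_le_pow_left (by omega) 3
      _ = 8 * h ^ 3 := by ring
  have h2 : n < (g + 1) * (8 * h ^ 3) := lt_of_lt_of_le hlt (Nat.mul_le_mul_left _ h1)
  have h2' : (n : ℝ) < ((g : ℝ) + 1) * (8 * (h : ℝ) ^ 3) := by exact_mod_cast h2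
  have h3 : δ * (h : ℝ) ^ 4 < ((g : ℝ) + 1) * (8 * (h : ℝ) ^ 3) := lt_of_le_of_lt hn h2'
  have hhpos : (0 : ℝ) < (h : ℝ) ^ 3 := by positivity
  have h4 : δ * (h : ℝ) < ((g : ℝ) + 1) * 8 := by
    have : (δ * (h : ℝ)) * (h : ℝ) ^ 3 < (((g : ℝ) + 1) * 8) * (h : ℝ) ^ 3 := by
      calc (δ * (h : ℝ)) * (h : ℝ) ^ 3 = δ * (h : ℝ) ^ 4 := by ring
        _ < ((g : ℝ) + 1) * (8 * (h : ℝ) ^ 3) := h3
        _ = (((g : ℝ) + 1) * 8) * (h : ℝ) ^ 3 := by ring
    exact lt_of_mul_lt_mul_right this hhpos.le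
  have h5 : (8 : ℝ) * h ≤ 8 * (R * (g + 1)) := by
    have h6 : (8 : ℝ) * h ≤ ((R : ℝ) * δ) * h := mul_le_mul_of_nonneg_right hR (by positivity)
    have h7 : (R : ℝ) * (δ * h) ≤ R * (((g : ℝ) + 1) * 8) :=
      mul_le_mul_of_nonneg_left h4.le (by positivity)
    calc (8 : ℝ) * h ≤ ((R : ℝ) * δ) * h := h6
      _ = (R : ℝ) * (δ * h) := by ring
      _ ≤ R * (((g : ℝ) + 1) * 8) := h7
      _ = 8 * (R * (g + 1)) := by ring
  have h8 : (h : ℝ) ≤ R * (g + 1) := by linarith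
  have h9 : h ≤ R * (g + 1) := by exact_mod_cast h8
  have h10 : R * (g + 1) = R * g + R := by ring
  have h11 : 2 * R * g = 2 * (R * g) := by ring
  omega

/-- Integer facts about a large basis. -/
theorem int_facts {δ : ℝ} {R h n a b c : ℕ} (hR : 8 ≤ (R : ℝ) * δ) (hh : 2 * R ≤ h) (hh1 : 1 ≤ h)
    (hn : δ * (h : ℝ) ^ 4 ≤ n) (ha : 1 < a) (hab : a < b) (hbc : b < c)
    (H : ∀ m ≤ n, Rep4 h a b c m) :
    c ≤ n ∧ a ≤ h + 1 ∧ a + b / a ≤ h + 2 ∧ c / b ≤ h ∧ n / c ≤ h ∧
      n < (n / c + 1) * ((c / b + 1) * ((b / a + 1) * a)) ∧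
      h ≤ 2 * R * (n / c) ∧ h ≤ 2 * R * (c / b) ∧ h ≤ 2 * R * (b / a) := by
  have hcount : (h + 1) ^ 3 < n + 1 := by
    have h1 : (h + 1) ^ 3 ≤ 8 * h ^ 3 := by
      calc (h + 1) ^ 3 ≤ (2 * h) ^ 3 := Nat.pow_le_pow_left (by omega) 3
        _ = 8 * h ^ 3 := by ring
    have hδ : 0 < δ := by
      by_contra hδ
      push Not at hδ
      have : (R : ℝ) * δ ≤ 0 := mul_nonpos_of_nonneg_of_nonpos (by positivity) hδ
      linarith
    have h2 : (8 : ℝ) * (h : ℝ) ^ 3 ≤ δ * (h : ℝ) ^ 4 := by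
      have h3 : (8 : ℝ) * (h : ℝ) ^ 3 ≤ ((R : ℝ) * δ) * (h : ℝ) ^ 3 :=
        mul_le_mul_of_nonneg_right hR (by positivity)
      have hRh : (R : ℝ) ≤ h := by exact_mod_cast (by omega : R ≤ h)
      have h4 : (R : ℝ) * (δ * (h : ℝ) ^ 3) ≤ h * (δ * (h : ℝ) ^ 3) :=
        mul_le_mul_of_nonneg_right hRh (by positivity)
      calc (8 : ℝ) * (h : ℝ) ^ 3 ≤ ((R : ℝ) * δ) * (h : ℝ) ^ 3 := h3
        _ = (R : ℝ) * (δ * (h : ℝ) ^ 3) := by ring
        _ ≤ h * (δ * (h : ℝ) ^ 3) := h4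
        _ = δ * (h : ℝ) ^ 4 := by ring
    have h3 : (8 : ℝ) * (h : ℝ) ^ 3 ≤ n := h2.trans hn
    have h4 : 8 * h ^ 3 ≤ n := by exact_mod_cast h3
    omega
  obtain ⟨hcn, ha1, hB, hG, hE, hlt⟩ := basic_facts ha hab hbc H hcount
  have hBh : b / a ≤ h := by omega
  refine ⟨hcn, ha1, hB, hG, hE, hlt, ?_, ?_, ?_⟩
  · apply factor_bound hR hh hn _ hh1
    refine lt_of_lt_of_le hlt ?_
    calc (n / c + 1) * ((c / b + 1) * ((b / a + 1) * a))
        ≤ (n / c + 1) * ((h + 1) * ((h + 1) * (h + 1))) := by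
          apply Nat.mul_le_mul_left
          apply Nat.mul_le_mul (by omega)
          exact Nat.mul_le_mul (by omega) ha1
      _ = (n / c + 1) * (h + 1) ^ 3 := by ring
  · apply factor_bound hR hh hn _ hh1
    refine lt_of_lt_of_le hlt ?_
    calc (n / c + 1) * ((c / b + 1) * ((b / a + 1) * a))
        ≤ (h + 1) * ((c / b + 1) * ((h + 1) * (h + 1))) := by
          apply Nat.mul_le_mul (by omega)
          apply Nat.mul_le_mul_left
          exact Nat.mul_le_mul (by omega) ha1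
      _ = (c / b + 1) * (h + 1) ^ 3 := by ring
  · apply factor_bound hR hh hn _ hh1
    refine lt_of_lt_of_le hlt ?_
    calc (n / c + 1) * ((c / b + 1) * ((b / a + 1) * a))
        ≤ (h + 1) * ((h + 1) * ((b / a + 1) * (h + 1))) := by
          apply Nat.mul_le_mul (by omega)
          apply Nat.mul_le_mul (by omega)
          exact Nat.mul_le_mul_left _ ha1
      _ = (b / a + 1) * (h + 1) ^ 3 := by ring

/-- The product bound. -/
theorem prod_bound {h a B G E n : ℕ} (hh : 1 ≤ h) (ha : a ≤ h + 1) (hB : B ≤ h) (hG : G ≤ h)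
    (hE : E ≤ h) (hn : n < (E + 1) * ((G + 1) * ((B + 1) * a))) :
    n ≤ E * a * B * G + 14 * h ^ 3 := by
  have h1 : (E + 1) * ((G + 1) * ((B + 1) * a)) = E * a * B * G +
      (E * G + E * B + G * B + E + G + B + 1) * a := by ring
  have h2 : E * G ≤ h * h := Nat.mul_le_mul hE hG
  have h3 : E * B ≤ h * h := Nat.mul_le_mul hE hB
  have h4 : G * B ≤ h * h := Nat.mul_le_mul hG hB
  have h5 : h ≤ h * h := Nat.le_mul_of_pos_left _ hh
  have h6 : (E * G + E * B + G * B + E + G + B + 1) * a ≤ (7 * (h * h)) * (2 * h) :=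
    Nat.mul_le_mul (by omega) (by omega)
  have h7 : (7 * (h * h)) * (2 * h) = 14 * h ^ 3 := by ring
  omega

/-- (U1) the integer level reduction. -/
theorem confOfBasis' : ConfOfBasis := by
  intro M δ hδ
  obtain ⟨R, hR⟩ : ∃ R : ℕ, 8 ≤ (R : ℝ) * δ := by
    obtain ⟨R, hR⟩ := exists_nat_ge (8 / δ)
    exact ⟨R, by rwa [div_le_iff₀ hδ] at hR⟩
  have hR1 : 1 ≤ R := by
    by_contra hc
    have : R = 0 := by omega
    subst this
    norm_num at hR
  obtain ⟨Q, hQ⟩ : ∃ Q : ℕ, Q = 2 * R := ⟨_, rfl⟩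
  obtain ⟨Ky, hKy⟩ : ∃ Ky : ℕ, Ky = 2 * M + 2 * ((3 + 2 * M) * Q) + (2 + 2 * M) * Q + 1 :=
    ⟨_, rfl⟩
  obtain ⟨K', hK'⟩ : ∃ K' : ℕ, K' = 2 + Ky + M + (2 + 2 * (2 * M) + (3 + 2 * M) * Q) +
    (2 + 2 * M) * Q + (3 + 2 * M) * Q := ⟨_, rfl⟩
  refine ⟨(K' : ℝ) + 14, Q * (M + 3 * M + Ky + 1) + Ky + 2 * M + 2 + Q, by positivity,
    by omega, ?_⟩
  intro h hh A hA n hbasis hn
  have hh1 : 1 ≤ h := by omega
  have hhQ : 2 * R ≤ h := by omega
  have hhR : (0 : ℝ) < h := by exact_mod_cast hh1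
  have hn1 : 1 ≤ n := by
    have : (0 : ℝ) < n := lt_of_lt_of_le (by positivity) hn
    exact_mod_cast this
  obtain ⟨a, b, c, ha, hab, hbc, H⟩ := basis_four hA hbasis hn1
  obtain ⟨hcn, ha1, haB, hG, hE, hlt, hQE, hQG, hQB⟩ :=
    int_facts hR hhQ hh1 hn ha hab hbc H
  rw [← hQ] at hQE hQG hQB
  have hBh : b / a ≤ h := by omega
  have hprod := prod_bound hh1 ha1 hBh hG hE hlt
  -- positivity of the digits
  have hEpos : 1 ≤ n / c := (Nat.one_le_div_iff (by omega)).mpr hcn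
  have hBpos : 1 ≤ b / a := (Nat.one_le_div_iff (by omega)).mpr hab.le
  have hGbig : M + 3 * M + Ky + 1 ≤ c / b := by
    have h1 : Q * (M + 3 * M + Ky + 1) ≤ Q * (c / b) := by omega
    exact Nat.le_of_mul_le_mul_left h1 (by omega)
  have hGpos : 1 ≤ c / b := by omega
  -- names
  obtain ⟨B, hBdef⟩ : ∃ B : ℕ, B = b / a := ⟨_, rfl⟩
  obtain ⟨B1, hB1def⟩ : ∃ B1 : ℕ, B1 = b % a := ⟨_, rfl⟩
  obtain ⟨G, hGdef⟩ : ∃ G : ℕ, G = c / b := ⟨_, rfl⟩
  obtain ⟨G2, hG2def⟩ : ∃ G2 : ℕ, G2 = c % b / a := ⟨_, rfl⟩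
  obtain ⟨G1, hG1def⟩ : ∃ G1 : ℕ, G1 = c % b % a := ⟨_, rfl⟩
  obtain ⟨E, hEdef⟩ : ∃ E : ℕ, E = n / c := ⟨_, rfl⟩
  rw [← hBdef] at haB hBh hprod hBpos hQB hlt
  rw [← hGdef] at hG hprod hGbig hGpos hQG hlt
  rw [← hEdef] at hE hprod hEpos hQE hlt
  have hb : b = B * a + B1 := by rw [hBdef, hB1def]; exact (Nat.div_add_mod' b a).symm
  have hB1a : B1 < a := by rw [hB1def]; exact Nat.mod_lt _ (by omega)
  have hcb : G2 * a + G1 = c % b := by rw [hG2def, hG1def]; exact Nat.div_add_mod' _ _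
  have hc : c = G * b + (G2 * a + G1) := by
    rw [hcb, hGdef]; exact (Nat.div_add_mod' c b).symm
  have hG1a : G1 < a := by rw [hG1def]; exact Nat.mod_lt _ (by omega)
  have hG2b : G2 * a + G1 < b := by rw [hcb]; exact Nat.mod_lt _ (by omega)
  have hG2B : G2 ≤ B := by
    rw [hG2def, hBdef]
    exact Nat.div_le_div_right (Nat.mod_lt _ (by omega : 0 < b)).le
  have hEc : E * c ≤ n := by rw [hEdef]; exact Nat.div_mul_le_self n c
  -- the integer test
  have HZ : ∀ m : ℤ, 0 ≤ m → m < (E : ℤ) * (c : ℤ) → ∃ X Y Z W : ℤ, 0 ≤ X ∧ X < (a : ℤ) ∧ 0 ≤ Y ∧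
      0 ≤ Z ∧ 0 ≤ W ∧ X + Y + Z + W ≤ (h : ℤ) ∧ X + Y * a + Z * b + W * c = m := by
    intro m hm0 hm1
    obtain ⟨m, rfl⟩ := Int.eq_ofNat_of_zero_le hm0
    have hm2 : m < E * c := by exact_mod_cast hm1
    obtain ⟨X, Y, Z, W, hXa, hs, he⟩ := rep_normal (by omega) (H m (by omega))
    exact ⟨X, Y, Z, W, by positivity, by exact_mod_cast hXa, by positivity, by positivity,
      by positivity, by exact_mod_cast hs, by exact_mod_cast he⟩
  have htest : ∀ e a' b' t : ℤ, 0 ≤ e → e + 1 ≤ (E : ℤ) → 0 ≤ a' → a' ≤ (M : ℤ) → 0 ≤ b' →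
      b' ≤ (M : ℤ) → |t| ≤ (M : ℤ) → ∃ s r v : ℤ, 0 ≤ s ∧ s ≤ e ∧
      1 ≤ (s - a') * G1 + r * B1 + v * a ∧ (s - a') * G1 + r * B1 + v * a ≤ a ∧
      1 ≤ (s - b') * G2 + (r + t) * B ∧
      ((s - a') * G1 + r * B1 + v * a) + ((s - b') * G2 + (r + t) * B) + (s + 1) * G ≤
        h - e - 1 + K' := by
    intro e a' b' t he heE ha' ha'M hb' hb'M ht
    have := test_int (h := h) (a := a) (b := b) (c := c) (B := B) (B1 := B1) (G := G) (G1 := G1)
      (G2 := G2) (E := E) (Q := Q) (M := M) (Ky := Ky) (Kz := M)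
      (by exact_mod_cast ha) (by exact_mod_cast (by omega : 1 ≤ Q)) (by positivity)
      (by exact_mod_cast hKy) rfl (by exact_mod_cast hb) (by positivity) (by exact_mod_cast hB1a)
      (by exact_mod_cast hc) (by positivity) (by exact_mod_cast hG1a) (by positivity)
      (by exact_mod_cast hG2b) (by exact_mod_cast hG2B) (by exact_mod_cast hBh)
      (by exact_mod_cast hBpos) (by exact_mod_cast hGbig) (by exact_mod_cast hQG)
      (by exact_mod_cast hQB) (by exact_mod_cast (by omega : Ky + 2 * M + 2 ≤ h)) HZ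
      e a' b' t he heE ha' ha'M hb' hb'M ht
    have hK'' : (K' : ℤ) = 2 + Ky + M + (2 + 2 * (2 * M) + (3 + 2 * M) * Q) +
      (2 + 2 * M) * Q + (3 + 2 * M) * Q := by exact_mod_cast hK'
    rw [hK'']
    exact this
  have hεK : (K' : ℝ) / h ≤ ((K' : ℝ) + 14) / h := by
    apply div_le_div_of_nonneg_right _ hhR.le
    linarith
  refine ⟨⟨a / h, B1 / h, B / h, G1 / h, G2 / h, G / h, (h - E) / h⟩, ?_, ?_⟩
  · have haR : (0 : ℝ) < a := by exact_mod_cast (by omega : 0 < a)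
    have hBR : (0 : ℝ) < B := by exact_mod_cast (by omega : 0 < B)
    have hGR : (0 : ℝ) < G := by exact_mod_cast (by omega : 0 < G)
    constructor
    · positivity
    · positivity
    · change 0 < (a : ℝ) / h
      positivity
    · change 0 < (B : ℝ) / h
      positivity
    · change 0 < (G : ℝ) / h
      positivity
    · change 0 ≤ (B1 : ℝ) / h
      positivity
    · change (B1 : ℝ) / h + 1 / h ≤ a / h
      rw [← add_div]
      apply div_le_div_of_nonneg_right _ hhR.le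
      exact_mod_cast hB1a
    · change 0 ≤ (G1 : ℝ) / h
      positivity
    · change (G1 : ℝ) / h + 1 / h ≤ a / h
      rw [← add_div]
      apply div_le_div_of_nonneg_right _ hhR.le
      exact_mod_cast hG1a
    · change 0 ≤ (G2 : ℝ) / h
      positivity
    · change (G2 : ℝ) / h ≤ B / h
      apply div_le_div_of_nonneg_right _ hhR.le
      exact_mod_cast hG2B
    · change (a : ℝ) / h + B / h ≤ 1 + ((K' : ℝ) + 14) / h
      have h1 : (a : ℝ) / h + B / h = (a + B) / h := by ring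
      have h2 : 1 + ((K' : ℝ) + 14) / h = (h + ((K' : ℝ) + 14)) / h := by
        field_simp
      rw [h1, h2]
      apply div_le_div_of_nonneg_right _ hhR.le
      have h3 : (a : ℝ) + B ≤ h + 2 := by exact_mod_cast haB
      have h4 : (0 : ℝ) ≤ K' := by positivity
      linarith
    · change ((h : ℝ) - E) / h ≤ 1
      rw [div_le_one hhR]
      have : (0 : ℝ) ≤ E := by positivity
      linarith
    · intro a' b' t ha' hb' ht
      obtain ⟨s, r, v, hs0, hs1, t1, t2, t3, t4⟩ := htest (E - 1) a' b' t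
        (by have : (1 : ℤ) ≤ E := by exact_mod_cast hEpos
            linarith) (by linarith) (by positivity) (by exact_mod_cast ha') (by positivity)
        (by exact_mod_cast hb') (by exact_mod_cast ht)
      obtain ⟨s, rfl⟩ := Int.eq_ofNat_of_zero_le hs0
      refine ⟨s, r, v, ?_⟩
      have t1' : (1 : ℝ) ≤ ((s : ℝ) - a') * G1 + r * B1 + v * a := by exact_mod_cast t1
      have t2' : ((s : ℝ) - a') * G1 + r * B1 + v * a ≤ a := by exact_mod_cast t2
      have t3' : (1 : ℝ) ≤ ((s : ℝ) - b') * G2 + (r + t) * B := by exact_mod_cast t3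
      have t4' : (((s : ℝ) - a') * G1 + r * B1 + v * a) + (((s : ℝ) - b') * G2 + (r + t) * B) +
          ((s : ℝ) + 1) * G ≤ h - (E - 1) - 1 + K' := by exact_mod_cast t4
      have e1 : ((s : ℝ) - a') * (G1 / h) + r * (B1 / h) + v * (a / h) =
          (((s : ℝ) - a') * G1 + r * B1 + v * a) / h := by ring
      have e2 : ((s : ℝ) - b') * (G2 / h) + ((r : ℝ) + t) * (B / h) =
          (((s : ℝ) - b') * G2 + (r + t) * B) / h := by ring
      change (1 : ℝ) / h ≤ ((s : ℝ) - a') * (G1 / h) + r * (B1 / h) + v * (a / h) ∧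
        ((s : ℝ) - a') * (G1 / h) + r * (B1 / h) + v * (a / h) ≤ a / h ∧
        (1 : ℝ) / h ≤ ((s : ℝ) - b') * (G2 / h) + ((r : ℝ) + t) * (B / h) ∧
        (((s : ℝ) - a') * (G1 / h) + r * (B1 / h) + v * (a / h)) +
          (((s : ℝ) - b') * (G2 / h) + ((r : ℝ) + t) * (B / h)) + ((s : ℝ) + 1) * (G / h) ≤
          ((h : ℝ) - E) / h + ((K' : ℝ) + 14) / h
      rw [e1, e2]
      refine ⟨div_le_div_of_nonneg_right t1' hhR.le, div_le_div_of_nonneg_right t2' hhR.le,
        div_le_div_of_nonneg_right t3' hhR.le, ?_⟩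
      rw [← add_div, ← mul_div_assoc, ← add_div, ← add_div]
      apply div_le_div_of_nonneg_right _ hhR.le
      linarith
    · intro t ht
      obtain ⟨s, r, v, hs0, hs1, t1, t2, t3, t4⟩ := htest 0 0 0 t le_rfl
        (by have : (1 : ℤ) ≤ E := by exact_mod_cast hEpos
            linarith) le_rfl (by positivity) le_rfl (by positivity) (by exact_mod_cast ht)
      have hs : s = 0 := le_antisymm hs1 hs0
      subst hs
      refine ⟨r, v, ?_⟩
      have t1' : (1 : ℝ) ≤ ((0 : ℝ) - 0) * G1 + r * B1 + v * a := by exact_mod_cast t1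
      have t2' : ((0 : ℝ) - 0) * G1 + r * B1 + v * a ≤ a := by exact_mod_cast t2
      have t3' : (1 : ℝ) ≤ ((0 : ℝ) - 0) * G2 + (r + t) * B := by exact_mod_cast t3
      have t4' : (((0 : ℝ) - 0) * G1 + r * B1 + v * a) + (((0 : ℝ) - 0) * G2 + (r + t) * B) +
          ((0 : ℝ) + 1) * G ≤ h - 0 - 1 + K' := by exact_mod_cast t4
      have e1 : (r : ℝ) * (B1 / h) + v * (a / h) = (r * B1 + v * a) / h := by ring
      have e2 : ((r : ℝ) + t) * (B / h) = ((r + t) * B) / h := by ring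
      have e3 : (1 : ℝ) + ((K' : ℝ) + 14) / h = (h + ((K' : ℝ) + 14)) / h := by
        field_simp
      change (1 : ℝ) / h ≤ (r : ℝ) * (B1 / h) + v * (a / h) ∧
        (r : ℝ) * (B1 / h) + v * (a / h) ≤ a / h ∧
        (1 : ℝ) / h ≤ ((r : ℝ) + t) * (B / h) ∧
        ((r : ℝ) * (B1 / h) + v * (a / h)) + ((r : ℝ) + t) * (B / h) + (G / h) ≤
          1 + ((K' : ℝ) + 14) / h
      rw [e1, e2, e3]
      refine ⟨div_le_div_of_nonneg_right (by linarith) hhR.le,
        div_le_div_of_nonneg_right (by linarith) hhR.le,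
        div_le_div_of_nonneg_right (by linarith) hhR.le, ?_⟩
      rw [← add_div, ← add_div]
      apply div_le_div_of_nonneg_right _ hhR.le
      linarith
  · change (n : ℝ) ≤ ((1 - ((h : ℝ) - E) / h) * (a / h) * (B / h) * (G / h) +
      ((K' : ℝ) + 14) / h) * (h : ℝ) ^ 4
    have h1 : ((1 - ((h : ℝ) - E) / h) * (a / h) * (B / h) * (G / h) +
      ((K' : ℝ) + 14) / h) * (h : ℝ) ^ 4 = E * a * B * G + (K' + 14) * (h : ℝ) ^ 3 := by
      field_simp
      ring
    rw [h1]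
    have h2 : (n : ℝ) ≤ E * a * B * G + 14 * (h : ℝ) ^ 3 := by exact_mod_cast hprod
    have h3 : (0 : ℝ) ≤ K' * (h : ℝ) ^ 3 := by positivity
    linarith

end Pool.Agent.H337_stamp.U1

namespace Pool.Agent.H337_stamp

/-- (U1) the integer level reduction. -/
theorem confOfBasis : ConfOfBasis := U1.confOfBasis'

end Pool.Agent.H337_stamp
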