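import Pool.Agent.H337_stamp.Stmts

/-! Parts U3 (`SpecialBound`) and A1 (`Irr`) of the project on `n(h,4)` (MP_da66b4_nt). -/

namespace Pool.Agent.H337_stamp

/-- Arithmetic-geometric mean inequality for four nonnegative reals, in product form. -/
theorem amgm_four {x y z w : ℝ} (hx : 0 ≤ x) (hy : 0 ≤ y) (hz : 0 ≤ z) (hw : 0 ≤ w) :
    x * y * z * w ≤ ((x + y + z + w) / 4) ^ 4 := by
  have h1 : x * y ≤ ((x + y) / 2) ^ 2 := by nlinarith [sq_nonneg (x - y)]
  have h2 : z * w ≤ ((z + w) / 2) ^ 2 := by nlinarith [sq_nonneg (z - w)]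
  have h3 : ((x + y) / 2) * ((z + w) / 2) ≤ ((x + y + z + w) / 4) ^ 2 := by
    nlinarith [sq_nonneg ((x + y) - (z + w))]
  have h4 : x * y * (z * w) ≤ ((x + y) / 2) ^ 2 * ((z + w) / 2) ^ 2 :=
    mul_le_mul h1 h2 (mul_nonneg hz hw) (sq_nonneg _)
  have h5 : (((x + y) / 2) * ((z + w) / 2)) ^ 2 ≤ (((x + y + z + w) / 4) ^ 2) ^ 2 := by
    apply pow_le_pow_left₀ _ h3
    positivity
  calc x * y * z * w = x * y * (z * w) := by ring
    _ ≤ ((x + y) / 2) ^ 2 * ((z + w) / 2) ^ 2 := h4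
    _ = (((x + y) / 2) * ((z + w) / 2)) ^ 2 := by ring
    _ ≤ (((x + y + z + w) / 4) ^ 2) ^ 2 := h5
    _ = ((x + y + z + w) / 4) ^ 4 := by ring

/-- The weighted sum of the constraints, common to the two special regions. -/
theorem special_weighted {b : ℝ} (hb : IsRoot b) {ε : ℝ} {p : Par}
    (hsum : p.al + p.be ≤ 1 + ε) (h : Special1 ε p ∨ Special2 ε p) :
    p.al / (1 - b) + p.be / b + 6 * p.g3 / (8 * b - 1) + (1 - p.D) / (1 - 3 * b)
      ≤ 4 * (1 + ε) := by
  have hlo := hb.lo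
  have hhi := hb.hi
  have hroot := hb.root
  have hb0 : 0 < b := by linarith
  have h1b : 0 < 1 - b := by linarith
  have h8b : 0 < 8 * b - 1 := by linarith
  have h3b : 0 < 1 - 3 * b := by linarith
  obtain ⟨u, hu⟩ : ∃ u : ℝ, u = 1 / (8 * b - 1) := ⟨_, rfl⟩
  obtain ⟨w, hw⟩ : ∃ w : ℝ, w = 1 / (1 - 3 * b) := ⟨_, rfl⟩
  have hu0 : 0 < u := by rw [hu]; positivity
  have hw0 : 0 < w := by rw [hw]; positivity
  have hy2 : 0 < w - 3 * u := by
    rw [hu, hw]
    have : 1 / (1 - 3 * b) - 3 * (1 / (8 * b - 1)) = (17 * b - 4) / ((1 - 3 * b) * (8 * b - 1)) := by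
      have h3n := h3b.ne'
      have h8n := h8b.ne'
      rw [mul_one_div, div_sub_div _ _ h3n h8n]
      congr 1
      ring
    rw [this]
    apply div_pos (by linarith) (mul_pos h3b h8b)
  have hy4 : 0 < 4 * u - w := by
    rw [hu, hw]
    have : 4 * (1 / (8 * b - 1)) - 1 / (1 - 3 * b) = (5 - 20 * b) / ((8 * b - 1) * (1 - 3 * b)) := by
      have h3n := h3b.ne'
      have h8n := h8b.ne'
      rw [mul_one_div, div_sub_div _ _ h8n h3n]
      congr 1
      ring
    rw [this]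
    apply div_pos (by linarith) (mul_pos h8b h3b)
  have hy6 : 0 < 4 - w := by
    rw [hw]
    have : 4 - 1 / (1 - 3 * b) = (3 - 12 * b) / (1 - 3 * b) := by
      field_simp
      ring
    rw [this]
    apply div_pos (by linarith) h3b
  have hu1 : u * (8 * b - 1) = 1 := by rw [hu]; exact one_div_mul_cancel h8b.ne'
  have hw1 : w * (1 - 3 * b) = 1 := by rw [hw]; exact one_div_mul_cancel h3b.ne'
  have hne : (8 * b - 1) * (1 - 3 * b) ≠ 0 := mul_ne_zero h8b.ne' h3b.ne'
  have hal : 1 / (1 - b) = u + 4 - w := by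
    rw [div_eq_iff h1b.ne']
    apply mul_left_cancel₀ hne
    linear_combination (-(1 - 3 * b) * (1 - b)) * hu1 + ((8 * b - 1) * (1 - b)) * hw1 - hroot
  have hbe : 1 / b = 2 * w - 7 * u + 4 := by
    rw [div_eq_iff hb0.ne']
    apply mul_left_cancel₀ hne
    linear_combination (7 * b * (1 - 3 * b)) * hu1 - (2 * b * (8 * b - 1)) * hw1 + hroot
  have e1 : p.al / (1 - b) = p.al * (u + 4 - w) := by rw [← hal]; ring
  have e2 : p.be / b = p.be * (2 * w - 7 * u + 4) := by rw [← hbe]; ring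
  have e3 : 6 * p.g3 / (8 * b - 1) = 6 * p.g3 * u := by rw [hu]; ring
  have e4 : (1 - p.D) / (1 - 3 * b) = (1 - p.D) * w := by rw [hw]; ring
  rw [e1, e2, e3, e4]
  have k6 := mul_le_mul_of_nonneg_left hsum hy6.le
  rcases h with h | h
  · obtain ⟨h1, h2, h3, h4, h5⟩ := h
    have hy3 : 0 < u := hu0
    have k1 := mul_le_mul_of_nonneg_left h1 (show 0 ≤ 2 * (w - 3 * u) by linarith)
    have k2 := mul_le_mul_of_nonneg_left h2 (show 0 ≤ (w - 3 * u) by linarith)
    have k3 := mul_le_mul_of_nonneg_left h3 (show 0 ≤ u by linarith)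
    have k4 := mul_le_mul_of_nonneg_left h4 (show 0 ≤ (4 * u - w) by linarith)
    have k5 := mul_le_mul_of_nonneg_left h5 (show 0 ≤ (4 * u - w) by linarith)
    linarith [k1, k2, k3, k4, k5, k6]
  · obtain ⟨h1, h2, h3, h4, h5⟩ := h
    have k1 := mul_le_mul_of_nonneg_left h1 (show 0 ≤ (4 * u - w) by linarith)
    have k2 := mul_le_mul_of_nonneg_left h2 (show 0 ≤ (4 * u - w) by linarith)
    have k3 := mul_le_mul_of_nonneg_left h3 (show 0 ≤ 2 * (w - 3 * u) by linarith)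
    have k4 := mul_le_mul_of_nonneg_left h4 (show 0 ≤ (w - 3 * u) by linarith)
    have k5 := mul_le_mul_of_nonneg_left h5 (show 0 ≤ u by linarith)
    linarith [k1, k2, k3, k4, k5, k6]

/-- (U3) The bound in the two special regions, with the explicit constant `C = 1`. -/
theorem specialBound : SpecialBound := by
  intro b hb
  refine ⟨1, one_pos, ?_⟩
  intro M ε τ p hC hS
  have hlo := hb.lo
  have hhi := hb.hi
  have hb0 : 0 < b := by linarith
  have h1b : 0 < 1 - b := by linarith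
  have h8b : 0 < 8 * b - 1 := by linarith
  have h3b : 0 < 1 - 3 * b := by linarith
  have key := special_weighted hb hC.sum_le hS
  have hal := hC.al_pos
  have hbe := hC.be_pos
  have hg3 := hC.g3_pos
  have hD : 0 ≤ 1 - p.D := by linarith [hC.D_le]
  have x1 : 0 ≤ p.al / (1 - b) := by positivity
  have x2 : 0 ≤ p.be / b := by positivity
  have x3 : 0 ≤ 6 * p.g3 / (8 * b - 1) := by positivity
  have x4 : 0 ≤ (1 - p.D) / (1 - 3 * b) := div_nonneg hD h3b.le
  have am := amgm_four x1 x2 x3 x4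
  have hmono : ((p.al / (1 - b) + p.be / b + 6 * p.g3 / (8 * b - 1)
      + (1 - p.D) / (1 - 3 * b)) / 4) ^ 4 ≤ (1 + ε) ^ 4 := by
    apply pow_le_pow_left₀ (by positivity)
    linarith
  have hcval : cval b = b * (8 * b - 1) * (1 - 3 * b) * (1 - b) / 6 := by
    unfold cval
    ring
  have hcpos : 0 < cval b := by
    rw [hcval]
    positivity
  have hprod : p.prod = cval b * (p.al / (1 - b) * (p.be / b) * (6 * p.g3 / (8 * b - 1))
      * ((1 - p.D) / (1 - 3 * b))) := by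
    rw [hcval]
    unfold Par.prod
    have e1 : p.al / (1 - b) * (1 - b) = p.al := div_mul_cancel₀ _ h1b.ne'
    have e2 : p.be / b * b = p.be := div_mul_cancel₀ _ hb0.ne'
    have e3 : 6 * p.g3 / (8 * b - 1) * (8 * b - 1) = 6 * p.g3 := div_mul_cancel₀ _ h8b.ne'
    have e4 : (1 - p.D) / (1 - 3 * b) * (1 - 3 * b) = 1 - p.D := div_mul_cancel₀ _ h3b.ne'
    calc (1 - p.D) * p.al * p.be * p.g3 = (1 - p.D) * p.al * p.be * (6 * p.g3) / 6 := by ring
      _ = ((1 - p.D) / (1 - 3 * b) * (1 - 3 * b)) * (p.al / (1 - b) * (1 - b)) * (p.be / b * b)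
          * (6 * p.g3 / (8 * b - 1) * (8 * b - 1)) / 6 := by rw [e1, e2, e3, e4]
      _ = _ := by ring
  rw [hprod, one_mul]
  exact mul_le_mul_of_nonneg_left (am.trans hmono) hcpos.le

/-- The cubic satisfied by the limit constant. -/
theorem cval_cubic {b : ℝ} (hb : IsRoot b) :
    191102976 * (cval b) ^ 3 + 37811043 * (cval b) ^ 2 - 152172 * cval b - 1225 = 0 := by
  have hroot := hb.root
  unfold cval
  linear_combination (1225 + 4038 * b - 3110703 / 4 * b ^ 2 + 6233820 * b ^ 3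
    - 97408683 / 4 * b ^ 4 + 94115556 * b ^ 5 - 299463984 * b ^ 6 + 514874880 * b ^ 7
    - 418037760 * b ^ 8 + 127401984 * b ^ 9) * hroot

/-- The cubic form has no nontrivial zero modulo `11`. -/
theorem cubic_form_mod11 : ∀ x y : ZMod 11,
    191102976 * x ^ 3 + 37811043 * x ^ 2 * y - 152172 * x * y ^ 2 - 1225 * y ^ 3 = 0 →
      x = 0 ∧ y = 0 := by
  decide

/-- (A1) The limit constant is irrational. -/
theorem irr : Irr := by
  intro b hb
  have hc := cval_cubic hb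
  rintro ⟨q, hq⟩
  rw [← hq] at hc
  have hq' : 191102976 * q ^ 3 + 37811043 * q ^ 2 - 152172 * q - 1225 = 0 := by
    exact_mod_cast hc
  have hden : (q.den : ℚ) ≠ 0 := by exact_mod_cast q.den_nz
  have hqe : q = (q.num : ℚ) / (q.den : ℚ) := (Rat.num_div_den q).symm
  have hnum : (191102976 * (q.num : ℚ) ^ 3 + 37811043 * (q.num : ℚ) ^ 2 * (q.den : ℚ)
      - 152172 * (q.num : ℚ) * (q.den : ℚ) ^ 2 - 1225 * (q.den : ℚ) ^ 3) = 0 := by
    have h2 := hq'
    rw [hqe] at h2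
    field_simp at h2
    linear_combination h2
  have hint : 191102976 * q.num ^ 3 + 37811043 * q.num ^ 2 * (q.den : ℤ)
      - 152172 * q.num * (q.den : ℤ) ^ 2 - 1225 * (q.den : ℤ) ^ 3 = 0 := by
    exact_mod_cast hnum
  have hz : 191102976 * (q.num : ZMod 11) ^ 3 + 37811043 * (q.num : ZMod 11) ^ 2 * ((q.den : ℤ) : ZMod 11)
      - 152172 * (q.num : ZMod 11) * ((q.den : ℤ) : ZMod 11) ^ 2
      - 1225 * ((q.den : ℤ) : ZMod 11) ^ 3 = 0 := by
    have := congrArg (Int.cast : ℤ → ZMod 11) hint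
    push_cast at this ⊢
    exact this
  obtain ⟨hx, hy⟩ := cubic_form_mod11 _ _ hz
  have hx' : (11 : ℤ) ∣ q.num := (ZMod.intCast_zmod_eq_zero_iff_dvd _ 11).1 hx
  have hy' : (11 : ℤ) ∣ (q.den : ℤ) := (ZMod.intCast_zmod_eq_zero_iff_dvd _ 11).1 hy
  have hcop : Nat.Coprime q.num.natAbs q.den := q.reduced
  have h1 : 11 ∣ q.num.natAbs := by
    have := Int.natAbs_dvd_natAbs.2 hx'
    simpa using this
  have h2 : 11 ∣ q.den := by exact_mod_cast hy'
  have h3 : 11 ∣ Nat.gcd q.num.natAbs q.den := Nat.dvd_gcd h1 h2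
  rw [hcop] at h3
  omega

end Pool.Agent.H337_stamp
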