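import Pool.Agent.H337_stamp.Cert.Chain
import Pool.Agent.H337_stamp.U1
import Pool.Agent.H337_stamp.U3
import Pool.Agent.H337_stamp.L
import Pool.Agent.H337_stamp.S
import Pool.Agent.H337_stamp.A2

/-! The final assembly. -/

namespace Pool.Agent.H337_stamp

open Filter Topology

theorem exists_root : ∃ b : ℝ, IsRoot b := by
  have hcont : ContinuousOn (fun b : ℝ => 96 * b ^ 3 - 105 * b ^ 2 + 24 * b - 1)
      (Set.Icc (2439 / 10000 : ℝ) (2440 / 10000)) := by fun_prop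
  have h := intermediate_value_Icc' (by norm_num : (2439 / 10000 : ℝ) ≤ 2440 / 10000) hcont
  have h0 : (0 : ℝ) ∈ Set.Icc ((fun b : ℝ => 96 * b ^ 3 - 105 * b ^ 2 + 24 * b - 1) (2440 / 10000))
      ((fun b : ℝ => 96 * b ^ 3 - 105 * b ^ 2 + 24 * b - 1) (2439 / 10000)) := by
    constructor <;> norm_num
  obtain ⟨b, hb, hb0⟩ := h h0
  have hb0' : 96 * b ^ 3 - 105 * b ^ 2 + 24 * b - 1 = 0 := hb0
  refine ⟨b, ?_, ?_, hb0'⟩
  · rcases lt_or_eq_of_le hb.1 with h | h
    · exact h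
    · exfalso; rw [← h] at hb0'; norm_num at hb0'
  · rcases lt_or_eq_of_le hb.2 with h | h
    · exact h
    · exfalso; rw [h] at hb0'; norm_num at hb0'

theorem cval_gt {b : ℝ} (hb : IsRoot b) : (251 / 32000 : ℝ) ≤ cval b := by
  obtain ⟨h1, h2, h3⟩ := hb
  unfold cval
  have h4 : b ^ 3 = (105 * b ^ 2 - 24 * b + 1) / 96 := by linarith
  have h5 : b ^ 4 = (105 * b ^ 3 - 24 * b ^ 2 + b) / 96 := by
    have : b ^ 4 = b * b ^ 3 := by ring
    rw [this, h4]; ring_nf
    nlinarith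
  nlinarith [sq_nonneg (b - 24393 / 100000)]

theorem cval_pos {b : ℝ} (hb : IsRoot b) : 0 < cval b := lt_of_lt_of_le (by norm_num) (cval_gt hb)

/-- upper bound for the stamp function -/
theorem upper {b : ℝ} (hb : IsRoot b) : ∃ K C : ℝ, 0 < K ∧ 0 < C ∧ ∃ h0 : ℕ, 0 < h0 ∧ ∀ h : ℕ, h0 ≤ h →
    (stamp h 4 : ℝ) ≤ (cval b * (1 + C * (K / h)) ^ 4 + K / h) * (h : ℝ) ^ 4 := by
  obtain ⟨M, C1, hC1, hcert⟩ := Check.cert
  obtain ⟨C2, hC2, hsp⟩ := specialBound b hb
  have hc := cval_pos hb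
  obtain ⟨K, h1, hK, hh1, hU⟩ := confOfBasis M (cval b) hc
  refine ⟨K, C1 + C2, hK, by positivity, max h1 (Nat.ceil (C1 * K)), lt_of_lt_of_le hh1 (le_max_left _ _), ?_⟩
  intro h hh
  have hh1' : h1 ≤ h := le_trans (le_max_left _ _) hh
  have hh2 : C1 * K ≤ h := le_trans (Nat.le_ceil _) (by exact_mod_cast le_trans (le_max_right _ _) hh)
  have hpos : (0 : ℝ) < h := by exact_mod_cast lt_of_lt_of_le hh1 hh1'
  have hε : 0 ≤ K / h := by positivity
  have hε1 : C1 * (K / h) ≤ 1 := by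
    rw [← mul_div_assoc, div_le_one hpos]; exact hh2
  have h4 : (0 : ℝ) < (h : ℝ) ^ 4 := by positivity
  obtain ⟨A, hA, hB⟩ := (stampMax h 4).1
  rcases le_or_gt (cval b * (h : ℝ) ^ 4) (stamp h 4 : ℝ) with hle | hlt
  · obtain ⟨p, hp, hn⟩ := hU h hh1' A hA _ hB hle
    refine le_trans hn (mul_le_mul_of_nonneg_right (add_le_add ?_ le_rfl) h4.le)
    have hmono : ∀ C : ℝ, 0 < C → C ≤ C1 + C2 →
        (1 + C * (K / h)) ^ 4 ≤ (1 + (C1 + C2) * (K / h)) ^ 4 := by
      intro C hC hCC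
      have : C * (K / h) ≤ (C1 + C2) * (K / h) := mul_le_mul_of_nonneg_right hCC hε
      exact pow_le_pow_left₀ (by positivity) (by linarith) 4
    rcases hcert _ _ p hp hε1 with h5 | h5
    · refine le_trans h5 (mul_le_mul (cval_gt hb) (hmono C1 hC1 (by linarith)) (by positivity) hc.le)
    · exact le_trans (hsp M _ _ p hp h5) (mul_le_mul_of_nonneg_left (hmono C2 hC2 (by linarith)) hc.le)
  · refine le_trans hlt.le (mul_le_mul_of_nonneg_right ?_ h4.le)
    have h6 : (1 : ℝ) ≤ (1 + (C1 + C2) * (K / h)) ^ 4 :=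
      one_le_pow₀ (by have : 0 ≤ (C1 + C2) * (K / h) := by positivity
                      linarith)
    nlinarith

/-- the limit -/
theorem tendsto_stamp {b : ℝ} (hb : IsRoot b) :
    Tendsto (fun h : ℕ => (stamp h 4 : ℝ) / (h : ℝ) ^ 4) atTop (𝓝 (cval b)) := by
  rw [tendsto_order]
  constructor
  · intro a ha
    obtain ⟨h0, hh0⟩ := lower b hb ((cval b - a) / 2) (by linarith)
    filter_upwards [eventually_ge_atTop (max h0 1)] with h hh
    obtain ⟨A, hA, n, hB, hn⟩ := hh0 h (le_trans (le_max_left _ _) hh)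
    have hpos : (0 : ℝ) < h := by
      have : 1 ≤ h := le_trans (le_max_right _ _) hh
      exact_mod_cast this
    have h4 : (0 : ℝ) < (h : ℝ) ^ 4 := by positivity
    have h5 : n ≤ stamp h 4 := (stampMax h 4).2 ⟨A, hA, hB⟩
    have h6 : (n : ℝ) ≤ stamp h 4 := by exact_mod_cast h5
    rw [lt_div_iff₀ h4]
    have h7 : a * (h : ℝ) ^ 4 < (cval b - (cval b - a) / 2) * (h : ℝ) ^ 4 :=
      mul_lt_mul_of_pos_right (by linarith) h4
    linarith
  · intro a ha
    obtain ⟨K, C, hK, hC, h0, hh0, hU⟩ := upper hb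
    have hg : Tendsto (fun h : ℕ => cval b * (1 + C * (K / (h : ℝ))) ^ 4 + K / (h : ℝ)) atTop (𝓝 (cval b)) := by
      have t0 := tendsto_const_div_atTop_nhds_zero_nat K
      have t1 := ((((t0.const_mul C).const_add 1).pow 4).const_mul (cval b)).add t0
      simpa using t1
    filter_upwards [hg.eventually (gt_mem_nhds ha), eventually_ge_atTop h0] with h h1 h2
    have hpos : (0 : ℝ) < h := by exact_mod_cast lt_of_lt_of_le hh0 h2
    have h4 : (0 : ℝ) < (h : ℝ) ^ 4 := by positivity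
    rw [div_lt_iff₀ h4]
    exact lt_of_le_of_lt (hU h h2) (mul_lt_mul_of_pos_right h1 h4)

theorem final : Final := by
  obtain ⟨b, hb⟩ := exists_root
  exact polyArg (fun h => stamp h 4) (cval b) (irr b hb) (tendsto_stamp hb)

end Pool.Agent.H337_stamp
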