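/-!
The certificate checker (kernel friendly: raw recursors, `Nat` operations, one big natural number
as stream, continuation passing).

Homogeneous coordinates (digit positions, base `2^64`):
0 b1, 1 g1, 2 g2, 3 al, 4 be, 5 g3, 6 D, 7 one  (biased by the digit 10), 8 eps, 9 tau (not biased),
10 the bias (`2^19`).
A packed vector `e` stands for the inequality
`∑_{i<8} (digit_i - digit_10) X_i + digit_9 * tau ≤ digit_8 * eps`.
-/

namespace Pool.Agent.H337_stamp.Check

noncomputable section

/-- strict application (the kernel evaluates `n` first) -/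
@[reducible] def fz (n : Nat) (f : Nat → Bool) : Bool :=
  Nat.rec (motive := fun _ => Bool) (f 0) (fun m _ => f (Nat.succ m)) n

/-- if-then-else -/
@[reducible] def ite' (b : Bool) (x y : Nat) : Nat := Bool.rec (motive := fun _ => Nat) y x b

/-- Boolean if-then-else -/
@[reducible] def iteb (b x y : Bool) : Bool := Bool.rec (motive := fun _ => Bool) y x b

/-- the slot `j` of a packed path -/
@[reducible] def slot (P j : Nat) : Nat :=
  Nat.land (Nat.shiftRight P (Nat.mul (nat_lit 704) j))
    (nat_lit 84162174424773976115855838126082058648805436845170781751972494449099714468753293153818664580441415219631727501698851483408310916002940861810045036330430093599283578738055113571066620126149163476340692027772502015)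

/-- sum of `k` terms (7 bits of index, 29 bits of multiplier) -/
def sm (P k : Nat) : Nat → Nat :=
  Nat.rec (motive := fun _ => Nat → Nat) (fun _ => 0)
    (fun _ ih w => Nat.add
      (Nat.mul (Nat.land (Nat.shiftRight w (nat_lit 7)) (nat_lit 536870911))
        (Nat.land (Nat.shiftRight P (Nat.mul (nat_lit 704) (Nat.land w (nat_lit 127))))
    (nat_lit 84162174424773976115855838126082058648805436845170781751972494449099714468753293153818664580441415219631727501698851483408310916002940861810045036330430093599283578738055113571066620126149163476340692027772502015)))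
      (ih (Nat.shiftRight w (nat_lit 36)))) k

/-- digit at bit `i` -/
@[reducible] def dg (S i : Nat) : Nat := Nat.land (Nat.shiftRight S i) (nat_lit 18446744073709551615)

/-- the first three digits are at least `T` -/
def low3 (S T : Nat) : Bool :=
  Nat.beq (Nat.land (Nat.add S (Nat.mul (Nat.sub (nat_lit 9223372036854775808) T)
      (nat_lit 340282366920938463481821351505477763073)))
    (nat_lit 3138550867693340382088035895064302439792088397984756137984))
    (nat_lit 3138550867693340382088035895064302439792088397984756137984)

/-- the first eight digits are at least `T` -/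
def low8 (S T : Nat) : Bool :=
  Nat.beq (Nat.land (Nat.add S (Nat.mul (Nat.sub (nat_lit 9223372036854775808) T)
      (nat_lit 726838724295606890588725814084399013568056387823382584169080752246511603091378769339537499843825263836454776755850775885168074347773953)))
    (nat_lit 6703903964971298550150431861250726509034045817338396195645808915772573307121313864524192950629141098514784679015155657345104329783898672915800861676929024))
    (nat_lit 6703903964971298550150431861250726509034045817338396195645808915772573307121313864524192950629141098514784679015155657345104329783898672915800861676929024)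

/-- the AM-GM test; `a = digit 6`, `b = digit 7` -/
def amgm (S T a b : Nat) : Bool :=
  Nat.ble (Nat.mul (nat_lit 125) (Nat.pow (Nat.succ (Nat.sub (Nat.add T T) (Nat.add a b))) (nat_lit 4)))
    (Nat.mul (nat_lit 251) (Nat.mul
      (Nat.mul (Nat.sub T a) (Nat.sub (dg S (nat_lit 192)) T))
      (Nat.mul (Nat.sub (dg S (nat_lit 256)) T) (Nat.sub (dg S (nat_lit 320)) T))))

/-- one of `al, be, g3, D, one` has a positive coefficient, or there is no `eps` and some `tau` -/
def posc (S T : Nat) : Bool :=
  iteb (Nat.ble (Nat.succ (Nat.mul (nat_lit 5) T))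
    (Nat.mod (Nat.land (Nat.shiftRight S (nat_lit 192)) (nat_lit 2135987035920910082395021706169552114602704522356652769947041607822219725780640550022962086936575))
      (nat_lit 18446744073709551615))) true
    (iteb (Nat.beq (dg S (nat_lit 512)) (nat_lit 0)) (Nat.ble (nat_lit 1) (dg S (nat_lit 576))) false)

/-- a leaf: (3 bits of tag) 3 bits: number of terms from `E`; 5 bits: number of terms from `P`;
then the terms -/
def leaf (test : Nat → Nat → Bool) (E P n : Nat) (k : Nat → Bool) : Bool :=
  (fun w0 => (fun k1 k2 => (fun S => iteb (test S (Nat.shiftRight S (nat_lit 640)))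
      (k (Nat.shiftRight n (Nat.add (nat_lit 11) (Nat.mul (nat_lit 36) (Nat.add k1 k2))))) false)
      (Nat.add (sm E k1 (Nat.shiftRight w0 (nat_lit 11)))
        (sm P k2 (Nat.shiftRight w0 (Nat.add (nat_lit 11) (Nat.mul (nat_lit 36) k1))))))
    (Nat.land (Nat.shiftRight w0 (nat_lit 3)) (nat_lit 7))
    (Nat.land (Nat.shiftRight w0 (nat_lit 6)) (nat_lit 31)))
  (Nat.land n
    (nat_lit 1552518092300708935148979488462502555256886017116696611139052038026050952686376886330878408828646477950487730697131073206171580044114814391444287275041181139204454976020849905550265285631598444825262999193716468750892846853816057855))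

/-- test of an AM-GM leaf -/
def testA (S T : Nat) : Bool :=
  iteb (low3 S T) (amgm S T (dg S (nat_lit 384)) (dg S (nat_lit 448))) false

/-- test of an infeasibility leaf -/
def testS (S T : Nat) : Bool := iteb (low8 S T) (posc S T) false

/-- push a packed vector on a path -/
@[reducible] def push (P e : Nat) : Nat := Nat.add (Nat.shiftLeft P (nat_lit 704)) e

/-- `2^(64 i)` times `c` -/
@[reducible] def sh (c i : Nat) : Nat := Nat.shiftLeft c (Nat.mul (nat_lit 64) i)

def bias8 : Nat := nat_lit 2392032866531905486790942578809394338145620987608332988883884759645458674010956031496026697409987585594603964810009503629540178696322058429447378734712639692256548985826766081736332943868233110781952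
def K1 : Nat := nat_lit 2392032866531905486790942578809394338145621001016140918826481859219483672216802158935990511805986484105886368431629919868364641382977963898361402814015681421179198775489475395523296483701297796087552
def K1t : Nat := nat_lit 2392032866531905486790942578809394338145621001016140918826481858492644947921195268426068710114376428964524047844455473391954181472804122452911772892070352478912843826141220044142034190973324157779712
def K2 : Nat := nat_lit 2392032866531905486790942826139795811250155048110854008531074794776807775222795945559082790307212692126471135126410564872585168293993484447193656130336664274549721045714083786156426220740667739996416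
def K3 : Nat := nat_lit 2392032866531905486790942826139795811250155048110854008531074794776807775222795945559082790307212692126471135126410564902227943138746430474020890248301778409531987313708665824377266266003299109437440
def K4 : Nat := nat_lit 2392032866531905486790942578809394338145620987608332988883884759645458674010956031496026697409987585594603964810009503629540178696322058427834163588718262735950751104062395812793305228158106595753728
def KL : Nat := nat_lit 2392032866531905486790942578809394338145620987608332988883884759645458674010956031496026697409987585594603964810009503599897403851569112399406268528229545006190358533149858838461642178074276780310272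
def KR : Nat := nat_lit 2392032866531905486790942578809394338145620987608332988883884759645458674010956031496026697409987585594603964810009503659182953541075004459488488941195734378322739438503673325011023709662189441253632

/-- the X form of a candidate, packed with offset 256 (digits 0,1,3) -/
@[reducible] def fX (s a r v : Nat) : Nat :=
  Nat.add (Nat.add (Nat.shiftLeft (Nat.sub (Nat.add s (nat_lit 256)) a) (nat_lit 64)) r)
    (Nat.shiftLeft v (nat_lit 192))

/-- the Y form of a candidate, packed with offset 256 (digits 2,4) -/
@[reducible] def fY (s b ρ : Nat) : Nat :=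
  Nat.add (Nat.shiftLeft (Nat.sub (Nat.add s (nat_lit 256)) b) (nat_lit 128)) (Nat.shiftLeft ρ (nat_lit 256))

/-- the cost constraint of a candidate -/
@[reducible] def eC (Kc s sX sY : Nat) : Nat :=
  Nat.add (Nat.add Kc (Nat.add sX sY)) (Nat.shiftLeft (Nat.succ s) (nat_lit 320))

/-- all four constraints: slot 0 cost, 1 `X ≥ τ`, 2 `Y ≥ τ`, 3 `X ≤ al` -/
def four (Kc s sX sY : Nat) : Nat :=
  push (push (push (Nat.add K4 sX) (Nat.sub K3 sY)) (Nat.sub K2 sX)) (eC Kc s sX sY)

/-- push the constraints chosen by a mask -/
def pushes (P Kc s sX sY mask : Nat) : Nat :=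
  (fun P => (fun P => (fun P =>
    ite' (Nat.ble (nat_lit 8) mask) (push P (Nat.add K4 sX)) P)
    (ite' (Nat.ble (nat_lit 4) (Nat.land mask (nat_lit 7))) (push P (Nat.sub K3 sY)) P))
    (ite' (Nat.ble (nat_lit 2) (Nat.land mask (nat_lit 3))) (push P (Nat.sub K2 sX)) P))
    (ite' (Nat.beq (Nat.land mask (nat_lit 1)) (nat_lit 1)) (push P (eC Kc s sX sY)) P)

/-- a candidate child: 3 bits of tag (0 AM-GM leaf, 1 strict leaf, else subtree with a mask of 4 bits) -/
def cand (chk : Nat → Nat → (Nat → Bool) → Bool) (P Kc a b s ρ r v n : Nat) (k : Nat → Bool) : Bool :=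
  (fun sX sY tag =>
    iteb (Nat.beq tag (nat_lit 1)) (leaf testS (four Kc s sX sY) P n k)
      (iteb (Nat.beq tag (nat_lit 0)) (leaf testA (four Kc s sX sY) P n k)
        (chk (pushes P Kc s sX sY (Nat.land (Nat.shiftRight n (nat_lit 3)) (nat_lit 15))) (Nat.shiftRight n (nat_lit 7)) k)))
    (fX s a r v) (fY s b ρ) (Nat.land n (nat_lit 7))

/-- loop over `v` -/
def loopV (cd : Nat → Nat → (Nat → Bool) → Bool) (cnt : Nat) : Nat → Nat → (Nat → Bool) → Bool :=
  Nat.rec (motive := fun _ => Nat → Nat → (Nat → Bool) → Bool) (fun _ n k => k n)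
    (fun _ ih v n k => cd v n (fun n' => ih (Nat.succ v) n' k)) cnt

/-- completeness of the range of `v`, lower end -/
@[reducible] def okLo (w1 w2 u1 u2 a s r vlo : Nat) : Bool :=
  Nat.ble
    (Nat.add (Nat.add (Nat.mul (Nat.sub s a) w2) (Nat.mul (Nat.sub r (nat_lit 256)) u2)) (Nat.mul (nat_lit 5040) vlo))
    (Nat.add (Nat.add (Nat.mul (Nat.sub a s) w1) (Nat.mul (Nat.sub (nat_lit 256) r) u1)) (nat_lit 1295280))

/-- lower bound (times 5040, over `al`) for the `X` value at `v` -/
@[reducible] def lowX (w1 w2 u1 u2 a s r v : Nat) : Nat :=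
  Nat.sub (Nat.add (Nat.add (Nat.mul (Nat.sub s a) w1) (Nat.mul (Nat.sub r (nat_lit 256)) u1)) (Nat.mul (nat_lit 5040) v))
    (Nat.add (Nat.add (Nat.mul (Nat.sub a s) w2) (Nat.mul (Nat.sub (nat_lit 256) r) u2)) (nat_lit 1290240))

/-- the lower bound (times 5040, over `be`) for the `Y` value -/
@[reducible] def lowY (y1 y2 b s ρ : Nat) : Nat :=
  Nat.sub (Nat.add (Nat.mul (Nat.sub s b) y1) (Nat.mul (nat_lit 5040) ρ))
    (Nat.add (Nat.mul (Nat.sub b s) y2) (nat_lit 1290240))

/-- a candidate with lower bounds `x` for `X`, `y` for `Y` costs too much -/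
def cost (two : Bool) (gm bm dm am s x y : Nat) : Bool :=
  iteb two
    (Nat.ble (nat_lit 128024064001)
      (Nat.mul (Nat.add (Nat.add (Nat.mul y bm) (Nat.mul x am)) (Nat.mul gm (nat_lit 5040))) dm))
    (Nat.ble (nat_lit 25401601)
      (Nat.add (Nat.add (Nat.mul y bm) (Nat.mul x am)) (Nat.mul (Nat.mul (Nat.succ s) gm) (nat_lit 5040))))

/-- loop over `ρ` -/
def loopR (chk : Nat → Nat → (Nat → Bool) → Bool) (P u1 u2 w1 w2 y1 y2 gm bm dm am : Nat) (two : Bool)
    (Kc a b t s : Nat) (fuel : Nat) : Nat → Nat → (Nat → Bool) → Bool :=
  Nat.rec (motive := fun _ => Nat → Nat → (Nat → Bool) → Bool) (fun _ _ _ => false)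
    (fun _ ih ρ n k =>
      iteb (cost two gm bm dm am s (nat_lit 0) (lowY y1 y2 b s ρ))
        (k n)
        (iteb (iteb (Nat.beq s b) (Nat.beq ρ (nat_lit 256)) false)
          (ih (Nat.succ ρ) n k)
          ((fun vlo cnt r => iteb (okLo w1 w2 u1 u2 a s r vlo)
            ((fun x => iteb (iteb (Nat.ble (nat_lit 5041) x) true (cost two gm bm dm am s x (lowY y1 y2 b s ρ)))
             (loopV (cand chk P Kc a b s ρ r) cnt vlo (Nat.shiftRight n (nat_lit 15)) (fun n' => ih (Nat.succ ρ) n' k))
             false) (lowX w1 w2 u1 u2 a s r (Nat.add vlo cnt))) false)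
            (Nat.land n (nat_lit 1023)) (Nat.land (Nat.shiftRight n (nat_lit 10)) (nat_lit 31))
            (Nat.sub (Nat.add ρ (nat_lit 256)) t)))) fuel

/-- loop over `s` -/
def loopS (chk : Nat → Nat → (Nat → Bool) → Bool) (P u1 u2 w1 w2 y1 y2 gm bm dm am : Nat) (two : Bool)
    (Kc a b t : Nat) (fuel : Nat) : Nat → Nat → (Nat → Bool) → Bool :=
  Nat.rec (motive := fun _ => Nat → Nat → (Nat → Bool) → Bool) (fun _ _ _ => false)
    (fun _ ih s n k => fz s fun s =>
      iteb (iteb two (Nat.ble (nat_lit 1) s) (Nat.ble (nat_lit 5041) (Nat.mul (Nat.succ s) gm)))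
        (k n)
        ((fun ρlo =>
         iteb (Nat.ble (Nat.add (Nat.mul (Nat.sub s b) y2) (Nat.mul (nat_lit 5040) ρlo))
            (Nat.add (Nat.mul (Nat.sub b s) y1) (nat_lit 1295280)))
           (loopR chk P u1 u2 w1 w2 y1 y2 gm bm dm am two Kc a b t s (nat_lit 200) ρlo (Nat.shiftRight n (nat_lit 10))
             (fun n' => ih (Nat.succ s) n' k)) false) (Nat.land n (nat_lit 1023)))) fuel

/-- a test node: 1 bit (1 = two-dimensional test), 6 bits `a`, 6 bits `b`, 10 bits `t + 256` -/
def test (chk : Nat → Nat → (Nat → Bool) → Bool) (P u1 u2 w1 w2 y1 y2 gm bm dm am n : Nat) (k : Nat → Bool) : Bool :=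
  fz (Nat.land (Nat.shiftRight n (nat_lit 1)) (nat_lit 63)) fun a =>
  fz (Nat.land (Nat.shiftRight n (nat_lit 7)) (nat_lit 63)) fun b =>
  fz (Nat.land (Nat.shiftRight n (nat_lit 13)) (nat_lit 1023)) fun t =>
  iteb (Nat.ble (nat_lit 193) t) (iteb (Nat.ble t (nat_lit 319))
    (iteb (Nat.beq (Nat.land n (nat_lit 1)) (nat_lit 1))
      (iteb (Nat.beq a (nat_lit 0)) (iteb (Nat.beq b (nat_lit 0))
        (loopS chk P u1 u2 w1 w2 y1 y2 gm bm dm am true K1t a b t (nat_lit 64) (nat_lit 0)
          (Nat.shiftRight n (nat_lit 23)) k)
        false) false)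
      (loopS chk P u1 u2 w1 w2 y1 y2 gm bm dm am false K1 a b t (nat_lit 64) (nat_lit 0)
          (Nat.shiftRight n (nat_lit 23)) k))
    false) false

/-- first child of a box split: `5040 * X_i ≤ m * X_j` -/
@[reducible] def eLe (m i j : Nat) : Nat := Nat.sub (Nat.add bias8 (sh (nat_lit 5040) i)) (sh m j)
/-- second child of a box split: `m * X_j ≤ 5040 * X_i` -/
@[reducible] def eGe (m i j : Nat) : Nat := Nat.sub (Nat.add bias8 (sh m j)) (sh (nat_lit 5040) i)

/-- type of a full checker -/
abbrev Chk : Type := Nat → Nat → Nat → Nat → Nat → Nat → Nat → Nat → Nat → Nat → Nat → Nat → (Nat → Bool) → Bool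

/-- a box split: 3 bits of kind, 18 bits of `m`; kinds 0 `b1/al`, 1 `g1/al`, 2 `g2/be`, 3 `g3/D`,
4 `be/D`, 5 `al/D`, 6 `D` -/
def boxsplit (chk : Chk) (P u1 u2 w1 w2 y1 y2 gm bm dm am n : Nat) (c : Nat → Bool) : Bool :=
  fz (Nat.land (Nat.shiftRight n (nat_lit 3)) (nat_lit 262143)) fun m =>
  (fun n' =>
  fz (Nat.land n (nat_lit 7)) fun k =>
  iteb (Nat.beq k 0) (chk (push P (eLe m 0 3)) u1 m w1 w2 y1 y2 gm bm dm am n' fun n' =>
      chk (push P (eGe m 0 3)) m u2 w1 w2 y1 y2 gm bm dm am n' c)
  (iteb (Nat.beq k 1) (chk (push P (eLe m 1 3)) u1 u2 w1 m y1 y2 gm bm dm am n' fun n' =>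
      chk (push P (eGe m 1 3)) u1 u2 m w2 y1 y2 gm bm dm am n' c)
  (iteb (Nat.beq k 2) (chk (push P (eLe m 2 4)) u1 u2 w1 w2 y1 m gm bm dm am n' fun n' =>
      chk (push P (eGe m 2 4)) u1 u2 w1 w2 m y2 gm bm dm am n' c)
  (iteb (Nat.beq k 3) (chk (push P (eLe m 5 6)) u1 u2 w1 w2 y1 y2 gm bm dm am n' fun n' =>
      chk (push P (eGe m 5 6)) u1 u2 w1 w2 y1 y2 m bm dm am n' c)
  (iteb (Nat.beq k 4) (chk (push P (eLe m 4 6)) u1 u2 w1 w2 y1 y2 gm bm dm am n' fun n' =>
      chk (push P (eGe m 4 6)) u1 u2 w1 w2 y1 y2 gm m dm am n' c)
  (iteb (Nat.beq k 5) (chk (push P (eLe m 3 6)) u1 u2 w1 w2 y1 y2 gm bm dm am n' fun n' =>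
      chk (push P (eGe m 3 6)) u1 u2 w1 w2 y1 y2 gm bm dm m n' c)
  (iteb (Nat.beq k 6) (chk (push P (eLe m 6 7)) u1 u2 w1 w2 y1 y2 gm bm dm am n' fun n' =>
      chk (push P (eGe m 6 7)) u1 u2 w1 w2 y1 y2 gm bm m am n' c) false))))))) (Nat.shiftRight n (nat_lit 21))

/-- a split by the sign of a form `∑_{i<5} c_i X_i`, `c_i + 256` given by 9 bits each -/
def linsplit (chk : Nat → Nat → (Nat → Bool) → Bool) (P n : Nat) (c : Nat → Bool) : Bool :=
  fz (Nat.add (Nat.add (Nat.add (Nat.land n 511) (sh (Nat.land (Nat.shiftRight n 9) 511) 1))
      (Nat.add (sh (Nat.land (Nat.shiftRight n 18) 511) 2) (sh (Nat.land (Nat.shiftRight n 27) 511) 3)))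
      (sh (Nat.land (Nat.shiftRight n 36) 511) 4)) fun f =>
  chk (push P (Nat.add KL f)) (Nat.shiftRight n 45) fun n' =>
    chk (push P (Nat.sub KR f)) n' c

/-- the special leaves: five path indices of 7 bits each -/
def special (P c0 c1 c2 c3 c4 n : Nat) (k : Nat → Bool) : Bool :=
  iteb (Nat.beq (slot P (Nat.land n 127)) c0)
  (iteb (Nat.beq (slot P (Nat.land (Nat.shiftRight n 7) 127)) c1)
  (iteb (Nat.beq (slot P (Nat.land (Nat.shiftRight n 14) 127)) c2)
  (iteb (Nat.beq (slot P (Nat.land (Nat.shiftRight n 21) 127)) c3)
  (iteb (Nat.beq (slot P (Nat.land (Nat.shiftRight n 28) 127)) c4)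
    (k (Nat.shiftRight n 35)) false) false) false) false) false

def s10 : Nat := nat_lit 2392032866531905486790942578809394338145621001016140918826481859219483672216802158935990511805986484108022355467550829980634022112375094433852359512872804692898970805319883492657524520789968763224066
def s11 : Nat := nat_lit 2392032866531905486790942578809394338145621001016140918826481859219483672216802158935990511805986484112294329539392650145076689257002250076787055602560046509233924631701243129027414958259238213255165
def s12 : Nat := nat_lit 2392032866531905486790942578809394338145621001016140918826481859219483672216802158935990511805986484108022355467550829980634022112375094433858636614608191373662126030009249282146718573763642970865663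
def s13 : Nat := nat_lit 2392032866531905486790942578809394338145621001016140918826481859219483672216802158935990511805986484112294329539392650145192481346239566272204349485833347736323018544576755088187306812215255540170751
def s14 : Nat := nat_lit 2392032866531905486790942578809394338145621001016140918826481859219483672216802158935990511805986484110158342503471740062797459640070014157614199166947468327903648515600950695238797186104926684053506
def s20 : Nat := nat_lit 2392032866531905486790942578809394338145621001016140918826481859219483672216802158935990511805986484114430316575313560227355918873934485995959912038172624690564200747801535562815958943437254904250366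
def s21 : Nat := nat_lit 2392032866531905486790942578809394338145621001016140918826481859219483672216802158935990511805986484108022355467550829980518230023137778238441342731334890146573032117133737322986789826319478224846849
def s22 : Nat := nat_lit 2392032866531905486790942578809394338145621001016140918826481859219483672216802158935990511805986484110158342503471740062797459640070014157607922065212081647139812726177743028822750170892683778195454
def s23 : Nat := nat_lit 2392032866531905486790942578809394338145621001016140918826481859219483672216802158935990511805986484108022355467550829980634022112375094433858636614608191373662806594743091159073608429490359088185347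
def s24 : Nat := nat_lit 2392032866531905486790942578809394338145621001016140918826481859219483672216802158935990511805986484108022355467550829980749814201612410629275930497881492600751560225251682179770073802327092065992705

/-- collect `k` slots (7 bits each), the first one read ends up deepest; then continue -/
def collect (P : Nat) (cont : Nat → Nat → Bool) (k : Nat) : Nat → Nat → Bool :=
  Nat.rec (motive := fun _ => Nat → Nat → Bool) (fun P' n => cont P' n)
    (fun _ ih P' n => ih (push P' (slot P (Nat.land n 127))) (Nat.shiftRight n 7)) k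

/-- run `f` on the components of a packed state (ten box numbers of 64 bits, then the path) -/
@[reducible] def unst (x : Nat) (f : Nat → Nat → Nat → Nat → Nat → Nat → Nat → Nat → Nat → Nat → Nat → Bool) : Bool :=
  f (Nat.shiftRight x (nat_lit 640)) (dg x (nat_lit 576))
    (dg x (nat_lit 512)) (dg x (nat_lit 448)) (dg x (nat_lit 384)) (dg x (nat_lit 320))
    (dg x (nat_lit 256)) (dg x (nat_lit 192)) (dg x (nat_lit 128)) (dg x (nat_lit 64))
    (Nat.land x (nat_lit 18446744073709551615))

/-- reference to a known state: 12 bits of number, 7 bits of count, then the indices.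
`known k` is a packed state. -/
def refk (known : Nat → Nat) (P u1 u2 w1 w2 y1 y2 gm bm dm am n : Nat) (k : Nat → Bool) : Bool :=
  collect P (fun P' n' => fz (known (Nat.land n (nat_lit 4095))) fun x =>
    unst x fun Q a1 a2 a3 a4 a5 a6 a7 a8 a9 a10 =>
      iteb (Nat.beq x 0) false
      (iteb (Nat.beq P' Q) (iteb (Nat.beq u1 a1) (iteb (Nat.beq u2 a2) (iteb (Nat.beq w1 a3)
      (iteb (Nat.beq w2 a4) (iteb (Nat.beq y1 a5) (iteb (Nat.beq y2 a6) (iteb (Nat.beq gm a7)
      (iteb (Nat.beq bm a8) (iteb (Nat.beq dm a9) (iteb (Nat.beq am a10) (k n') false) false) false) false) false)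
        false) false) false) false) false) false))
    (Nat.land (Nat.shiftRight n (nat_lit 12)) (nat_lit 127)) 0 (Nat.shiftRight n (nat_lit 19))

/-- one step -/
def step (known : Nat → Nat) (chk : Chk) (P u1 u2 w1 w2 y1 y2 gm bm dm am n : Nat) (k : Nat → Bool) : Bool :=
  fz P fun P => fz n fun n => (fun tag n' =>
  iteb (Nat.beq tag 5) (test (fun P n k => chk P u1 u2 w1 w2 y1 y2 gm bm dm am n k) P u1 u2 w1 w2 y1 y2 gm bm dm am n' k)
  (iteb (Nat.beq tag 1) (leaf testS 0 P n k)
  (iteb (Nat.beq tag 3) (boxsplit chk P u1 u2 w1 w2 y1 y2 gm bm dm am n' k)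
  (iteb (Nat.beq tag 0) (leaf testA 0 P n k)
  (iteb (Nat.beq tag 6) (refk known P u1 u2 w1 w2 y1 y2 gm bm dm am n' k)
  (iteb (Nat.beq tag 4) (linsplit (fun P n k => chk P u1 u2 w1 w2 y1 y2 gm bm dm am n k) P n' k)
  (iteb (Nat.beq tag 2) (special P s10 s11 s12 s13 s14 n' k)
  (special P s20 s21 s22 s23 s24 n' k)))))))) (Nat.land n (nat_lit 7)) (Nat.shiftRight n (nat_lit 3))

/-- the checker -/
def check (known : Nat → Nat) (fuel : Nat) : Chk :=
  Nat.rec (motive := fun _ => Chk) (fun _ _ _ _ _ _ _ _ _ _ _ _ _ => false) (fun _ ih => step known ih) fuel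

/-- run the checker on a packed state -/
def checkSt (known : Nat → Nat) (fuel x n : Nat) : Bool :=
  unst x fun P u1 u2 w1 w2 y1 y2 gm bm dm am =>
    check known fuel P u1 u2 w1 w2 y1 y2 gm bm dm am n (fun _ => true)

/-- the entry `k` of a list (`0` outside) -/
def nth (L : List Nat) : Nat → Nat :=
  List.rec (motive := fun _ => Nat → Nat) (fun _ => 0)
    (fun a _ ih k => Nat.rec (motive := fun _ => Nat) a (fun m _ => ih m) k) L

/-- the entry `k` of a list of lists (empty outside) -/
def nthL (L : List (List Nat)) : Nat → List Nat :=
  List.rec (motive := fun _ => Nat → List Nat) (fun _ => [])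
    (fun a _ ih k => Nat.rec (motive := fun _ => List Nat) a (fun m _ => ih m) k) L

/-- a table with `N` entries in rows of 32 -/
def tab (L : List (List Nat)) (N k : Nat) : Nat :=
  ite' (Nat.ble N k) 0 (nth (nthL L (Nat.shiftRight k (nat_lit 5))) (Nat.land k (nat_lit 31)))

/-- the check of the state number `k` of a table of states: it may refer to later states only -/
def chk1 (st : Nat → Nat) (k c : Nat) : Bool :=
  checkSt (fun j => st (Nat.add (Nat.succ k) j)) 300 (st k) c

end

end Pool.Agent.H337_stamp.Check
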