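import Pool.Agent.H337_stamp.Stamp

/-!
The data of the limit problem for `k = 4` (problem MP_da66b4_nt, question Q2).
-/

namespace Pool.Agent.H337_stamp

/-- The seven real parameters of the limit problem. -/
structure Par where
  al : ℝ
  b1 : ℝ
  be : ℝ
  g1 : ℝ
  g2 : ℝ
  g3 : ℝ
  D : ℝ

/-- The objective. -/
def Par.prod (p : Par) : ℝ := (1 - p.D) * p.al * p.be * p.g3

/-- The constraints coming from a basis (`ε = K/h`, `τ = 1/h`). -/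
structure Conf (M : ℕ) (ε τ : ℝ) (p : Par) : Prop where
  tau_pos : 0 < τ
  eps_nonneg : 0 ≤ ε
  al_pos : 0 < p.al
  be_pos : 0 < p.be
  g3_pos : 0 < p.g3
  b1_nonneg : 0 ≤ p.b1
  b1_lt : p.b1 + τ ≤ p.al
  g1_nonneg : 0 ≤ p.g1
  g1_lt : p.g1 + τ ≤ p.al
  g2_nonneg : 0 ≤ p.g2
  g2_le : p.g2 ≤ p.be
  sum_le : p.al + p.be ≤ 1 + ε
  D_le : p.D ≤ 1
  test3 : ∀ a b : ℕ, ∀ t : ℤ, a ≤ M → b ≤ M → |t| ≤ M → ∃ s : ℕ, ∃ r v : ℤ,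
    τ ≤ ((s : ℝ) - a) * p.g1 + r * p.b1 + v * p.al ∧
    ((s : ℝ) - a) * p.g1 + r * p.b1 + v * p.al ≤ p.al ∧
    τ ≤ ((s : ℝ) - b) * p.g2 + ((r : ℝ) + t) * p.be ∧
    (((s : ℝ) - a) * p.g1 + r * p.b1 + v * p.al) + (((s : ℝ) - b) * p.g2 + ((r : ℝ) + t) * p.be)
      + ((s : ℝ) + 1) * p.g3 ≤ p.D + ε
  test2 : ∀ t : ℤ, |t| ≤ M → ∃ r v : ℤ,
    τ ≤ r * p.b1 + v * p.al ∧ r * p.b1 + v * p.al ≤ p.al ∧ τ ≤ ((r : ℝ) + t) * p.be ∧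
    (r * p.b1 + v * p.al) + ((r : ℝ) + t) * p.be + p.g3 ≤ 1 + ε

/-- First special region. -/
def Special1 (ε : ℝ) (p : Par) : Prop :=
  2 * p.b1 + 2 * p.be - p.g1 + p.g3 ≤ p.D + ε ∧
  -3 * p.b1 - p.be + 2 * p.g1 + 2 * p.g2 + 3 * p.g3 ≤ p.D + ε ∧
  p.al - p.b1 + 2 * p.be - 2 * p.g2 + p.g3 ≤ p.D + ε ∧
  -p.al - p.b1 + 2 * p.g1 + p.g2 + 3 * p.g3 ≤ p.D + ε ∧
  p.al + 2 * p.b1 - 2 * p.g1 + p.g2 + 2 * p.g3 ≤ p.D + ε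

/-- Second special region. -/
def Special2 (ε : ℝ) (p : Par) : Prop :=
  -p.al - 2 * p.b1 - 2 * p.be + 2 * p.g1 + 3 * p.g2 + 4 * p.g3 ≤ p.D + ε ∧
  2 * p.al + p.b1 + p.be - 2 * p.g1 - p.g2 + p.g3 ≤ p.D + ε ∧
  -2 * p.b1 + p.g1 + p.g2 + 2 * p.g3 ≤ p.D + ε ∧
  p.al + 3 * p.b1 + 2 * p.be - 2 * p.g1 + p.g3 ≤ p.D + ε ∧
  p.b1 + 3 * p.be - 2 * p.g2 + p.g3 ≤ p.D + ε

/-- The critical parameter `b* = 0.24392976...`. -/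
structure IsRoot (b : ℝ) : Prop where
  lo : 2439 / 10000 < b
  hi : b < 2440 / 10000
  root : 96 * b ^ 3 - 105 * b ^ 2 + 24 * b - 1 = 0

/-- `lim n(h,4)/h^4`, as a function of the critical parameter: `(1-3b)(1-b)b(8b-1)/6`. -/
noncomputable def cval (b : ℝ) : ℝ := (24 * b ^ 4 - 35 * b ^ 3 + 12 * b ^ 2 - b) / 6

end Pool.Agent.H337_stamp
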