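import Pool.Agent.H337_stamp.SV

/-! Soundness of the checker: the contradictions at the leaves. -/

set_option autoImplicit false

namespace Pool.Agent.H337_stamp.Check

theorem amgm4 (x y z w : ℝ) (hx : 0 ≤ x) (hy : 0 ≤ y) (hz : 0 ≤ z) (hw : 0 ≤ w) :
    256 * (x * y * (z * w)) ≤ (x + y + z + w) ^ 4 := by
  have h1 : 4 * (x * y) ≤ (x + y) ^ 2 := by nlinarith [sq_nonneg (x - y)]
  have h2 : 4 * (z * w) ≤ (z + w) ^ 2 := by nlinarith [sq_nonneg (z - w)]
  have h3 : (4 * (x * y)) * (4 * (z * w)) ≤ (x + y) ^ 2 * (z + w) ^ 2 :=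
    mul_le_mul h1 h2 (by positivity) (by positivity)
  have h4 : 4 * ((x + y) * (z + w)) ≤ ((x + y) + (z + w)) ^ 2 := by
    nlinarith [sq_nonneg ((x + y) - (z + w))]
  have h5 : (4 * ((x + y) * (z + w))) ^ 2 ≤ (((x + y) + (z + w)) ^ 2) ^ 2 :=
    pow_le_pow_left₀ (by positivity) h4 2
  have e1 : (4 * ((x + y) * (z + w))) ^ 2 = 16 * ((x + y) ^ 2 * (z + w) ^ 2) := by ring
  have e2 : (((x + y) + (z + w)) ^ 2) ^ 2 = (x + y + z + w) ^ 4 := by ring
  rw [e1, e2] at h5
  linarith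

theorem ctx_prod {ε τ : ℝ} {p : Par} (h : Ctx ε τ p) :
    251 / 32000 < (1 - p.D) * p.al * p.be * p.g3 := by
  have hε0 := h.conf.eps_nonneg
  have hp := h.hprod
  have h1 : (1 : ℝ) ≤ (1 + 18446744073709551616 * ε) ^ 4 := one_le_pow₀ (by linarith)
  have e : p.prod = (1 - p.D) * p.al * p.be * p.g3 := rfl
  rw [← e]; linarith

theorem ctx_al {ε τ : ℝ} {p : Par} (h : Ctx ε τ p) : 1 / 200 ≤ p.al := by
  have hε := ctx_eps h
  have hε0 := h.conf.eps_nonneg
  have hg := ctx_g3 h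
  have hg0 := h.conf.g3_pos
  have hal := h.conf.al_pos
  have hbe := h.conf.be_pos
  have hsum := h.conf.sum_le
  have hD := h.conf.D_le
  have hD0 := ctx_D h
  have hp := ctx_prod h
  by_contra hc
  push Not at hc
  have h1 : (1 - p.D) * p.al ≤ 1 * (1 / 200) := mul_le_mul (by linarith) hc.le hal.le (by norm_num)
  have h2 : (1 - p.D) * p.al * p.be ≤ 1 * (1 / 200) * (1 + 1 / 18446744073709551616) :=
    mul_le_mul h1 (by linarith) hbe.le (by norm_num)
  have h3 : (1 - p.D) * p.al * p.be * p.g3 ≤ 1 * (1 / 200) * (1 + 1 / 18446744073709551616) *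
      (1 + 1 / 18446744073709551616) :=
    mul_le_mul h2 (by linarith) hg0.le (by norm_num)
  norm_num at h3
  linarith

theorem ctx_be {ε τ : ℝ} {p : Par} (h : Ctx ε τ p) : 1 / 200 ≤ p.be := by
  have hε := ctx_eps h
  have hε0 := h.conf.eps_nonneg
  have hg := ctx_g3 h
  have hg0 := h.conf.g3_pos
  have hal := h.conf.al_pos
  have hbe := h.conf.be_pos
  have hsum := h.conf.sum_le
  have hD := h.conf.D_le
  have hD0 := ctx_D h
  have hp := ctx_prod h
  by_contra hc
  push Not at hc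
  have h1 : (1 - p.D) * p.al ≤ 1 * (1 + 1 / 18446744073709551616) :=
    mul_le_mul (by linarith) (by linarith) hal.le (by norm_num)
  have h2 : (1 - p.D) * p.al * p.be ≤ 1 * (1 + 1 / 18446744073709551616) * (1 / 200) :=
    mul_le_mul h1 hc.le hbe.le (by norm_num)
  have h3 : (1 - p.D) * p.al * p.be * p.g3 ≤ 1 * (1 + 1 / 18446744073709551616) * (1 / 200) *
      (1 + 1 / 18446744073709551616) :=
    mul_le_mul h2 (by linarith) hg0.le (by norm_num)
  norm_num at h3
  linarith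

theorem ctx_g3' {ε τ : ℝ} {p : Par} (h : Ctx ε τ p) : 1 / 200 ≤ p.g3 := by
  have hε := ctx_eps h
  have hε0 := h.conf.eps_nonneg
  have hg0 := h.conf.g3_pos
  have hal := h.conf.al_pos
  have hbe := h.conf.be_pos
  have hsum := h.conf.sum_le
  have hD := h.conf.D_le
  have hD0 := ctx_D h
  have hp := ctx_prod h
  by_contra hc
  push Not at hc
  have h1 : (1 - p.D) * p.al ≤ 1 * (1 + 1 / 18446744073709551616) :=
    mul_le_mul (by linarith) (by linarith) hal.le (by norm_num)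
  have h2 : (1 - p.D) * p.al * p.be ≤ 1 * (1 + 1 / 18446744073709551616) *
      (1 + 1 / 18446744073709551616) :=
    mul_le_mul h1 (by linarith) hbe.le (by norm_num)
  have h3 : (1 - p.D) * p.al * p.be * p.g3 ≤ 1 * (1 + 1 / 18446744073709551616) *
      (1 + 1 / 18446744073709551616) * (1 / 200) :=
    mul_le_mul h2 hc.le hg0.le (by norm_num)
  norm_num at h3
  linarith

theorem leafReal : LeafReal where
  am := by
    intro ε τ p hctx d0 d1 d2 d3 d4 d5 d6 d7 κ σ T hκ hI h0 h1 h2 hL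
    have hε0 := hctx.conf.eps_nonneg
    have hτ := hctx.conf.tau_pos
    have hal := hctx.conf.al_pos
    have hbe := hctx.conf.be_pos
    have hg3 := hctx.conf.g3_pos
    have hD := hctx.conf.D_le
    have hp := hctx.hprod
    have hpos : 0 < (T - d6) * (d3 - T) * ((d4 - T) * (d5 - T)) := by
      have : 0 < (T + T - (d6 + d7) + 1) ^ 4 := by positivity
      omega
    have p6 : 0 < T - d6 := by
      rcases Nat.eq_zero_or_pos (T - d6) with h | h
      · rw [h] at hpos; simp at hpos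
      · exact h
    have p3 : 0 < d3 - T := by
      rcases Nat.eq_zero_or_pos (d3 - T) with h | h
      · rw [h] at hpos; simp at hpos
      · exact h
    have p4 : 0 < d4 - T := by
      rcases Nat.eq_zero_or_pos (d4 - T) with h | h
      · rw [h] at hpos; simp at hpos
      · exact h
    have p5 : 0 < d5 - T := by
      rcases Nat.eq_zero_or_pos (d5 - T) with h | h
      · rw [h] at hpos; simp at hpos
      · exact h
    obtain ⟨n6, hn6⟩ : ∃ n6 : ℕ, n6 = T - d6 := ⟨_, rfl⟩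
    obtain ⟨v3, hv3⟩ : ∃ v3 : ℕ, v3 = d3 - T := ⟨_, rfl⟩
    obtain ⟨v4, hv4⟩ : ∃ v4 : ℕ, v4 = d4 - T := ⟨_, rfl⟩
    obtain ⟨v5, hv5⟩ : ∃ v5 : ℕ, v5 = d5 - T := ⟨_, rfl⟩
    obtain ⟨R, hR⟩ : ∃ R : ℕ, R = T + T - (d6 + d7) := ⟨_, rfl⟩
    rw [← hn6, ← hv3, ← hv4, ← hv5, ← hR] at hL
    have hLr : (125 : ℝ) * ((R : ℝ) + 1) ^ 4 ≤ 251 * ((n6 : ℝ) * v3 * (v4 * v5)) := by
      exact_mod_cast hL
    have e6 : (n6 : ℝ) = (T : ℝ) - d6 := by rw [hn6, Nat.cast_sub (by omega)]
    have e3 : (v3 : ℝ) = (d3 : ℝ) - T := by rw [hv3, Nat.cast_sub (by omega)]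
    have e4 : (v4 : ℝ) = (d4 : ℝ) - T := by rw [hv4, Nat.cast_sub (by omega)]
    have e5 : (v5 : ℝ) = (d5 : ℝ) - T := by rw [hv5, Nat.cast_sub (by omega)]
    have eR : (T : ℝ) + T - (d6 + d7) ≤ R := by
      have : T + T ≤ R + (d6 + d7) := by omega
      have : (T : ℝ) + T ≤ R + (d6 + d7) := by exact_mod_cast this
      linarith
    have hn6p : (0 : ℝ) < n6 := by rw [hn6]; exact_mod_cast p6
    have hv3p : (0 : ℝ) < v3 := by rw [hv3]; exact_mod_cast p3
    have hv4p : (0 : ℝ) < v4 := by rw [hv4]; exact_mod_cast p4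
    have hv5p : (0 : ℝ) < v5 := by rw [hv5]; exact_mod_cast p5
    have hκ' : (κ : ℝ) ≤ 36028797018963968 := by
      have : κ ≤ 36028797018963968 := by norm_num at hκ; exact hκ
      exact_mod_cast this
    have hκε : (κ : ℝ) * ε ≤ 36028797018963968 * ε := mul_le_mul_of_nonneg_right hκ' hε0
    have q0 : 0 ≤ ((d0 : ℝ) - T) * p.b1 := mul_nonneg (by
      have : (T : ℝ) ≤ d0 := by exact_mod_cast h0
      linarith) hctx.conf.b1_nonneg
    have q1 : 0 ≤ ((d1 : ℝ) - T) * p.g1 := mul_nonneg (by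
      have : (T : ℝ) ≤ d1 := by exact_mod_cast h1
      linarith) hctx.conf.g1_nonneg
    have q2 : 0 ≤ ((d2 : ℝ) - T) * p.g2 := mul_nonneg (by
      have : (T : ℝ) ≤ d2 := by exact_mod_cast h2
      linarith) hctx.conf.g2_nonneg
    have qσ : 0 ≤ (σ : ℝ) * τ := mul_nonneg (Nat.cast_nonneg _) hτ.le
    unfold Ineq at hI
    rw [← e3, ← e4, ← e5] at hI
    have e6' : (d6 : ℝ) - T = - n6 := by rw [e6]; ring
    rw [e6'] at hI
    obtain ⟨E, hE⟩ : ∃ E : ℝ, E = 1 + 18446744073709551616 * ε := ⟨_, rfl⟩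
    have hE1 : 1 ≤ E := by rw [hE]; linarith
    have hR0 : (0 : ℝ) ≤ R := Nat.cast_nonneg _
    have hsum : (v3 : ℝ) * p.al + v4 * p.be + v5 * p.g3 + n6 * (1 - p.D) ≤ ((R : ℝ) + 1) * E := by
      have h3 : (v3 : ℝ) * p.al + v4 * p.be + v5 * p.g3 + n6 * (1 - p.D) ≤
          R + 36028797018963968 * ε := by
        linarith
      have h4 : 0 ≤ (R : ℝ) * ε := mul_nonneg hR0 hε0
      rw [hE]
      linarith
    have hD1 : 0 ≤ 1 - p.D := by linarith
    have ham := amgm4 ((v3 : ℝ) * p.al) (v4 * p.be) (v5 * p.g3) (n6 * (1 - p.D)) (by positivity)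
      (by positivity) (by positivity) (by positivity)
    have h5 : ((v3 : ℝ) * p.al + v4 * p.be + v5 * p.g3 + n6 * (1 - p.D)) ^ 4 ≤
        (((R : ℝ) + 1) * E) ^ 4 := pow_le_pow_left₀ (by positivity) hsum 4
    have h6 : 256 * ((n6 : ℝ) * v3 * (v4 * v5)) * p.prod ≤ ((R : ℝ) + 1) ^ 4 * E ^ 4 := by
      rw [← mul_pow]
      refine le_trans (le_of_eq ?_) (ham.trans h5)
      unfold Par.prod; ring
    have hV : (0 : ℝ) < (n6 : ℝ) * v3 * (v4 * v5) := by positivity
    have h7 : 256 * ((n6 : ℝ) * v3 * (v4 * v5)) * (251 / 32000 * E ^ 4) <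
        256 * ((n6 : ℝ) * v3 * (v4 * v5)) * p.prod := by
      apply mul_lt_mul_of_pos_left _ (by positivity)
      rw [hE]; exact hp
    have h8 : ((R : ℝ) + 1) ^ 4 * E ^ 4 ≤ 251 / 125 * ((n6 : ℝ) * v3 * (v4 * v5)) * E ^ 4 := by
      apply mul_le_mul_of_nonneg_right _ (by positivity)
      linarith
    linarith
  inf := by
    intro ε τ p hctx d0 d1 d2 d3 d4 d5 d6 d7 κ σ T hκ hI h0 h1 h2 h3 h4 h5 h6 h7 hor
    have hε0 := hctx.conf.eps_nonneg
    have hε := ctx_eps hctx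
    have hτ := hctx.conf.tau_pos
    have hal := ctx_al hctx
    have hbe := ctx_be hctx
    have hg3 := ctx_g3' hctx
    have hD := ctx_D hctx
    have key : ∀ (d : ℕ) (x : ℝ), T ≤ d → 0 ≤ x → 0 ≤ ((d : ℝ) - T) * x := by
      intro d x hd hx
      apply mul_nonneg _ hx
      have : (T : ℝ) ≤ d := by exact_mod_cast hd
      linarith
    have key2 : ∀ (d : ℕ) (x : ℝ), T < d → 1 / 200 ≤ x → 1 / 200 ≤ ((d : ℝ) - T) * x := by
      intro d x hd hx
      have h : T + 1 ≤ d := hd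
      have : (T : ℝ) + 1 ≤ d := by exact_mod_cast h
      nlinarith
    have hκ' : (κ : ℝ) ≤ 36028797018963968 := by
      have : κ ≤ 36028797018963968 := by norm_num at hκ; exact hκ
      exact_mod_cast this
    have hκε : (κ : ℝ) * ε ≤ 1 / 512 := by
      calc (κ : ℝ) * ε ≤ 36028797018963968 * (1 / 18446744073709551616) :=
            mul_le_mul hκ' hε hε0 (by norm_num)
        _ = 1 / 512 := by norm_num
    have q0 := key d0 _ h0 hctx.conf.b1_nonneg
    have q1 := key d1 _ h1 hctx.conf.g1_nonneg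
    have q2 := key d2 _ h2 hctx.conf.g2_nonneg
    have q3 := key d3 p.al h3 (by linarith)
    have q4 := key d4 p.be h4 (by linarith)
    have q5 := key d5 p.g3 h5 (by linarith)
    have q6 := key d6 p.D h6 (by linarith)
    have q7 := key d7 1 h7 (by norm_num)
    rw [mul_one] at q7
    have qσ : 0 ≤ (σ : ℝ) * τ := mul_nonneg (Nat.cast_nonneg _) hτ.le
    unfold Ineq at hI
    rcases hor with (h | h | h | h | h) | ⟨h, h'⟩
    · have := key2 d3 p.al h hal
      linarith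
    · have := key2 d4 p.be h hbe
      linarith
    · have := key2 d5 p.g3 h hg3
      linarith
    · have := key2 d6 p.D h (by linarith)
      linarith
    · have := key2 d7 1 h (by norm_num)
      linarith
    · rw [h, Nat.cast_zero, zero_mul] at hI
      have : (1 : ℝ) ≤ σ := by exact_mod_cast h'
      have h8 : 1 * τ ≤ (σ : ℝ) * τ := mul_le_mul_of_nonneg_right this hτ.le
      linarith

end Pool.Agent.H337_stamp.Check
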