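import Pool.Agent.H337_stamp.SP

/-! Soundness of the checker: the constraints of candidates and of splits. -/

set_option autoImplicit false
set_option exponentiation.threshold 1000

namespace Pool.Agent.H337_stamp.Check

theorem bias8_eq : bias8 = 2392032866531905486790942578809394338145620987608332988883884759645458674010956031496026697409987585594603964810009503629540178696322058429447378734712639692256548985826766081736332943868233110781952 := rfl

theorem bias8_pk : bias8 = pk 524288 524288 524288 524288 524288 524288 524288 524288 0 0 524288 := by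
  rw [bias8_eq]; unfold pk; norm_num

theorem K1_eq : K1 = 2392032866531905486790942578809394338145621001016140918826481859219483672216802158935990511805986484105886368431629919868364641382977963898361402814015681421179198775489475395523296483701297796087552 := rfl

theorem K1_pk : K1 = pk 524032 524032 524032 524032 524032 524288 524287 524288 1 0 524288 := by
  rw [K1_eq]; unfold pk; norm_num

theorem K1t_eq : K1t = 2392032866531905486790942578809394338145621001016140918826481858492644947921195268426068710114376428964524047844455473391954181472804122452911772892070352478912843826141220044142034190973324157779712 := rfl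

theorem K1t_pk : K1t = pk 524032 524032 524032 524032 524032 524288 524288 524287 1 0 524288 := by
  rw [K1t_eq]; unfold pk; norm_num

theorem K2_eq : K2 = 2392032866531905486790942826139795811250155048110854008531074794776807775222795945559082790307212692126471135126410564872585168293993484447193656130336664274549721045714083786156426220740667739996416 := rfl

theorem K2_pk : K2 = pk 524544 524544 524288 524544 524288 524288 524288 524288 0 1 524288 := by
  rw [K2_eq]; unfold pk; norm_num

theorem K3_eq : K3 = 2392032866531905486790942826139795811250155048110854008531074794776807775222795945559082790307212692126471135126410564902227943138746430474020890248301778409531987313708665824377266266003299109437440 := rfl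

theorem K3_pk : K3 = pk 524288 524288 524544 524288 524544 524288 524288 524288 0 1 524288 := by
  rw [K3_eq]; unfold pk; norm_num

theorem K4_eq : K4 = 2392032866531905486790942578809394338145620987608332988883884759645458674010956031496026697409987585594603964810009503629540178696322058427834163588718262735950751104062395812793305228158106595753728 := rfl

theorem K4_pk : K4 = pk 524032 524032 524288 524031 524288 524288 524288 524288 0 0 524288 := by
  rw [K4_eq]; unfold pk; norm_num

theorem KL_eq : KL = 2392032866531905486790942578809394338145620987608332988883884759645458674010956031496026697409987585594603964810009503599897403851569112399406268528229545006190358533149858838461642178074276780310272 := rfl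

theorem KL_pk : KL = pk 524032 524032 524032 524032 524032 524288 524288 524288 0 0 524288 := by
  rw [KL_eq]; unfold pk; norm_num

theorem KR_eq : KR = 2392032866531905486790942578809394338145620987608332988883884759645458674010956031496026697409987585594603964810009503659182953541075004459488488941195734378322739438503673325011023709662189441253632 := rfl

theorem KR_pk : KR = pk 524544 524544 524544 524544 524544 524288 524288 524288 0 0 524288 := by
  rw [KR_eq]; unfold pk; norm_num

theorem s10_eq : s10 = 2392032866531905486790942578809394338145621001016140918826481859219483672216802158935990511805986484108022355467550829980634022112375094433852359512872804692898970805319883492657524520789968763224066 := rfl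

theorem s10_pk : s10 = pk 524290 524287 524288 524288 524290 524289 524287 524288 1 0 524288 := by
  rw [s10_eq]; unfold pk; norm_num

theorem s11_eq : s11 = 2392032866531905486790942578809394338145621001016140918826481859219483672216802158935990511805986484112294329539392650145076689257002250076787055602560046509233924631701243129027414958259238213255165 := rfl

theorem s11_pk : s11 = pk 524285 524290 524290 524288 524287 524291 524287 524288 1 0 524288 := by
  rw [s11_eq]; unfold pk; norm_num

theorem s12_eq : s12 = 2392032866531905486790942578809394338145621001016140918826481859219483672216802158935990511805986484108022355467550829980634022112375094433858636614608191373662126030009249282146718573763642970865663 := rfl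

theorem s12_pk : s12 = pk 524287 524288 524286 524289 524290 524289 524287 524288 1 0 524288 := by
  rw [s12_eq]; unfold pk; norm_num

theorem s13_eq : s13 = 2392032866531905486790942578809394338145621001016140918826481859219483672216802158935990511805986484112294329539392650145192481346239566272204349485833347736323018544576755088187306812215255540170751 := rfl

theorem s13_pk : s13 = pk 524287 524290 524289 524287 524288 524291 524287 524288 1 0 524288 := by
  rw [s13_eq]; unfold pk; norm_num

theorem s14_eq : s14 = 2392032866531905486790942578809394338145621001016140918826481859219483672216802158935990511805986484110158342503471740062797459640070014157614199166947468327903648515600950695238797186104926684053506 := rfl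

theorem s14_pk : s14 = pk 524290 524286 524289 524289 524288 524290 524287 524288 1 0 524288 := by
  rw [s14_eq]; unfold pk; norm_num

theorem s20_eq : s20 = 2392032866531905486790942578809394338145621001016140918826481859219483672216802158935990511805986484114430316575313560227355918873934485995959912038172624690564200747801535562815958943437254904250366 := rfl

theorem s20_pk : s20 = pk 524286 524290 524291 524287 524286 524292 524287 524288 1 0 524288 := by
  rw [s20_eq]; unfold pk; norm_num

theorem s21_eq : s21 = 2392032866531905486790942578809394338145621001016140918826481859219483672216802158935990511805986484108022355467550829980518230023137778238441342731334890146573032117133737322986789826319478224846849 := rfl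

theorem s21_pk : s21 = pk 524289 524286 524287 524290 524289 524289 524287 524288 1 0 524288 := by
  rw [s21_eq]; unfold pk; norm_num

theorem s22_eq : s22 = 2392032866531905486790942578809394338145621001016140918826481859219483672216802158935990511805986484110158342503471740062797459640070014157607922065212081647139812726177743028822750170892683778195454 := rfl

theorem s22_pk : s22 = pk 524286 524289 524289 524288 524288 524290 524287 524288 1 0 524288 := by
  rw [s22_eq]; unfold pk; norm_num

theorem s23_eq : s23 = 2392032866531905486790942578809394338145621001016140918826481859219483672216802158935990511805986484108022355467550829980634022112375094433858636614608191373662806594743091159073608429490359088185347 := rfl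

theorem s23_pk : s23 = pk 524291 524286 524288 524289 524290 524289 524287 524288 1 0 524288 := by
  rw [s23_eq]; unfold pk; norm_num

theorem s24_eq : s24 = 2392032866531905486790942578809394338145621001016140918826481859219483672216802158935990511805986484108022355467550829980749814201612410629275930497881492600751560225251682179770073802327092065992705 := rfl

theorem s24_pk : s24 = pk 524289 524288 524286 524288 524291 524289 524287 524288 1 0 524288 := by
  rw [s24_eq]; unfold pk; norm_num

theorem sh_0 (c : ℕ) : sh c 0 = c * 1 := by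
  rw [show sh c 0 = c <<< (64 * 0) from rfl, Nat.shiftLeft_eq]

theorem sh_1 (c : ℕ) : sh c 1 = c * 18446744073709551616 := by
  rw [show sh c 1 = c <<< (64 * 1) from rfl, Nat.shiftLeft_eq]

theorem sh_2 (c : ℕ) : sh c 2 = c * 340282366920938463463374607431768211456 := by
  rw [show sh c 2 = c <<< (64 * 2) from rfl, Nat.shiftLeft_eq]

theorem sh_3 (c : ℕ) : sh c 3 = c * 6277101735386680763835789423207666416102355444464034512896 := by
  rw [show sh c 3 = c <<< (64 * 3) from rfl, Nat.shiftLeft_eq]

theorem sh_4 (c : ℕ) : sh c 4 = c * 115792089237316195423570985008687907853269984665640564039457584007913129639936 := by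
  rw [show sh c 4 = c <<< (64 * 4) from rfl, Nat.shiftLeft_eq]

theorem sh_5 (c : ℕ) : sh c 5 = c * 2135987035920910082395021706169552114602704522356652769947041607822219725780640550022962086936576 := by
  rw [show sh c 5 = c <<< (64 * 5) from rfl, Nat.shiftLeft_eq]

theorem sh_6 (c : ℕ) : sh c 6 = c * 39402006196394479212279040100143613805079739270465446667948293404245721771497210611414266254884915640806627990306816 := by
  rw [show sh c 6 = c <<< (64 * 6) from rfl, Nat.shiftLeft_eq]

theorem sh_7 (c : ℕ) : sh c 7 = c * 726838724295606890549323807888004534353641360687318060281490199180639288113397923326191050713763565560762521606266177933534601628614656 := by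
  rw [show sh c 7 = c <<< (64 * 7) from rfl, Nat.shiftLeft_eq]

theorem shl (c : ℕ) : Nat.shiftLeft c 64 = c * 18446744073709551616 ∧ Nat.shiftLeft c 128 = c * 340282366920938463463374607431768211456 ∧
    Nat.shiftLeft c 192 = c * 6277101735386680763835789423207666416102355444464034512896 ∧ Nat.shiftLeft c 256 = c * 115792089237316195423570985008687907853269984665640564039457584007913129639936 ∧
    Nat.shiftLeft c 320 = c * 2135987035920910082395021706169552114602704522356652769947041607822219725780640550022962086936576 := by
  refine ⟨?_, ?_, ?_, ?_, ?_⟩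
  · rw [show Nat.shiftLeft c 64 = c <<< 64 from rfl, Nat.shiftLeft_eq]
  · rw [show Nat.shiftLeft c 128 = c <<< 128 from rfl, Nat.shiftLeft_eq]
  · rw [show Nat.shiftLeft c 192 = c <<< 192 from rfl, Nat.shiftLeft_eq]
  · rw [show Nat.shiftLeft c 256 = c <<< 256 from rfl, Nat.shiftLeft_eq]
  · rw [show Nat.shiftLeft c 320 = c <<< 320 from rfl, Nat.shiftLeft_eq]

theorem fX_eq (s a r v : ℕ) : fX s a r v = (s + 256 - a) * 18446744073709551616 + r + v * 6277101735386680763835789423207666416102355444464034512896 := by
  rw [← (shl (s + 256 - a)).1, ← (shl v).2.2.1]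
  rfl

theorem fY_eq (s b ρ : ℕ) : fY s b ρ = (s + 256 - b) * 340282366920938463463374607431768211456 + ρ * 115792089237316195423570985008687907853269984665640564039457584007913129639936 := by
  rw [← (shl (s + 256 - b)).2.1, ← (shl ρ).2.2.2.1]
  rfl

theorem eC_eq (Kc s x y : ℕ) : eC Kc s x y = Kc + (x + y) + (s + 1) * 2135987035920910082395021706169552114602704522356652769947041607822219725780640550022962086936576 := by
  rw [← (shl (s + 1)).2.2.2.2]
  rfl

theorem pk_zero_add (d0 d1 d2 d3 d4 d5 d6 d7 κ σ T : ℕ) :
    pk d0 d1 d2 d3 d4 d5 d6 d7 κ σ T = d0 + d1 * 18446744073709551616 + d2 * 340282366920938463463374607431768211456 + d3 * 6277101735386680763835789423207666416102355444464034512896 +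
      d4 * 115792089237316195423570985008687907853269984665640564039457584007913129639936 + d5 * 2135987035920910082395021706169552114602704522356652769947041607822219725780640550022962086936576 + d6 * 39402006196394479212279040100143613805079739270465446667948293404245721771497210611414266254884915640806627990306816 + d7 * 726838724295606890549323807888004534353641360687318060281490199180639288113397923326191050713763565560762521606266177933534601628614656 + κ * 13407807929942597099574024998205846127479365820592393377723561443721764030073546976801874298166903427690031858186486050853753882811946569946433649006084096 + σ * 247330401473104534060502521019647190035131349101211839914063056092897225106531867170316401061243044989597671426016139339351365034306751209967546155101893167916606772148699136 +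
      T * 4562440617622195218641171605700291324893228507248559930579192517899275167208677386505912811317371399778642309573594407310688704721375437998252661319722214188251994674360264950082874192246603776 := by
  unfold pk; ring

theorem cbk {ε τ : ℝ} {p : Par} {N e : ℕ} (d0 d1 d2 d3 d4 d5 d6 d7 κ σ T : ℕ)
    (he : e = pk d0 d1 d2 d3 d4 d5 d6 d7 κ σ T)
    (hb : d0 ≤ N ∧ d1 ≤ N ∧ d2 ≤ N ∧ d3 ≤ N ∧ d4 ≤ N ∧ d5 ≤ N ∧ d6 ≤ N ∧ d7 ≤ N ∧ κ ≤ N ∧ σ ≤ N ∧ T ≤ N)
    (hI : Ineq ε τ p d0 d1 d2 d3 d4 d5 d6 d7 κ σ T) :
    Cb ε τ p N e :=
  ⟨d0, d1, d2, d3, d4, d5, d6, d7, κ, σ, T, hb, he, hI⟩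

theorem pk_inj {d0 d1 d2 d3 d4 d5 d6 d7 κ σ T e0 e1 e2 e3 e4 e5 e6 e7 κ' σ' T' : ℕ}
    (h : pk d0 d1 d2 d3 d4 d5 d6 d7 κ σ T = pk e0 e1 e2 e3 e4 e5 e6 e7 κ' σ' T')
    (h0 : d0 ≤ 1048576 ∧ e0 ≤ 1048576) (h1 : d1 ≤ 1048576 ∧ e1 ≤ 1048576)
    (h2 : d2 ≤ 1048576 ∧ e2 ≤ 1048576) (h3 : d3 ≤ 1048576 ∧ e3 ≤ 1048576)
    (h4 : d4 ≤ 1048576 ∧ e4 ≤ 1048576) (h5 : d5 ≤ 1048576 ∧ e5 ≤ 1048576)
    (h6 : d6 ≤ 1048576 ∧ e6 ≤ 1048576) (h7 : d7 ≤ 1048576 ∧ e7 ≤ 1048576)
    (h8 : κ ≤ 1048576 ∧ κ' ≤ 1048576) (h9 : σ ≤ 1048576 ∧ σ' ≤ 1048576) :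
    d0 = e0 ∧ d1 = e1 ∧ d2 = e2 ∧ d3 = e3 ∧ d4 = e4 ∧ d5 = e5 ∧ d6 = e6 ∧ d7 = e7 ∧ κ = κ' ∧
      σ = σ' ∧ T = T' := by
  have key : ∀ a b R R' : ℕ, a ≤ 1048576 ∧ b ≤ 1048576 →
      a + 18446744073709551616 * R = b + 18446744073709551616 * R' → a = b ∧ R = R' := by
    intro a b R R' hab h
    omega
  unfold pk at h
  obtain ⟨g0, h⟩ := key _ _ _ _ h0 h
  obtain ⟨g1, h⟩ := key _ _ _ _ h1 h
  obtain ⟨g2, h⟩ := key _ _ _ _ h2 h
  obtain ⟨g3, h⟩ := key _ _ _ _ h3 h
  obtain ⟨g4, h⟩ := key _ _ _ _ h4 h
  obtain ⟨g5, h⟩ := key _ _ _ _ h5 h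
  obtain ⟨g6, h⟩ := key _ _ _ _ h6 h
  obtain ⟨g7, h⟩ := key _ _ _ _ h7 h
  obtain ⟨g8, h⟩ := key _ _ _ _ h8 h
  obtain ⟨g9, h⟩ := key _ _ _ _ h9 h
  exact ⟨g0, g1, g2, g3, g4, g5, g6, g7, g8, g9, h⟩

theorem ineq_of_cb {ε τ : ℝ} {p : Par} {e0 e1 e2 e3 e4 e5 e6 e7 κ' σ' T' : ℕ}
    (h : Cb ε τ p 1048576 (pk e0 e1 e2 e3 e4 e5 e6 e7 κ' σ' T'))
    (hb : e0 ≤ 1048576 ∧ e1 ≤ 1048576 ∧ e2 ≤ 1048576 ∧ e3 ≤ 1048576 ∧ e4 ≤ 1048576 ∧
      e5 ≤ 1048576 ∧ e6 ≤ 1048576 ∧ e7 ≤ 1048576 ∧ κ' ≤ 1048576 ∧ σ' ≤ 1048576) :
    Ineq ε τ p e0 e1 e2 e3 e4 e5 e6 e7 κ' σ' T' := by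
  obtain ⟨d0, d1, d2, d3, d4, d5, d6, d7, κ, σ, T, ⟨h0, h1, h2, h3, h4, h5, h6, h7, h8, h9, h10⟩,
    he, hI⟩ := h
  obtain ⟨b0, b1, b2, b3, b4, b5, b6, b7, b8, b9⟩ := hb
  obtain ⟨g0, g1, g2, g3, g4, g5, g6, g7, g8, g9, g10⟩ := pk_inj he ⟨b0, h0⟩ ⟨b1, h1⟩ ⟨b2, h2⟩
    ⟨b3, h3⟩ ⟨b4, h4⟩ ⟨b5, h5⟩ ⟨b6, h6⟩ ⟨b7, h7⟩ ⟨b8, h8⟩ ⟨b9, h9⟩
  rw [g0, g1, g2, g3, g4, g5, g6, g7, g8, g9, g10]
  exact hI

theorem candLemmas : CandLemmas where
  c3 := by
    intro ε τ p a b s ρ r v ha hb hs hρ hr hv X Y hX hY h1 h2 h3
    obtain ⟨a', ha'⟩ : ∃ a' : ℕ, a' = s + 256 - a := ⟨_, rfl⟩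
    obtain ⟨b', hb'⟩ : ∃ b' : ℕ, b' = s + 256 - b := ⟨_, rfl⟩
    have ea : (a' : ℝ) = (s : ℝ) + 256 - a := by
      rw [ha', Nat.cast_sub (by omega)]; push_cast; ring
    have eb : (b' : ℝ) = (s : ℝ) + 256 - b := by
      rw [hb', Nat.cast_sub (by omega)]; push_cast; ring
    have la : a' ≤ 319 := by omega
    have lb : b' ≤ 319 := by omega
    rw [eC_eq, eC_eq, fX_eq, fY_eq, ← ha', ← hb']
    clear ha' hb'
    refine ⟨fun h => ?_, fun h => ?_, ?_, ?_, ?_⟩
    · refine cbk (524032 + r) (524032 + a') (524032 + b') (524032 + v) (524032 + ρ)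
        (524288 + (s + 1)) 524287 524288 1 0 524288 ?_ (by omega) ?_
      · rw [K1_eq, pk_zero_add]; omega
      · unfold Ineq
        push_cast
        rw [ea, eb]
        rw [hX, hY] at h
        linarith
    · refine cbk (524032 + r) (524032 + a') (524032 + b') (524032 + v) (524032 + ρ)
        (524288 + (s + 1)) 524288 524287 1 0 524288 ?_ (by omega) ?_
      · rw [K1t_eq, pk_zero_add]; omega
      · unfold Ineq
        push_cast
        rw [ea, eb]
        rw [hX, hY] at h
        linarith
    · obtain ⟨r', hr'⟩ : ∃ r' : ℕ, r' + r = 524544 := ⟨524544 - r, by omega⟩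
      obtain ⟨v', hv'⟩ : ∃ v' : ℕ, v' + v = 524544 := ⟨524544 - v, by omega⟩
      obtain ⟨a'', ha''⟩ : ∃ a'' : ℕ, a'' + a' = 524544 := ⟨524544 - a', by omega⟩
      have er : (r' : ℝ) = 524544 - r := by
        have : (r' : ℝ) + r = 524544 := by exact_mod_cast hr'
        linarith
      have ev : (v' : ℝ) = 524544 - v := by
        have : (v' : ℝ) + v = 524544 := by exact_mod_cast hv'
        linarith
      have ea' : (a'' : ℝ) = 524544 - a' := by
        have : (a'' : ℝ) + a' = 524544 := by exact_mod_cast ha''
        linarith
      refine cbk r' a'' 524288 v' 524288 524288 524288 524288 0 1 524288 ?_ (by omega) ?_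
      · show K2 - _ = _
        rw [K2_eq, pk_zero_add]; omega
      · unfold Ineq
        push_cast
        rw [er, ev, ea', ea]
        rw [hX] at h1
        linarith
    · obtain ⟨ρ', hρ'⟩ : ∃ ρ' : ℕ, ρ' + ρ = 524544 := ⟨524544 - ρ, by omega⟩
      obtain ⟨b'', hb''⟩ : ∃ b'' : ℕ, b'' + b' = 524544 := ⟨524544 - b', by omega⟩
      have er : (ρ' : ℝ) = 524544 - ρ := by
        have : (ρ' : ℝ) + ρ = 524544 := by exact_mod_cast hρ'
        linarith
      have eb' : (b'' : ℝ) = 524544 - b' := by
        have : (b'' : ℝ) + b' = 524544 := by exact_mod_cast hb''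
        linarith
      refine cbk 524288 524288 b'' 524288 ρ' 524288 524288 524288 0 1 524288 ?_ (by omega) ?_
      · show K3 - _ = _
        rw [K3_eq, pk_zero_add]; omega
      · unfold Ineq
        push_cast
        rw [er, eb', eb]
        rw [hY] at h3
        linarith
    · refine cbk (524032 + r) (524032 + a') 524288 (524031 + v) 524288
        524288 524288 524288 0 0 524288 ?_ (by omega) ?_
      · show K4 + _ = _
        rw [K4_eq, pk_zero_add]; omega
      · unfold Ineq
        push_cast
        rw [ea]
        rw [hX] at h2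
        linarith

theorem splitLemmas : SplitLemmas where
  le03 := by
    intro ε τ p m hm h
    obtain ⟨m', hm'⟩ : ∃ m' : ℕ, m' + m = 524288 := ⟨524288 - m, by omega⟩
    have em : (m' : ℝ) = 524288 - m := by
      have : (m' : ℝ) + m = 524288 := by exact_mod_cast hm'
      linarith
    refine cbk 529328 524288 524288 m' 524288 524288 524288 524288 0 0 524288 ?_ (by omega) ?_
    · show bias8 + sh 5040 0 - sh m 3 = _
      rw [sh_0, sh_3, bias8_eq, pk_zero_add]; omega
    · unfold Ineq
      push_cast
      rw [em]
      linarith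
  ge03 := by
    intro ε τ p m hm h
    refine cbk 519248 524288 524288 (524288 + m) 524288 524288 524288 524288 0 0 524288 ?_ (by omega) ?_
    · show bias8 + sh m 3 - sh 5040 0 = _
      rw [sh_0, sh_3, bias8_eq, pk_zero_add]; omega
    · unfold Ineq
      push_cast
      linarith
  le13 := by
    intro ε τ p m hm h
    obtain ⟨m', hm'⟩ : ∃ m' : ℕ, m' + m = 524288 := ⟨524288 - m, by omega⟩
    have em : (m' : ℝ) = 524288 - m := by
      have : (m' : ℝ) + m = 524288 := by exact_mod_cast hm'
      linarith
    refine cbk 524288 529328 524288 m' 524288 524288 524288 524288 0 0 524288 ?_ (by omega) ?_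
    · show bias8 + sh 5040 1 - sh m 3 = _
      rw [sh_1, sh_3, bias8_eq, pk_zero_add]; omega
    · unfold Ineq
      push_cast
      rw [em]
      linarith
  ge13 := by
    intro ε τ p m hm h
    refine cbk 524288 519248 524288 (524288 + m) 524288 524288 524288 524288 0 0 524288 ?_ (by omega) ?_
    · show bias8 + sh m 3 - sh 5040 1 = _
      rw [sh_1, sh_3, bias8_eq, pk_zero_add]; omega
    · unfold Ineq
      push_cast
      linarith
  le24 := by
    intro ε τ p m hm h
    obtain ⟨m', hm'⟩ : ∃ m' : ℕ, m' + m = 524288 := ⟨524288 - m, by omega⟩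
    have em : (m' : ℝ) = 524288 - m := by
      have : (m' : ℝ) + m = 524288 := by exact_mod_cast hm'
      linarith
    refine cbk 524288 524288 529328 524288 m' 524288 524288 524288 0 0 524288 ?_ (by omega) ?_
    · show bias8 + sh 5040 2 - sh m 4 = _
      rw [sh_2, sh_4, bias8_eq, pk_zero_add]; omega
    · unfold Ineq
      push_cast
      rw [em]
      linarith
  ge24 := by
    intro ε τ p m hm h
    refine cbk 524288 524288 519248 524288 (524288 + m) 524288 524288 524288 0 0 524288 ?_ (by omega) ?_
    · show bias8 + sh m 4 - sh 5040 2 = _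
      rw [sh_2, sh_4, bias8_eq, pk_zero_add]; omega
    · unfold Ineq
      push_cast
      linarith
  le56 := by
    intro ε τ p m hm h
    obtain ⟨m', hm'⟩ : ∃ m' : ℕ, m' + m = 524288 := ⟨524288 - m, by omega⟩
    have em : (m' : ℝ) = 524288 - m := by
      have : (m' : ℝ) + m = 524288 := by exact_mod_cast hm'
      linarith
    refine cbk 524288 524288 524288 524288 524288 529328 m' 524288 0 0 524288 ?_ (by omega) ?_
    · show bias8 + sh 5040 5 - sh m 6 = _
      rw [sh_5, sh_6, bias8_eq, pk_zero_add]; omega
    · unfold Ineq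
      push_cast
      rw [em]
      linarith
  ge56 := by
    intro ε τ p m hm h
    refine cbk 524288 524288 524288 524288 524288 519248 (524288 + m) 524288 0 0 524288 ?_ (by omega) ?_
    · show bias8 + sh m 6 - sh 5040 5 = _
      rw [sh_5, sh_6, bias8_eq, pk_zero_add]; omega
    · unfold Ineq
      push_cast
      linarith
  le46 := by
    intro ε τ p m hm h
    obtain ⟨m', hm'⟩ : ∃ m' : ℕ, m' + m = 524288 := ⟨524288 - m, by omega⟩
    have em : (m' : ℝ) = 524288 - m := by
      have : (m' : ℝ) + m = 524288 := by exact_mod_cast hm'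
      linarith
    refine cbk 524288 524288 524288 524288 529328 524288 m' 524288 0 0 524288 ?_ (by omega) ?_
    · show bias8 + sh 5040 4 - sh m 6 = _
      rw [sh_4, sh_6, bias8_eq, pk_zero_add]; omega
    · unfold Ineq
      push_cast
      rw [em]
      linarith
  ge46 := by
    intro ε τ p m hm h
    refine cbk 524288 524288 524288 524288 519248 524288 (524288 + m) 524288 0 0 524288 ?_ (by omega) ?_
    · show bias8 + sh m 6 - sh 5040 4 = _
      rw [sh_4, sh_6, bias8_eq, pk_zero_add]; omega
    · unfold Ineq
      push_cast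
      linarith
  le36 := by
    intro ε τ p m hm h
    obtain ⟨m', hm'⟩ : ∃ m' : ℕ, m' + m = 524288 := ⟨524288 - m, by omega⟩
    have em : (m' : ℝ) = 524288 - m := by
      have : (m' : ℝ) + m = 524288 := by exact_mod_cast hm'
      linarith
    refine cbk 524288 524288 524288 529328 524288 524288 m' 524288 0 0 524288 ?_ (by omega) ?_
    · show bias8 + sh 5040 3 - sh m 6 = _
      rw [sh_3, sh_6, bias8_eq, pk_zero_add]; omega
    · unfold Ineq
      push_cast
      rw [em]
      linarith
  ge36 := by
    intro ε τ p m hm h
    refine cbk 524288 524288 524288 519248 524288 524288 (524288 + m) 524288 0 0 524288 ?_ (by omega) ?_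
    · show bias8 + sh m 6 - sh 5040 3 = _
      rw [sh_3, sh_6, bias8_eq, pk_zero_add]; omega
    · unfold Ineq
      push_cast
      linarith
  le67 := by
    intro ε τ p m hm h
    obtain ⟨m', hm'⟩ : ∃ m' : ℕ, m' + m = 524288 := ⟨524288 - m, by omega⟩
    have em : (m' : ℝ) = 524288 - m := by
      have : (m' : ℝ) + m = 524288 := by exact_mod_cast hm'
      linarith
    refine cbk 524288 524288 524288 524288 524288 524288 529328 m' 0 0 524288 ?_ (by omega) ?_
    · show bias8 + sh 5040 6 - sh m 7 = _
      rw [sh_6, sh_7, bias8_eq, pk_zero_add]; omega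
    · unfold Ineq
      push_cast
      rw [em]
      linarith
  ge67 := by
    intro ε τ p m hm h
    refine cbk 524288 524288 524288 524288 524288 524288 519248 (524288 + m) 0 0 524288 ?_ (by omega) ?_
    · show bias8 + sh m 7 - sh 5040 6 = _
      rw [sh_6, sh_7, bias8_eq, pk_zero_add]; omega
    · unfold Ineq
      push_cast
      linarith
  linL := by
    intro ε τ p c0 c1 c2 c3 c4 h0 h1 h2 h3 h4 h
    refine cbk (524032 + c0) (524032 + c1) (524032 + c2) (524032 + c3) (524032 + c4) 524288 524288
      524288 0 0 524288 ?_ (by omega) ?_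
    · show KL + (c0 + sh c1 1 + (sh c2 2 + sh c3 3) + sh c4 4) = _
      rw [sh_1, sh_2, sh_3, sh_4, KL_eq, pk_zero_add]; omega
    · unfold Ineq
      push_cast
      linarith
  linR := by
    intro ε τ p c0 c1 c2 c3 c4 h0 h1 h2 h3 h4 h
    obtain ⟨e0, he0⟩ : ∃ e : ℕ, e + c0 = 524544 := ⟨524544 - c0, by omega⟩
    obtain ⟨e1, he1⟩ : ∃ e : ℕ, e + c1 = 524544 := ⟨524544 - c1, by omega⟩
    obtain ⟨e2, he2⟩ : ∃ e : ℕ, e + c2 = 524544 := ⟨524544 - c2, by omega⟩
    obtain ⟨e3, he3⟩ : ∃ e : ℕ, e + c3 = 524544 := ⟨524544 - c3, by omega⟩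
    obtain ⟨e4, he4⟩ : ∃ e : ℕ, e + c4 = 524544 := ⟨524544 - c4, by omega⟩
    have key : ∀ e c : ℕ, e + c = 524544 → (e : ℝ) = 524544 - c := by
      intro e c hec
      have : (e : ℝ) + c = 524544 := by exact_mod_cast hec
      linarith
    refine cbk e0 e1 e2 e3 e4 524288 524288 524288 0 0 524288 ?_ (by omega) ?_
    · show KR - (c0 + sh c1 1 + (sh c2 2 + sh c3 3) + sh c4 4) = _
      rw [sh_1, sh_2, sh_3, sh_4, KR_eq, pk_zero_add]; omega
    · unfold Ineq
      rw [key _ _ he0, key _ _ he1, key _ _ he2, key _ _ he3, key _ _ he4]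
      push_cast
      linarith
  sp1 := by
    intro ε τ p h0 h1 h2 h3 h4
    rw [s10_pk] at h0
    rw [s11_pk] at h1
    rw [s12_pk] at h2
    rw [s13_pk] at h3
    rw [s14_pk] at h4
    have i0 := ineq_of_cb h0 (by norm_num)
    have i1 := ineq_of_cb h1 (by norm_num)
    have i2 := ineq_of_cb h2 (by norm_num)
    have i3 := ineq_of_cb h3 (by norm_num)
    have i4 := ineq_of_cb h4 (by norm_num)
    unfold Ineq at i0 i1 i2 i3 i4
    push_cast at i0 i1 i2 i3 i4
    refine ⟨?_, ?_, ?_, ?_, ?_⟩
    · linarith
    · linarith
    · linarith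
    · linarith
    · linarith
  sp2 := by
    intro ε τ p h0 h1 h2 h3 h4
    rw [s20_pk] at h0
    rw [s21_pk] at h1
    rw [s22_pk] at h2
    rw [s23_pk] at h3
    rw [s24_pk] at h4
    have i0 := ineq_of_cb h0 (by norm_num)
    have i1 := ineq_of_cb h1 (by norm_num)
    have i2 := ineq_of_cb h2 (by norm_num)
    have i3 := ineq_of_cb h3 (by norm_num)
    have i4 := ineq_of_cb h4 (by norm_num)
    unfold Ineq at i0 i1 i2 i3 i4
    push_cast at i0 i1 i2 i3 i4
    refine ⟨?_, ?_, ?_, ?_, ?_⟩
    · linarith
    · linarith
    · linarith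
    · linarith
    · linarith

end Pool.Agent.H337_stamp.Check
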