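import Pool.Agent.H337_stamp.SStmts

/-! Soundness of the checker: digits. -/

set_option autoImplicit false

namespace Pool.Agent.H337_stamp.Check

theorem land64 (x : ℕ) : Nat.land x (nat_lit 18446744073709551615) = x % 2 ^ 64 :=
  Nat.and_two_pow_sub_one_eq_mod x 64

set_option exponentiation.threshold 1000 in
theorem land320 (x : ℕ) : Nat.land x (nat_lit 2135987035920910082395021706169552114602704522356652769947041607822219725780640550022962086936575) = x % 2 ^ 320 :=
  Nat.and_two_pow_sub_one_eq_mod x 320

theorem dg_eq (S i : ℕ) : dg S i = (S / 2 ^ i) % 2 ^ 64 := by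
  rw [← Nat.shiftRight_eq_div_pow]
  exact land64 _

theorem peel (a R k : ℕ) (ha : a < 18446744073709551616) :
    (a + 18446744073709551616 * R) / 2 ^ (64 + k) = R / 2 ^ k := by
  rw [pow_add, ← Nat.div_div_eq_div_mul]
  congr 1
  norm_num
  omega

theorem peel0 (a R : ℕ) (ha : a < 18446744073709551616) :
    (a + 18446744073709551616 * R) % 2 ^ 64 = a := by
  norm_num
  omega

theorem bit0 (a R : ℕ) (ha : a < 18446744073709551616)
    (h : (a + 18446744073709551616 * R) / 2 ^ 63 % 2 = 1) : 9223372036854775808 ≤ a := by
  norm_num at h
  omega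

theorem testBit_of_land {X M n : ℕ} (h : Nat.land X M = M) (hM : M.testBit n = true) :
    X / 2 ^ n % 2 = 1 := by
  have h1 : (X &&& M).testBit n = true := by
    rw [show X &&& M = Nat.land X M from rfl, h]; exact hM
  rw [Nat.testBit_and, Bool.and_eq_true] at h1
  have h2 := h1.1
  rw [Nat.testBit_eq_decide_div_mod_eq] at h2
  exact of_decide_eq_true h2

section

variable {d0 d1 d2 d3 d4 d5 d6 d7 κ σ T : ℕ}

theorem pk_shift (h0 : d0 ≤ 2 ^ 55) (h1 : d1 ≤ 2 ^ 55) (h2 : d2 ≤ 2 ^ 55) (k : ℕ) :
    pk d0 d1 d2 d3 d4 d5 d6 d7 κ σ T / 2 ^ (64 + (64 + (64 + k))) =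
    (d3 + 18446744073709551616 * (d4 + 18446744073709551616 * (d5 + 18446744073709551616 *
  (d6 + 18446744073709551616 * (d7 + 18446744073709551616 * (κ + 18446744073709551616 *
  (σ + 18446744073709551616 * T))))))) / 2 ^ k := by
  norm_num at h0 h1 h2
  unfold pk
  rw [peel _ _ _ (by omega), peel _ _ _ (by omega), peel _ _ _ (by omega)]

end

theorem digitLemmas : DigitLemmas where
  top := by
    intro d0 d1 d2 d3 d4 d5 d6 d7 κ σ T h0 h1 h2 h3 h4 h5 h6 h7 h8 h9 h10
    norm_num at h0 h1 h2 h3 h4 h5 h6 h7 h8 h9 h10
    refine ⟨?_, ?_, ?_, ?_, ?_, ?_, ?_, ?_, ?_⟩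
    · rw [show Nat.shiftRight (pk d0 d1 d2 d3 d4 d5 d6 d7 κ σ T) 640 =
        pk d0 d1 d2 d3 d4 d5 d6 d7 κ σ T / 2 ^ 640 from Nat.shiftRight_eq_div_pow _ _]
      rw [show (640 : ℕ) = 64 + (64 + (64 + (64 + (64 + (64 + (64 + (64 + (64 + (64 + 0))))))))) from rfl]
      unfold pk
      rw [peel _ _ _ (by omega), peel _ _ _ (by omega), peel _ _ _ (by omega), peel _ _ _ (by omega),
        peel _ _ _ (by omega), peel _ _ _ (by omega), peel _ _ _ (by omega), peel _ _ _ (by omega),
        peel _ _ _ (by omega), peel _ _ _ (by omega), pow_zero, Nat.div_one]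
    · rw [dg_eq, show (192 : ℕ) = 64 + (64 + (64 + 0)) from rfl]
      unfold pk
      rw [peel _ _ _ (by omega), peel _ _ _ (by omega), peel _ _ _ (by omega), pow_zero, Nat.div_one,
        peel0 _ _ (by omega)]
    · rw [dg_eq, show (256 : ℕ) = 64 + (64 + (64 + (64 + 0))) from rfl]
      unfold pk
      rw [peel _ _ _ (by omega), peel _ _ _ (by omega), peel _ _ _ (by omega), peel _ _ _ (by omega),
        pow_zero, Nat.div_one, peel0 _ _ (by omega)]
    · rw [dg_eq, show (320 : ℕ) = 64 + (64 + (64 + (64 + (64 + 0)))) from rfl]
      unfold pk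
      rw [peel _ _ _ (by omega), peel _ _ _ (by omega), peel _ _ _ (by omega), peel _ _ _ (by omega),
        peel _ _ _ (by omega), pow_zero, Nat.div_one, peel0 _ _ (by omega)]
    · rw [dg_eq, show (384 : ℕ) = 64 + (64 + (64 + (64 + (64 + (64 + 0))))) from rfl]
      unfold pk
      rw [peel _ _ _ (by omega), peel _ _ _ (by omega), peel _ _ _ (by omega), peel _ _ _ (by omega),
        peel _ _ _ (by omega), peel _ _ _ (by omega), pow_zero, Nat.div_one, peel0 _ _ (by omega)]
    · rw [dg_eq, show (448 : ℕ) = 64 + (64 + (64 + (64 + (64 + (64 + (64 + 0)))))) from rfl]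
      unfold pk
      rw [peel _ _ _ (by omega), peel _ _ _ (by omega), peel _ _ _ (by omega), peel _ _ _ (by omega),
        peel _ _ _ (by omega), peel _ _ _ (by omega), peel _ _ _ (by omega), pow_zero, Nat.div_one,
        peel0 _ _ (by omega)]
    · intro hl
      have hl' := Nat.eq_of_beq_eq_true hl
      have e : Nat.add (pk d0 d1 d2 d3 d4 d5 d6 d7 κ σ T)
          (Nat.mul (Nat.sub (nat_lit 9223372036854775808) T)
            (nat_lit 340282366920938463481821351505477763073)) =
          (d0 + (9223372036854775808 - T)) + 18446744073709551616 *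
          ((d1 + (9223372036854775808 - T)) + 18446744073709551616 *
          ((d2 + (9223372036854775808 - T)) + 18446744073709551616 *
          (d3 + 18446744073709551616 * (d4 + 18446744073709551616 * (d5 + 18446744073709551616 *
          (d6 + 18446744073709551616 * (d7 + 18446744073709551616 * (κ + 18446744073709551616 *
          (σ + 18446744073709551616 * T))))))))) := by
        show pk d0 d1 d2 d3 d4 d5 d6 d7 κ σ T +
          (9223372036854775808 - T) * 340282366920938463481821351505477763073 = _
        unfold pk
        omega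
      have b0 := testBit_of_land (n := 63) hl' (by decide)
      have b1 := testBit_of_land (n := 64 + 63) hl' (by decide)
      have b2 := testBit_of_land (n := 64 + (64 + 63)) hl' (by decide)
      rw [e] at b0 b1 b2
      rw [peel _ _ _ (by omega)] at b1
      rw [peel _ _ _ (by omega), peel _ _ _ (by omega)] at b2
      have c0 := bit0 _ _ (by omega) b0
      have c1 := bit0 _ _ (by omega) b1
      have c2 := bit0 _ _ (by omega) b2
      omega
    · intro hl
      have hl' := Nat.eq_of_beq_eq_true hl
      have e : Nat.add (pk d0 d1 d2 d3 d4 d5 d6 d7 κ σ T)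
          (Nat.mul (Nat.sub (nat_lit 9223372036854775808) T)
            (nat_lit 726838724295606890588725814084399013568056387823382584169080752246511603091378769339537499843825263836454776755850775885168074347773953)) =
          (d0 + (9223372036854775808 - T)) + 18446744073709551616 *
          ((d1 + (9223372036854775808 - T)) + 18446744073709551616 *
          ((d2 + (9223372036854775808 - T)) + 18446744073709551616 *
          ((d3 + (9223372036854775808 - T)) + 18446744073709551616 *
          ((d4 + (9223372036854775808 - T)) + 18446744073709551616 *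
          ((d5 + (9223372036854775808 - T)) + 18446744073709551616 *
          ((d6 + (9223372036854775808 - T)) + 18446744073709551616 *
          ((d7 + (9223372036854775808 - T)) + 18446744073709551616 *
          (κ + 18446744073709551616 *
          (σ + 18446744073709551616 * T))))))))) := by
        show pk d0 d1 d2 d3 d4 d5 d6 d7 κ σ T +
          (9223372036854775808 - T) * 726838724295606890588725814084399013568056387823382584169080752246511603091378769339537499843825263836454776755850775885168074347773953 = _
        unfold pk
        omega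
      have b0 := testBit_of_land (n := 63) hl' (by decide)
      have b1 := testBit_of_land (n := 64 + 63) hl' (by decide)
      have b2 := testBit_of_land (n := 64 + (64 + 63)) hl' (by decide)
      have b3 := testBit_of_land (n := 64 + (64 + (64 + 63))) hl' (by decide)
      have b4 := testBit_of_land (n := 64 + (64 + (64 + (64 + 63)))) hl' (by decide)
      have b5 := testBit_of_land (n := 64 + (64 + (64 + (64 + (64 + 63))))) hl' (by decide)
      have b6 := testBit_of_land (n := 64 + (64 + (64 + (64 + (64 + (64 + 63)))))) hl' (by decide)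
      have b7 := testBit_of_land (n := 64 + (64 + (64 + (64 + (64 + (64 + (64 + 63))))))) hl'
        (by decide)
      rw [e] at b0 b1 b2 b3 b4 b5 b6 b7
      rw [peel _ _ _ (by omega)] at b1
      rw [peel _ _ _ (by omega), peel _ _ _ (by omega)] at b2
      rw [peel _ _ _ (by omega), peel _ _ _ (by omega), peel _ _ _ (by omega)] at b3
      rw [peel _ _ _ (by omega), peel _ _ _ (by omega), peel _ _ _ (by omega),
        peel _ _ _ (by omega)] at b4
      rw [peel _ _ _ (by omega), peel _ _ _ (by omega), peel _ _ _ (by omega),
        peel _ _ _ (by omega), peel _ _ _ (by omega)] at b5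
      rw [peel _ _ _ (by omega), peel _ _ _ (by omega), peel _ _ _ (by omega),
        peel _ _ _ (by omega), peel _ _ _ (by omega), peel _ _ _ (by omega)] at b6
      rw [peel _ _ _ (by omega), peel _ _ _ (by omega), peel _ _ _ (by omega),
        peel _ _ _ (by omega), peel _ _ _ (by omega), peel _ _ _ (by omega),
        peel _ _ _ (by omega)] at b7
      have c0 := bit0 _ _ (by omega) b0
      have c1 := bit0 _ _ (by omega) b1
      have c2 := bit0 _ _ (by omega) b2
      have c3 := bit0 _ _ (by omega) b3
      have c4 := bit0 _ _ (by omega) b4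
      have c5 := bit0 _ _ (by omega) b5
      have c6 := bit0 _ _ (by omega) b6
      have c7 := bit0 _ _ (by omega) b7
      omega
    · intro hp
      have e1 : dg (pk d0 d1 d2 d3 d4 d5 d6 d7 κ σ T) 512 = κ := by
        rw [dg_eq, show (512 : ℕ) = 64 + (64 + (64 + (64 + (64 + (64 + (64 + (64 + 0))))))) from rfl]
        unfold pk
        rw [peel _ _ _ (by omega), peel _ _ _ (by omega), peel _ _ _ (by omega),
          peel _ _ _ (by omega), peel _ _ _ (by omega), peel _ _ _ (by omega),
          peel _ _ _ (by omega), peel _ _ _ (by omega), pow_zero, Nat.div_one, peel0 _ _ (by omega)]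
      have e2 : dg (pk d0 d1 d2 d3 d4 d5 d6 d7 κ σ T) 576 = σ := by
        rw [dg_eq, show (576 : ℕ) = 64 + (64 + (64 + (64 + (64 + (64 + (64 + (64 + (64 + 0)))))))) from rfl]
        unfold pk
        rw [peel _ _ _ (by omega), peel _ _ _ (by omega), peel _ _ _ (by omega),
          peel _ _ _ (by omega), peel _ _ _ (by omega), peel _ _ _ (by omega),
          peel _ _ _ (by omega), peel _ _ _ (by omega), peel _ _ _ (by omega), pow_zero,
          Nat.div_one, peel0 _ _ (by omega)]
      have e3 : Nat.mod (Nat.land (Nat.shiftRight (pk d0 d1 d2 d3 d4 d5 d6 d7 κ σ T) (nat_lit 192)) (nat_lit 2135987035920910082395021706169552114602704522356652769947041607822219725780640550022962086936575))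
          (nat_lit 18446744073709551615) = d3 + d4 + d5 + d6 + d7 := by
        have q : Nat.land (Nat.shiftRight (pk d0 d1 d2 d3 d4 d5 d6 d7 κ σ T) (nat_lit 192)) (nat_lit 2135987035920910082395021706169552114602704522356652769947041607822219725780640550022962086936575) =
            (pk d0 d1 d2 d3 d4 d5 d6 d7 κ σ T / 2 ^ 192) % 2 ^ 320 := by
          rw [← Nat.shiftRight_eq_div_pow]
          exact land320 _
        rw [q, show (192 : ℕ) = 64 + (64 + (64 + 0)) from rfl]
        unfold pk
        rw [peel _ _ _ (by omega), peel _ _ _ (by omega), peel _ _ _ (by omega), pow_zero,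
          Nat.div_one]
        show _ % 18446744073709551615 = _
        have q2 : (d3 + 18446744073709551616 * (d4 + 18446744073709551616 *
            (d5 + 18446744073709551616 * (d6 + 18446744073709551616 * (d7 + 18446744073709551616 *
            (κ + 18446744073709551616 * (σ + 18446744073709551616 * T))))))) % 2 ^ 320 =
            d3 + 18446744073709551616 * (d4 + 18446744073709551616 *
            (d5 + 18446744073709551616 * (d6 + 18446744073709551616 * d7))) := by
          norm_num
          omega
        rw [q2]
        omega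
      unfold posc at hp
      rw [e1, e2, e3] at hp
      by_cases hc : 5 * T + 1 ≤ d3 + d4 + d5 + d6 + d7
      · left
        omega
      · right
        have hc' : Nat.ble (Nat.succ (Nat.mul (nat_lit 5) T)) (d3 + d4 + d5 + d6 + d7) = false := by
          rw [Bool.eq_false_iff]
          intro h
          exact hc (Nat.le_of_ble_eq_true h)
        rw [hc'] at hp
        have hp2 : iteb (Nat.beq κ (nat_lit 0)) (Nat.ble (nat_lit 1) σ) false = true := hp
        rcases Nat.eq_zero_or_pos κ with hκ | hκ
        · subst hκ
          exact ⟨rfl, Nat.le_of_ble_eq_true hp2⟩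
        · exfalso
          have : Nat.beq κ (nat_lit 0) = false := by
            rw [Bool.eq_false_iff]
            intro h
            have h3 : κ = 0 := Nat.eq_of_beq_eq_true h
            omega
          rw [this] at hp2
          exact Bool.noConfusion hp2

end Pool.Agent.H337_stamp.Check
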