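import Pool.Agent.H337_stamp.SStmts

/-! Soundness of the checker: paths. -/

set_option autoImplicit false

namespace Pool.Agent.H337_stamp.Check

set_option exponentiation.threshold 1000 in
theorem two704 : (2 : ℕ) ^ 704 = 84162174424773976115855838126082058648805436845170781751972494449099714468753293153818664580441415219631727501698851483408310916002940861810045036330430093599283578738055113571066620126149163476340692027772502016 := by
  norm_num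

theorem land704 (x : ℕ) : Nat.land x (nat_lit 84162174424773976115855838126082058648805436845170781751972494449099714468753293153818664580441415219631727501698851483408310916002940861810045036330430093599283578738055113571066620126149163476340692027772502015) = x % 2 ^ 704 := by
  have h := Nat.and_two_pow_sub_one_eq_mod x 704
  rw [← h, two704]
  rfl

theorem slot_eq (P j : ℕ) : slot P j = (P / 2 ^ (704 * j)) % 2 ^ 704 := by
  rw [← Nat.shiftRight_eq_div_pow]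
  exact land704 _

theorem sm_zero (P w : ℕ) : sm P 0 w = 0 := rfl

theorem sm_succ (P k w : ℕ) : sm P (k + 1) w =
    (w / 2 ^ 7 % 2 ^ 29) * slot P (w % 2 ^ 7) + sm P k (w / 2 ^ 36) := by
  have h1 : Nat.land (Nat.shiftRight w 7) 536870911 = w / 2 ^ 7 % 2 ^ 29 := by
    rw [← Nat.shiftRight_eq_div_pow]
    exact Nat.and_two_pow_sub_one_eq_mod (w >>> 7) 29
  have h2 : Nat.land w 127 = w % 2 ^ 7 := Nat.and_two_pow_sub_one_eq_mod w 7
  have h3 : Nat.shiftRight w 36 = w / 2 ^ 36 := Nat.shiftRight_eq_div_pow w 36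
  rw [← h1, ← h2, ← h3]
  rfl

theorem pk_add (d0 d1 d2 d3 d4 d5 d6 d7 κ σ T d0' d1' d2' d3' d4' d5' d6' d7' κ' σ' T' : ℕ) :
    pk d0 d1 d2 d3 d4 d5 d6 d7 κ σ T + pk d0' d1' d2' d3' d4' d5' d6' d7' κ' σ' T' =
    pk (d0 + d0') (d1 + d1') (d2 + d2') (d3 + d3') (d4 + d4') (d5 + d5') (d6 + d6') (d7 + d7')
      (κ + κ') (σ + σ') (T + T') := by
  unfold pk; ring

theorem pk_mul (m d0 d1 d2 d3 d4 d5 d6 d7 κ σ T : ℕ) :
    m * pk d0 d1 d2 d3 d4 d5 d6 d7 κ σ T =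
    pk (m * d0) (m * d1) (m * d2) (m * d3) (m * d4) (m * d5) (m * d6) (m * d7)
      (m * κ) (m * σ) (m * T) := by
  unfold pk; ring

theorem pk_lt (d0 d1 d2 d3 d4 d5 d6 d7 κ σ T : ℕ) (h0 : d0 ≤ 1048576) (h1 : d1 ≤ 1048576)
    (h2 : d2 ≤ 1048576) (h3 : d3 ≤ 1048576) (h4 : d4 ≤ 1048576) (h5 : d5 ≤ 1048576)
    (h6 : d6 ≤ 1048576) (h7 : d7 ≤ 1048576) (h8 : κ ≤ 1048576) (h9 : σ ≤ 1048576)
    (h10 : T ≤ 1048576) : pk d0 d1 d2 d3 d4 d5 d6 d7 κ σ T < 2 ^ 704 := by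
  rw [two704]
  unfold pk
  omega

theorem ineq_add {ε τ : ℝ} {p : Par}
    {d0 d1 d2 d3 d4 d5 d6 d7 κ σ T d0' d1' d2' d3' d4' d5' d6' d7' κ' σ' T' : ℕ}
    (h : Ineq ε τ p d0 d1 d2 d3 d4 d5 d6 d7 κ σ T)
    (h' : Ineq ε τ p d0' d1' d2' d3' d4' d5' d6' d7' κ' σ' T') :
    Ineq ε τ p (d0 + d0') (d1 + d1') (d2 + d2') (d3 + d3') (d4 + d4') (d5 + d5') (d6 + d6')
      (d7 + d7') (κ + κ') (σ + σ') (T + T') := by
  unfold Ineq at *
  push_cast
  linarith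

theorem ineq_mul {ε τ : ℝ} {p : Par} (m : ℕ) {d0 d1 d2 d3 d4 d5 d6 d7 κ σ T : ℕ}
    (h : Ineq ε τ p d0 d1 d2 d3 d4 d5 d6 d7 κ σ T) :
    Ineq ε τ p (m * d0) (m * d1) (m * d2) (m * d3) (m * d4) (m * d5) (m * d6) (m * d7)
      (m * κ) (m * σ) (m * T) := by
  unfold Ineq at *
  have h2 := mul_le_mul_of_nonneg_left h (Nat.cast_nonneg m : (0 : ℝ) ≤ m)
  push_cast
  linarith

theorem cb_add {ε τ : ℝ} {p : Par} {N N' e e' : ℕ} (h : Cb ε τ p N e) (h' : Cb ε τ p N' e') :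
    Cb ε τ p (N + N') (e + e') := by
  obtain ⟨d0, d1, d2, d3, d4, d5, d6, d7, κ, σ, T, ⟨h0, h1, h2, h3, h4, h5, h6, h7, h8, h9, h10⟩,
    he, hI⟩ := h
  obtain ⟨d0', d1', d2', d3', d4', d5', d6', d7', κ', σ', T',
    ⟨h0', h1', h2', h3', h4', h5', h6', h7', h8', h9', h10'⟩, he', hI'⟩ := h'
  refine ⟨d0 + d0', d1 + d1', d2 + d2', d3 + d3', d4 + d4', d5 + d5', d6 + d6', d7 + d7', κ + κ',
    σ + σ', T + T', ⟨?_, ?_, ?_, ?_, ?_, ?_, ?_, ?_, ?_, ?_, ?_⟩, ?_, ineq_add hI hI'⟩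
  any_goals omega
  rw [he, he', pk_add]

theorem cb_mul {ε τ : ℝ} {p : Par} {N e : ℕ} (m M : ℕ) (hm : m ≤ M) (h : Cb ε τ p N e) :
    Cb ε τ p (M * N) (m * e) := by
  obtain ⟨d0, d1, d2, d3, d4, d5, d6, d7, κ, σ, T, ⟨h0, h1, h2, h3, h4, h5, h6, h7, h8, h9, h10⟩,
    he, hI⟩ := h
  refine ⟨m * d0, m * d1, m * d2, m * d3, m * d4, m * d5, m * d6, m * d7, m * κ, m * σ, m * T,
    ⟨?_, ?_, ?_, ?_, ?_, ?_, ?_, ?_, ?_, ?_, ?_⟩, ?_, ineq_mul m hI⟩
  any_goals exact Nat.mul_le_mul hm (by assumption)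
  rw [he, pk_mul]

theorem cb_mono {ε τ : ℝ} {p : Par} {N N' e : ℕ} (h : Cb ε τ p N e) (hN : N ≤ N') :
    Cb ε τ p N' e := by
  obtain ⟨d0, d1, d2, d3, d4, d5, d6, d7, κ, σ, T, ⟨h0, h1, h2, h3, h4, h5, h6, h7, h8, h9, h10⟩,
    he, hI⟩ := h
  exact ⟨d0, d1, d2, d3, d4, d5, d6, d7, κ, σ, T, ⟨h0.trans hN, h1.trans hN, h2.trans hN,
    h3.trans hN, h4.trans hN, h5.trans hN, h6.trans hN, h7.trans hN, h8.trans hN, h9.trans hN,
    h10.trans hN⟩, he, hI⟩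

theorem cb_zero (ε τ : ℝ) (p : Par) (N : ℕ) : Cb ε τ p N 0 := by
  refine ⟨0, 0, 0, 0, 0, 0, 0, 0, 0, 0, 0, ⟨?_, ?_, ?_, ?_, ?_, ?_, ?_, ?_, ?_, ?_, ?_⟩, rfl, ?_⟩
  any_goals exact Nat.zero_le _
  unfold Ineq
  simp

theorem cb_lt {ε τ : ℝ} {p : Par} {e : ℕ} (h : Cb ε τ p 1048576 e) : e < 2 ^ 704 := by
  obtain ⟨d0, d1, d2, d3, d4, d5, d6, d7, κ, σ, T, ⟨h0, h1, h2, h3, h4, h5, h6, h7, h8, h9, h10⟩,
    he, hI⟩ := h
  rw [he]
  exact pk_lt _ _ _ _ _ _ _ _ _ _ _ h0 h1 h2 h3 h4 h5 h6 h7 h8 h9 h10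

theorem push_eq (P e : ℕ) : push P e = P * 2 ^ 704 + e := by
  show Nat.shiftLeft P 704 + e = _
  rw [show Nat.shiftLeft P 704 = P <<< 704 from rfl, Nat.shiftLeft_eq]

theorem slot_push_zero (P e : ℕ) (he : e < 2 ^ 704) : slot (push P e) 0 = e := by
  rw [slot_eq, push_eq, Nat.mul_zero, pow_zero, Nat.div_one, add_comm, Nat.add_mul_mod_self_right]
  exact Nat.mod_eq_of_lt he

theorem slot_push_succ (P e j : ℕ) (he : e < 2 ^ 704) : slot (push P e) (j + 1) = slot P j := by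
  rw [slot_eq, slot_eq, push_eq]
  congr 1
  rw [show 704 * (j + 1) = 704 + 704 * j by ring, pow_add, ← Nat.div_div_eq_div_mul]
  congr 1
  rw [add_comm, Nat.add_mul_div_right _ _ (by positivity), Nat.div_eq_of_lt he, zero_add]

theorem pathLemmas : PathLemmas where
  push := by
    intro ε τ p P e hP he j
    have hlt := cb_lt he
    cases j with
    | zero => rw [slot_push_zero P e hlt]; exact he
    | succ j => rw [slot_push_succ P e j hlt]; exact hP j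
  sm := by
    intro ε τ p P k w hP
    induction k generalizing w with
    | zero => rw [sm_zero]; exact cb_zero ε τ p _
    | succ k ih =>
      rw [sm_succ]
      have h1 : w / 2 ^ 7 % 2 ^ 29 ≤ 2 ^ 29 := (Nat.mod_lt _ (by positivity)).le
      have h2 := cb_add (cb_mul _ _ h1 (hP (w % 2 ^ 7))) (ih (w / 2 ^ 36))
      refine cb_mono h2 (le_of_eq ?_)
      norm_num
      ring
  add := fun ε τ p N N' e e' h h' => cb_add h h'
  mono := fun ε τ p N N' e h hN => cb_mono h hN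
  zero := by
    intro ε τ p j
    rw [slot_eq, Nat.zero_div, Nat.zero_mod]
    exact cb_zero ε τ p _

end Pool.Agent.H337_stamp.Check
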