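import Pool.Agent.H337_stamp.SP
import Pool.Agent.H337_stamp.SA

/-! Soundness of the checker: the root. -/

set_option autoImplicit false

namespace Pool.Agent.H337_stamp.Check

theorem albe {ε τ : ℝ} {p : Par} (h : Ctx ε τ p) : p.al * p.be ≤ 1 / 4 + ε := by
  have hε := ctx_eps h
  have hε0 := h.conf.eps_nonneg
  have hal := h.conf.al_pos
  have hbe := h.conf.be_pos
  have hsum := h.conf.sum_le
  have h4 : 4 * (p.al * p.be) ≤ (p.al + p.be) ^ 2 := by nlinarith [sq_nonneg (p.al - p.be)]
  have h5 : (p.al + p.be) ^ 2 ≤ (1 + ε) ^ 2 := pow_le_pow_left₀ (by positivity) hsum 2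
  have h6 : ε ^ 2 ≤ ε := by nlinarith
  nlinarith

/-- `(1 - D) g3 > 251/8000 - small` -/
theorem dg3 {ε τ : ℝ} {p : Par} (h : Ctx ε τ p) : 251 / 8001 < (1 - p.D) * p.g3 := by
  have hε := ctx_eps h
  have hε0 := h.conf.eps_nonneg
  have hg := ctx_g3 h
  have hg0 := h.conf.g3_pos
  have hD := h.conf.D_le
  have hp := ctx_prod h
  have hab := albe h
  have h1 : (0 : ℝ) ≤ (1 - p.D) * p.g3 := mul_nonneg (by linarith) hg0.le
  have h2 : (1 - p.D) * p.al * p.be * p.g3 = ((1 - p.D) * p.g3) * (p.al * p.be) := by ring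
  rw [h2] at hp
  have h3 : ((1 - p.D) * p.g3) * (p.al * p.be) ≤ ((1 - p.D) * p.g3) * (1 / 4 + 1 / 18446744073709551616) :=
    mul_le_mul_of_nonneg_left (by linarith) h1
  by_contra hc
  push Not at hc
  have h4 : ((1 - p.D) * p.g3) * (1 / 4 + 1 / 18446744073709551616) ≤
      251 / 8001 * (1 / 4 + 1 / 18446744073709551616) :=
    mul_le_mul_of_nonneg_right hc (by norm_num)
  norm_num at h3 h4
  linarith

theorem r_g3 {ε τ : ℝ} {p : Par} (h : Ctx ε τ p) : 630 * p.D ≤ 5040 * p.g3 := by
  have hD := h.conf.D_le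
  have h1 := dg3 h
  by_contra hc
  push Not at hc
  have h2 : (1 - p.D) * p.g3 ≤ (1 - p.D) * (p.D / 8) :=
    mul_le_mul_of_nonneg_left (by linarith) (by linarith)
  nlinarith [sq_nonneg (p.D - 1 / 2)]

theorem r_D {ε τ : ℝ} {p : Par} (h : Ctx ε τ p) : 151 ≤ 5040 * p.D := by
  have hε := ctx_eps h
  have hD := h.conf.D_le
  have h0 := ctx_D h
  have hg0 := h.conf.g3_pos
  have h1 := dg3 h
  have hg := ctx_g3 h
  have h2 : (1 - p.D) * p.g3 ≤ 1 * p.g3 := mul_le_mul_of_nonneg_right (by linarith) hg0.le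
  linarith

theorem r_al {ε τ : ℝ} {p : Par} (h : Ctx ε τ p) : 151 * p.D ≤ 5040 * p.al := by
  have hε := ctx_eps h
  have hε0 := h.conf.eps_nonneg
  have hD := h.conf.D_le
  have h0 := ctx_D h
  have hg0 := h.conf.g3_pos
  have hal := h.conf.al_pos
  have hbe := h.conf.be_pos
  have hsum := h.conf.sum_le
  have hg := ctx_g3 h
  have hp := ctx_prod h
  by_contra hc
  push Not at hc
  have h1 : (1 - p.D) * p.al ≤ (1 - p.D) * (151 / 5040 * p.D) :=
    mul_le_mul_of_nonneg_left (by linarith) (by linarith)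
  have h2 : (1 - p.D) * (151 / 5040 * p.D) ≤ 151 / 20160 := by nlinarith [sq_nonneg (p.D - 1 / 2)]
  have h3 : (1 - p.D) * p.al * p.be ≤ 151 / 20160 * (1 + 1 / 18446744073709551616) :=
    mul_le_mul (h1.trans h2) (by linarith) hbe.le (by norm_num)
  have h4 : (1 - p.D) * p.al * p.be * p.g3 ≤ 151 / 20160 * (1 + 1 / 18446744073709551616) *
      (1 + 1 / 18446744073709551616) :=
    mul_le_mul h3 (by linarith) hg0.le (by norm_num)
  norm_num at h4
  linarith

theorem r_be {ε τ : ℝ} {p : Par} (h : Ctx ε τ p) : 151 * p.D ≤ 5040 * p.be := by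
  have hε := ctx_eps h
  have hε0 := h.conf.eps_nonneg
  have hD := h.conf.D_le
  have h0 := ctx_D h
  have hg0 := h.conf.g3_pos
  have hal := h.conf.al_pos
  have hbe := h.conf.be_pos
  have hsum := h.conf.sum_le
  have hg := ctx_g3 h
  have hp := ctx_prod h
  by_contra hc
  push Not at hc
  have e : (1 - p.D) * p.al * p.be * p.g3 = (1 - p.D) * p.be * p.al * p.g3 := by ring
  rw [e] at hp
  have h1 : (1 - p.D) * p.be ≤ (1 - p.D) * (151 / 5040 * p.D) :=
    mul_le_mul_of_nonneg_left (by linarith) (by linarith)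
  have h2 : (1 - p.D) * (151 / 5040 * p.D) ≤ 151 / 20160 := by nlinarith [sq_nonneg (p.D - 1 / 2)]
  have h3 : (1 - p.D) * p.be * p.al ≤ 151 / 20160 * (1 + 1 / 18446744073709551616) :=
    mul_le_mul (h1.trans h2) (by linarith) hal.le (by norm_num)
  have h4 : (1 - p.D) * p.be * p.al * p.g3 ≤ 151 / 20160 * (1 + 1 / 18446744073709551616) *
      (1 + 1 / 18446744073709551616) :=
    mul_le_mul h3 (by linarith) hg0.le (by norm_num)
  norm_num at h4
  linarith

/-- a packed inequality -/
theorem cb_pk {ε τ : ℝ} {p : Par} {N d0 d1 d2 d3 d4 d5 d6 d7 κ σ T : ℕ}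
    (hb : d0 ≤ N ∧ d1 ≤ N ∧ d2 ≤ N ∧ d3 ≤ N ∧ d4 ≤ N ∧ d5 ≤ N ∧ d6 ≤ N ∧ d7 ≤ N ∧ κ ≤ N ∧ σ ≤ N ∧ T ≤ N)
    (hI : Ineq ε τ p d0 d1 d2 d3 d4 d5 d6 d7 κ σ T) :
    Cb ε τ p N (pk d0 d1 d2 d3 d4 d5 d6 d7 κ σ T) :=
  ⟨d0, d1, d2, d3, d4, d5, d6, d7, κ, σ, T, hb, rfl, hI⟩

theorem rootLemmas : RootLemmas where
  path := by
    intro ε τ p h
    have hg3 := ctx_g3 h
    have h1 := r_g3 h
    have h2 := r_D h
    have h3 := r_al h
    have h4 := r_be h
    have c := h.conf
    unfold rootP
    refine pathLemmas.push _ _ _ _ _ ?_ (cb_pk (by norm_num) ?_)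
    · refine pathLemmas.push _ _ _ _ _ ?_ (cb_pk (by norm_num) ?_)
      · refine pathLemmas.push _ _ _ _ _ ?_ (cb_pk (by norm_num) ?_)
        · refine pathLemmas.push _ _ _ _ _ ?_ (cb_pk (by norm_num) ?_)
          · refine pathLemmas.push _ _ _ _ _ ?_ (cb_pk (by norm_num) ?_)
            · refine pathLemmas.push _ _ _ _ _ ?_ (cb_pk (by norm_num) ?_)
              · refine pathLemmas.push _ _ _ _ _ ?_ (cb_pk (by norm_num) ?_)
                · refine pathLemmas.push _ _ _ _ _ ?_ (cb_pk (by norm_num) ?_)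
                  · refine pathLemmas.push _ _ _ _ _ ?_ (cb_pk (by norm_num) ?_)
                    · refine pathLemmas.push _ _ _ _ _ ?_ (cb_pk (by norm_num) ?_)
                      · exact pathLemmas.zero ε τ p
                      · have := c.sum_le
                        unfold Ineq; push_cast; linarith
                    · have := c.b1_lt
                      unfold Ineq; push_cast; linarith
                  · have := c.g1_lt
                    unfold Ineq; push_cast; linarith
                · have := c.g2_le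
                  unfold Ineq; push_cast; linarith
              · unfold Ineq; push_cast; linarith
            · have := c.D_le
              unfold Ineq; push_cast; linarith
          · unfold Ineq; push_cast; linarith
        · unfold Ineq; push_cast; linarith
      · unfold Ineq; push_cast; linarith
    · unfold Ineq; push_cast; linarith
  box := by
    intro ε τ p h
    have hg3 := ctx_g3 h
    have h1 := r_g3 h
    have h2 := r_D h
    have h3 := r_al h
    have h4 := r_be h
    have c := h.conf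
    have c1 := c.b1_nonneg
    have c2 := c.g1_nonneg
    have c3 := c.g2_nonneg
    have c4 := c.b1_lt
    have c5 := c.g1_lt
    have c6 := c.g2_le
    have c7 := c.tau_pos
    constructor
    all_goals push_cast
    all_goals linarith

end Pool.Agent.H337_stamp.Check
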