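import Pool.Agent.H337_stamp.SStmts

/-! Soundness of the checker: the ranges of the loops. -/

set_option autoImplicit false

namespace Pool.Agent.H337_stamp.Check

theorem ctx_eps {ε τ : ℝ} {p : Par} (h : Ctx ε τ p) : ε ≤ 1 / 18446744073709551616 := by
  have := h.heps
  linarith

theorem ctx_g3 {ε τ : ℝ} {p : Par} (h : Ctx ε τ p) : p.g3 ≤ p.D + ε := by
  obtain ⟨s, r, v, h1, -, h3, h4⟩ := h.conf.test3 0 0 0 (by norm_num) (by norm_num) (by norm_num)
  have hτ := h.conf.tau_pos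
  have hs : (0 : ℝ) ≤ (s : ℝ) := Nat.cast_nonneg s
  have hg := h.conf.g3_pos
  have h5 : 0 ≤ (s : ℝ) * p.g3 := mul_nonneg hs hg.le
  linarith

theorem ctx_D {ε τ : ℝ} {p : Par} (h : Ctx ε τ p) : 1 / 50 ≤ p.D := by
  have hε := ctx_eps h
  have hε0 := h.conf.eps_nonneg
  have hg := ctx_g3 h
  have hg0 := h.conf.g3_pos
  have hal := h.conf.al_pos
  have hbe := h.conf.be_pos
  have hsum := h.conf.sum_le
  have hD := h.conf.D_le
  have hp := h.hprod
  have h1 : (1 : ℝ) ≤ (1 + 18446744073709551616 * ε) ^ 4 := one_le_pow₀ (by linarith)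
  have h2 : 251 / 32000 < (1 - p.D) * (p.al * p.be) * p.g3 := by
    have e : p.prod = (1 - p.D) * (p.al * p.be) * p.g3 := by unfold Par.prod; ring
    rw [← e]; linarith
  have h3 : p.al * p.be ≤ 1 / 3 := by
    have h4 : 4 * (p.al * p.be) ≤ (p.al + p.be) ^ 2 := by nlinarith [sq_nonneg (p.al - p.be)]
    have h5 : (p.al + p.be) ^ 2 ≤ (1 + ε) ^ 2 := pow_le_pow_left₀ (by positivity) hsum 2
    nlinarith
  have h4 : 0 ≤ 1 - p.D := by linarith
  have h5 : (1 - p.D) * (p.al * p.be) * p.g3 ≤ (1 - p.D) * (1 / 3) * p.g3 := by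
    apply mul_le_mul_of_nonneg_right _ hg0.le
    exact mul_le_mul_of_nonneg_left h3 h4
  by_contra hc
  push Not at hc
  have h6 : p.g3 ≤ 1 / 50 + 1 / 18446744073709551616 := by linarith
  have h7 : 1 - p.D ≤ 1 + 1 / 18446744073709551616 := by linarith
  have h8 : (1 - p.D) * (1 / 3) * p.g3 ≤ (1 + 1 / 18446744073709551616) * (1 / 3) *
      (1 / 50 + 1 / 18446744073709551616) := by
    apply mul_le_mul _ h6 hg0.le (by norm_num)
    exact mul_le_mul_of_nonneg_right h7 (by norm_num)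
  norm_num at h8
  linarith

/-- real value of a difference from truncated differences, upper bound -/
theorem diff_up (s a lo hi : ℕ) (g al : ℝ) (hlo : (lo : ℝ) * al ≤ 5040 * g)
    (hhi : 5040 * g ≤ (hi : ℝ) * al) :
    5040 * (((s : ℝ) - a) * g) ≤ (((s - a : ℕ) : ℝ) * hi - ((a - s : ℕ) : ℝ) * lo) * al := by
  rcases le_total a s with h | h
  · have e1 : a - s = 0 := by omega
    rw [e1, Nat.cast_sub h]
    push_cast
    have h0 : (0 : ℝ) ≤ (s : ℝ) - a := by
      have : (a : ℝ) ≤ s := by exact_mod_cast h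
      linarith
    nlinarith [mul_le_mul_of_nonneg_left hhi h0]
  · have e1 : s - a = 0 := by omega
    rw [e1, Nat.cast_sub h]
    push_cast
    have h0 : (0 : ℝ) ≤ (a : ℝ) - s := by
      have : (s : ℝ) ≤ a := by exact_mod_cast h
      linarith
    nlinarith [mul_le_mul_of_nonneg_left hlo h0]

theorem diff_lo (s a lo hi : ℕ) (g al : ℝ) (hlo : (lo : ℝ) * al ≤ 5040 * g)
    (hhi : 5040 * g ≤ (hi : ℝ) * al) :
    (((s - a : ℕ) : ℝ) * lo - ((a - s : ℕ) : ℝ) * hi) * al ≤ 5040 * (((s : ℝ) - a) * g) := by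
  have h := diff_up a s lo hi g al hlo hhi
  have e : 5040 * (((s : ℝ) - a) * g) = -(5040 * (((a : ℝ) - s) * g)) := by ring
  rw [e]
  linarith

theorem rangeLemmas : RangeLemmas where
  vlo := by
    intro ε τ p hctx u1 u2 w1 w2 y1 y2 gm bm dm am hB a s r vlo v hok hpos
    have hal := hctx.conf.al_pos
    have h1 : (s - a) * w2 + (r - 256) * u2 + 5040 * vlo ≤
        (a - s) * w1 + (256 - r) * u1 + 1295280 := Nat.le_of_ble_eq_true hok
    have h2 : (((s - a : ℕ) : ℝ)) * w2 + ((r - 256 : ℕ) : ℝ) * u2 + 5040 * vlo ≤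
        ((a - s : ℕ) : ℝ) * w1 + ((256 - r : ℕ) : ℝ) * u1 + 1295280 := by exact_mod_cast h1
    by_contra hc
    push Not at hc
    have hc' : v + 257 ≤ (vlo : ℤ) := by omega
    have hc2 : (v : ℝ) + 257 ≤ (vlo : ℝ) := by exact_mod_cast hc'
    have h3 := diff_up s a w1 w2 p.g1 p.al hB.w1 hB.w2
    have h4 := diff_up r 256 u1 u2 p.b1 p.al hB.u1 hB.u2
    push_cast at h4
    have h5 : (((s - a : ℕ) : ℝ) * w2 - ((a - s : ℕ) : ℝ) * w1 + (((r - 256 : ℕ) : ℝ) * u2 -
        ((256 - r : ℕ) : ℝ) * u1) + 5040 * v) * p.al ≤ 0 := by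
      apply mul_nonpos_of_nonpos_of_nonneg _ hal.le
      linarith
    clear hok h1 h2 hB
    linarith
  lX := by
    intro ε τ p hctx u1 u2 w1 w2 y1 y2 gm bm dm am hB a s r v X hX hX0
    have hal := hctx.conf.al_pos
    have h3 := diff_lo s a w1 w2 p.g1 p.al hB.w1 hB.w2
    have h4 := diff_lo r 256 u1 u2 p.b1 p.al hB.u1 hB.u2
    push_cast at h4
    have e : lowX w1 w2 u1 u2 a s r v = ((s - a) * w1 + (r - 256) * u1 + 5040 * v) -
        ((a - s) * w2 + (256 - r) * u2 + 1290240) := rfl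
    rw [e]
    rcases le_total ((s - a) * w1 + (r - 256) * u1 + 5040 * v)
      ((a - s) * w2 + (256 - r) * u2 + 1290240) with h | h
    · rw [Nat.sub_eq_zero_of_le h]
      push_cast
      linarith
    · rw [Nat.cast_sub h]
      push_cast
      rw [hX]
      clear h hX0 hB e
      linarith
  lY := by
    intro ε τ p hctx u1 u2 w1 w2 y1 y2 gm bm dm am hB b s ρ Y hY hY0
    have hbe := hctx.conf.be_pos
    have h3 := diff_lo s b y1 y2 p.g2 p.be hB.y1 hB.y2
    have e : lowY y1 y2 b s ρ = ((s - b) * y1 + 5040 * ρ) - ((b - s) * y2 + 1290240) := rfl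
    rw [e]
    rcases le_total ((s - b) * y1 + 5040 * ρ) ((b - s) * y2 + 1290240) with h | h
    · rw [Nat.sub_eq_zero_of_le h]
      push_cast
      linarith
    · rw [Nat.cast_sub h]
      push_cast
      rw [hY]
      clear h hY0 hB e
      linarith
  rlo := by
    intro ε τ p hctx u1 u2 w1 w2 y1 y2 gm bm dm am hB b s rlo ρ hok hpos
    have hbe := hctx.conf.be_pos
    have h1 : (s - b) * y2 + 5040 * rlo ≤ (b - s) * y1 + 1295280 := Nat.le_of_ble_eq_true hok
    have h2 : (((s - b : ℕ) : ℝ)) * y2 + 5040 * rlo ≤ ((b - s : ℕ) : ℝ) * y1 + 1295280 := by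
      exact_mod_cast h1
    by_contra hc
    push Not at hc
    have hc' : ρ + 257 ≤ (rlo : ℤ) := by omega
    have hc2 : (ρ : ℝ) + 257 ≤ (rlo : ℝ) := by exact_mod_cast hc'
    have h3 := diff_up s b y1 y2 p.g2 p.be hB.y1 hB.y2
    have h5 : (((s - b : ℕ) : ℝ) * y2 - ((b - s : ℕ) : ℝ) * y1 + 5040 * ρ) * p.be ≤ 0 := by
      apply mul_nonpos_of_nonpos_of_nonneg _ hbe.le
      linarith
    nlinarith
  monoY := by
    intro y1 y2 b s ρ ρ' h
    show ((s - b) * y1 + 5040 * ρ) - ((b - s) * y2 + 1290240) ≤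
      ((s - b) * y1 + 5040 * ρ') - ((b - s) * y2 + 1290240)
    apply Nat.sub_le_sub_right
    omega
  monoX := by
    intro w1 w2 u1 u2 a s r v v' h
    show ((s - a) * w1 + (r - 256) * u1 + 5040 * v) - ((a - s) * w2 + (256 - r) * u2 + 1290240) ≤
      ((s - a) * w1 + (r - 256) * u1 + 5040 * v') - ((a - s) * w2 + (256 - r) * u2 + 1290240)
    apply Nat.sub_le_sub_right
    omega
  monoC := by
    intro two gm bm dm am s x y x' y' hx hy h
    cases two
    · have h1 : 25401601 ≤ y * bm + x * am + (s + 1) * gm * 5040 := Nat.le_of_ble_eq_true h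
      apply Nat.ble_eq_true_of_le
      show 25401601 ≤ y' * bm + x' * am + (s + 1) * gm * 5040
      have h2 := Nat.mul_le_mul_right bm hy
      have h3 := Nat.mul_le_mul_right am hx
      omega
    · have h1 : 128024064001 ≤ (y * bm + x * am + gm * 5040) * dm := Nat.le_of_ble_eq_true h
      apply Nat.ble_eq_true_of_le
      show 128024064001 ≤ (y' * bm + x' * am + gm * 5040) * dm
      have h2 := Nat.mul_le_mul_right bm hy
      have h3 := Nat.mul_le_mul_right am hx
      refine h1.trans (Nat.mul_le_mul_right dm ?_)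
      omega
  cost3 := by
    intro ε τ p hctx u1 u2 w1 w2 y1 y2 gm bm dm am hB s x y X Y hx hy hle hc
    have h1 : 25401601 ≤ y * bm + x * am + (s + 1) * gm * 5040 := Nat.le_of_ble_eq_true hc
    have h2 : (25401601 : ℝ) ≤ y * bm + x * am + (s + 1) * gm * 5040 := by exact_mod_cast h1
    have hD := ctx_D hctx
    have hε := ctx_eps hctx
    have hD0 : 0 < p.D := by linarith
    have h3 : (x : ℝ) * am * p.D ≤ 25401600 * X := by
      have h4 := mul_le_mul_of_nonneg_left hB.am (Nat.cast_nonneg x : (0 : ℝ) ≤ x)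
      linarith
    have h5 : (y : ℝ) * bm * p.D ≤ 25401600 * Y := by
      have h4 := mul_le_mul_of_nonneg_left hB.bm (Nat.cast_nonneg y : (0 : ℝ) ≤ y)
      linarith
    have h6 : ((s : ℝ) + 1) * gm * 5040 * p.D ≤ 25401600 * (((s : ℝ) + 1) * p.g3) := by
      have h4 := mul_le_mul_of_nonneg_left hB.gm (by positivity : (0 : ℝ) ≤ (s : ℝ) + 1)
      linarith
    have h7 := mul_le_mul_of_nonneg_right h2 hD0.le
    have h8 : (25401601 : ℝ) * p.D ≤ 25401600 * (p.D + ε) := by
      calc (25401601 : ℝ) * p.D ≤ ((y : ℝ) * bm + x * am + (s + 1) * gm * 5040) * p.D := h7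
        _ = (y : ℝ) * bm * p.D + x * am * p.D + (s + 1) * gm * 5040 * p.D := by ring
        _ ≤ 25401600 * Y + 25401600 * X + 25401600 * (((s : ℝ) + 1) * p.g3) := by linarith
        _ ≤ _ := by linarith
    linarith
  cost2 := by
    intro ε τ p hctx u1 u2 w1 w2 y1 y2 gm bm dm am hB s x y X Y hx hy hle hc
    have h1 : 128024064001 ≤ (y * bm + x * am + gm * 5040) * dm := Nat.le_of_ble_eq_true hc
    have h2 : (128024064001 : ℝ) ≤ (y * bm + x * am + gm * 5040) * dm := by exact_mod_cast h1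
    have hD := ctx_D hctx
    have hε := ctx_eps hctx
    have hD0 : 0 < p.D := by linarith
    have h3 : (x : ℝ) * am * p.D ≤ 25401600 * X := by
      have h4 := mul_le_mul_of_nonneg_left hB.am (Nat.cast_nonneg x : (0 : ℝ) ≤ x)
      linarith
    have h5 : (y : ℝ) * bm * p.D ≤ 25401600 * Y := by
      have h4 := mul_le_mul_of_nonneg_left hB.bm (Nat.cast_nonneg y : (0 : ℝ) ≤ y)
      linarith
    have h6 : (gm : ℝ) * 5040 * p.D ≤ 25401600 * p.g3 := by
      have := hB.gm
      linarith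
    have h7 : ((y : ℝ) * bm + x * am + gm * 5040) * dm ≤
        ((y : ℝ) * bm + x * am + gm * 5040) * (5040 * p.D) :=
      mul_le_mul_of_nonneg_left hB.dm (by positivity)
    have h8 : ((y : ℝ) * bm + x * am + gm * 5040) * (5040 * p.D) ≤ 5040 * (25401600 * (1 + ε)) := by
      calc ((y : ℝ) * bm + x * am + gm * 5040) * (5040 * p.D)
          = 5040 * ((y : ℝ) * bm * p.D + x * am * p.D + gm * 5040 * p.D) := by ring
        _ ≤ 5040 * (25401600 * (1 + ε)) := by linarith
    linarith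
  sbd := by
    intro ε τ p hctx u1 u2 w1 w2 y1 y2 gm bm dm am hB s X Y hX hY hle hc
    have h1 : 5041 ≤ (s + 1) * gm := Nat.le_of_ble_eq_true hc
    have h2 : (5041 : ℝ) ≤ ((s : ℝ) + 1) * gm := by exact_mod_cast h1
    have hD := ctx_D hctx
    have hε := ctx_eps hctx
    have hD0 : 0 < p.D := by linarith
    have h4 := mul_le_mul_of_nonneg_left hB.gm (by positivity : (0 : ℝ) ≤ (s : ℝ) + 1)
    have h7 := mul_le_mul_of_nonneg_right h2 hD0.le
    linarith

end Pool.Agent.H337_stamp.Check
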