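import Pool.Agent.H337_stamp.Defs

/-! Blueprint statements (each is a `def ... : Prop`), and the final theorem derived from them. -/

namespace Pool.Agent.H337_stamp

open Filter Topology

/-- (U1) integer level reduction. -/
def ConfOfBasis : Prop := ∀ M : ℕ, ∀ δ : ℝ, 0 < δ → ∃ K : ℝ, ∃ h0 : ℕ, 0 < K ∧ 0 < h0 ∧
  ∀ h : ℕ, h0 ≤ h → ∀ A : Finset ℕ, A.card = 4 → ∀ n : ℕ, IsBasis h A n →
    δ * (h : ℝ) ^ 4 ≤ n → ∃ p : Par, Conf M (K / h) (1 / h) p ∧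
      (n : ℝ) ≤ (p.prod + K / h) * (h : ℝ) ^ 4

/-- (U2) the certificate theorem (branch and bound). -/
def Cert : Prop := ∃ M : ℕ, ∃ C : ℝ, 0 < C ∧ ∀ (ε τ : ℝ) (p : Par), Conf M ε τ p → C * ε ≤ 1 →
  p.prod ≤ 251 / 32000 * (1 + C * ε) ^ 4 ∨ Special1 ε p ∨ Special2 ε p

/-- (U3) the bound in the two special regions. -/
def SpecialBound : Prop := ∀ b : ℝ, IsRoot b → ∃ C : ℝ, 0 < C ∧
  ∀ (M : ℕ) (ε τ : ℝ) (p : Par), Conf M ε τ p → (Special1 ε p ∨ Special2 ε p) →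
    p.prod ≤ cval b * (1 + C * ε) ^ 4

/-- (L) the lower bound. -/
def Lower : Prop := ∀ b : ℝ, IsRoot b → ∀ η : ℝ, 0 < η → ∃ h0 : ℕ, ∀ h : ℕ, h0 ≤ h →
  ∃ A : Finset ℕ, A.card = 4 ∧ ∃ n : ℕ, IsBasis h A n ∧ (cval b - η) * (h : ℝ) ^ 4 ≤ n

/-- (A1) irrationality. -/
def Irr : Prop := ∀ b : ℝ, IsRoot b → Irrational (cval b)

/-- (A2) polynomial argument. -/
def PolyArg : Prop := ∀ (f : ℕ → ℕ) (c : ℝ), Irrational c →
  Tendsto (fun h : ℕ => (f h : ℝ) / (h : ℝ) ^ 4) atTop (𝓝 c) →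
  ∀ P : Polynomial ℝ, {h : ℕ | (f h : ℝ) = P.eval (h : ℝ)}.Finite

/-- (S) `stamp h 4` is attained and is an upper bound. -/
def StampMax : Prop := ∀ h k : ℕ,
  IsGreatest {n : ℕ | ∃ A : Finset ℕ, A.card = k ∧ IsBasis h A n} (stamp h k)

/-- Final theorem. -/
def Final : Prop := ∀ P : Polynomial ℝ, {h : ℕ | (stamp h 4 : ℝ) = P.eval (h : ℝ)}.Finite

end Pool.Agent.H337_stamp
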