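import Pool.Agent.H337_stamp.SStep
import Pool.Agent.H337_stamp.Stmts
import Pool.Agent.H337_stamp.SN
import Pool.Agent.H337_stamp.SP
import Pool.Agent.H337_stamp.SA
import Pool.Agent.H337_stamp.SC
import Pool.Agent.H337_stamp.SV
import Pool.Agent.H337_stamp.SR

/-! The soundness lemmas put together. -/

namespace Pool.Agent.H337_stamp.Check

/-- one step backwards in the list of the states -/
theorem bk {st : ℕ → ℕ} {k c : ℕ} (h : chk1 st k c = true)
    (ih : ∀ j, k + 1 ≤ j → st j ≠ 0 → Good (st j)) : ∀ j, k ≤ j → st j ≠ 0 → Good (st j) :=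
  back digitLemmas pathLemmas leafReal candLemmas rangeLemmas splitLemmas h ih

/-- the table is `0` beyond its length -/
theorem tab_out {L : List (List ℕ)} {N : ℕ} : ∀ j, N ≤ j → tab L N j ≠ 0 → Good (tab L N j) := by
  intro j hj hne
  exfalso
  apply hne
  unfold tab
  rw [Nat.ble_eq_true_of_le hj]

/-- the certificate theorem, from the goodness of the root state -/
theorem cert_of_root {x : ℕ} (hx : Good x) (h0 : Nat.shiftRight x 640 = rootP)
    (h1 : dg x 576 = 0) (h2 : dg x 512 = 5040) (h3 : dg x 448 = 0) (h4 : dg x 384 = 5040)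
    (h5 : dg x 320 = 0) (h6 : dg x 256 = 5040) (h7 : dg x 192 = 630) (h8 : dg x 128 = 151)
    (h9 : dg x 64 = 151) (h10 : Nat.land x 18446744073709551615 = 151) : Cert := by
  refine ⟨63, 18446744073709551616, by norm_num, ?_⟩
  intro ε τ p hconf heps
  by_contra hcon
  rw [not_or] at hcon
  have hc : Ctx ε τ p := ⟨hconf, heps, not_le.1 hcon.1⟩
  apply hcon.2
  have hp : PathOK ε τ p (Nat.shiftRight x 640) := by rw [h0]; exact rootLemmas.path ε τ p hc
  refine hx ε τ p hc hp ?_
  rw [h1, h2, h3, h4, h5, h6, h7, h8, h9, h10]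
  exact rootLemmas.box ε τ p hc

end Pool.Agent.H337_stamp.Check
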