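import Mathlib
import Pool.Agent.H337_stamp.Defs
import Pool.Agent.H337_stamp.Check

/-!
Soundness of the checker: meaning of packed numbers, paths and states.
-/

namespace Pool.Agent.H337_stamp.Check

/-- the packed number with the given digits (base `2^64`) -/
def pk (d0 d1 d2 d3 d4 d5 d6 d7 κ σ T : ℕ) : ℕ :=
  d0 + 18446744073709551616 * (d1 + 18446744073709551616 * (d2 + 18446744073709551616 *
  (d3 + 18446744073709551616 * (d4 + 18446744073709551616 * (d5 + 18446744073709551616 *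
  (d6 + 18446744073709551616 * (d7 + 18446744073709551616 * (κ + 18446744073709551616 *
  (σ + 18446744073709551616 * T)))))))))

/-- the standing assumptions -/
structure Ctx (ε τ : ℝ) (p : Par) : Prop where
  conf : Conf 63 ε τ p
  heps : 18446744073709551616 * ε ≤ 1
  hprod : 251 / 32000 * (1 + 18446744073709551616 * ε) ^ 4 < p.prod

/-- the real inequality meant by digits -/
def Ineq (ε τ : ℝ) (p : Par) (d0 d1 d2 d3 d4 d5 d6 d7 κ σ T : ℕ) : Prop :=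
  ((d0 : ℝ) - T) * p.b1 + ((d1 : ℝ) - T) * p.g1 + ((d2 : ℝ) - T) * p.g2 + ((d3 : ℝ) - T) * p.al
    + ((d4 : ℝ) - T) * p.be + ((d5 : ℝ) - T) * p.g3 + ((d6 : ℝ) - T) * p.D + ((d7 : ℝ) - T)
    + σ * τ ≤ κ * ε

/-- `e` is a packed valid inequality with digits at most `N` -/
def Cb (ε τ : ℝ) (p : Par) (N e : ℕ) : Prop :=
  ∃ d0 d1 d2 d3 d4 d5 d6 d7 κ σ T : ℕ,
    (d0 ≤ N ∧ d1 ≤ N ∧ d2 ≤ N ∧ d3 ≤ N ∧ d4 ≤ N ∧ d5 ≤ N ∧ d6 ≤ N ∧ d7 ≤ N ∧ κ ≤ N ∧ σ ≤ N ∧ T ≤ N) ∧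
    e = pk d0 d1 d2 d3 d4 d5 d6 d7 κ σ T ∧ Ineq ε τ p d0 d1 d2 d3 d4 d5 d6 d7 κ σ T

/-- all slots of the path are valid -/
def PathOK (ε τ : ℝ) (p : Par) (P : ℕ) : Prop := ∀ j, Cb ε τ p 1048576 (slot P j)

/-- the box bounds hold -/
structure BoxOK (p : Par) (u1 u2 w1 w2 y1 y2 gm bm dm am : ℕ) : Prop where
  u1 : (u1 : ℝ) * p.al ≤ 5040 * p.b1
  u2 : 5040 * p.b1 ≤ (u2 : ℝ) * p.al
  w1 : (w1 : ℝ) * p.al ≤ 5040 * p.g1
  w2 : 5040 * p.g1 ≤ (w2 : ℝ) * p.al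
  y1 : (y1 : ℝ) * p.be ≤ 5040 * p.g2
  y2 : 5040 * p.g2 ≤ (y2 : ℝ) * p.be
  gm : (gm : ℝ) * p.D ≤ 5040 * p.g3
  bm : (bm : ℝ) * p.D ≤ 5040 * p.be
  dm : (dm : ℝ) ≤ 5040 * p.D
  am : (am : ℝ) * p.D ≤ 5040 * p.al

/-- the aim -/
def Goal (ε : ℝ) (p : Par) : Prop := Special1 ε p ∨ Special2 ε p

/-- a good packed state: whenever its path and box are valid, the parameters are special -/
def Good (x : ℕ) : Prop := ∀ (ε τ : ℝ) (p : Par), Ctx ε τ p →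
  PathOK ε τ p (Nat.shiftRight x 640) →
  BoxOK p (dg x 576) (dg x 512) (dg x 448) (dg x 384) (dg x 320) (dg x 256) (dg x 192) (dg x 128) (dg x 64)
    (Nat.land x 18446744073709551615) → Goal ε p

end Pool.Agent.H337_stamp.Check
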