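import Pool.Agent.H337_stamp.SStmts

/-! Soundness of the checker, from the lemmas stated in `SStmts`. -/

namespace Pool.Agent.H337_stamp.Check

variable {ε τ : ℝ} {p : Par}

theorem fz_eq (n : ℕ) (f : ℕ → Bool) : fz n f = f n := by cases n <;> rfl

theorem iteb_iff (b x y : Bool) : iteb b x y = true ↔ (b = true ∧ x = true) ∨ (b = false ∧ y = true) := by
  cases b <;> simp [iteb]

theorem iteb_tf (b x : Bool) : iteb b x false = true ↔ b = true ∧ x = true := by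
  cases b <;> simp [iteb]

theorem iteb_or (b x : Bool) : iteb b true x = true ↔ b = true ∨ x = true := by
  cases b <;> simp [iteb]

/-- a single vector as a path -/
theorem pathOK_single (hP : PathLemmas) {e : ℕ} (h : Cb ε τ p 1048576 e) : PathOK ε τ p e := by
  have h2 := hP.push ε τ p 0 e (hP.zero ε τ p) h
  have h3 : push 0 e = e := by
    have h4 : Nat.shiftLeft 0 704 = 0 := Nat.zero_shiftLeft 704
    show Nat.add (Nat.shiftLeft 0 704) e = e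
    rw [h4]
    exact Nat.zero_add e
  rwa [h3] at h2

theorem four_ok (hP : PathLemmas) {Kc s sX sY : ℕ} (h0 : Cb ε τ p 1048576 (eC Kc s sX sY))
    (h1 : Cb ε τ p 1048576 (Nat.sub K2 sX)) (h2 : Cb ε τ p 1048576 (Nat.sub K3 sY))
    (h3 : Cb ε τ p 1048576 (Nat.add K4 sX)) : PathOK ε τ p (four Kc s sX sY) := by
  have a3 := pathOK_single hP h3
  have a2 := hP.push ε τ p _ _ a3 h2
  have a1 := hP.push ε τ p _ _ a2 h1
  exact hP.push ε τ p _ _ a1 h0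

theorem ite_ok {b : Bool} {x y : ℕ} (hx : PathOK ε τ p x) (hy : PathOK ε τ p y) :
    PathOK ε τ p (ite' b x y) := by
  cases b
  · exact hy
  · exact hx

theorem pushes_ok (hP : PathLemmas) {P Kc s sX sY mask : ℕ} (hp : PathOK ε τ p P)
    (h0 : Cb ε τ p 1048576 (eC Kc s sX sY))
    (h1 : Cb ε τ p 1048576 (Nat.sub K2 sX)) (h2 : Cb ε τ p 1048576 (Nat.sub K3 sY))
    (h3 : Cb ε τ p 1048576 (Nat.add K4 sX)) : PathOK ε τ p (pushes P Kc s sX sY mask) := by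
  unfold pushes
  have a0 : PathOK ε τ p (ite' (Nat.beq (Nat.land mask (nat_lit 1)) (nat_lit 1)) (push P (eC Kc s sX sY)) P) :=
    ite_ok (hP.push ε τ p _ _ hp h0) hp
  have a1 := ite_ok (b := Nat.ble (nat_lit 2) (Nat.land mask (nat_lit 3))) (hP.push ε τ p _ _ a0 h1) a0
  have a2 := ite_ok (b := Nat.ble (nat_lit 4) (Nat.land mask (nat_lit 7))) (hP.push ε τ p _ _ a1 h2) a1
  have a3 := ite_ok (b := Nat.ble (nat_lit 8) mask) (hP.push ε τ p _ _ a2 h3) a2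
  exact a3

theorem leaf_aux {test : ℕ → ℕ → Bool} {E P n : ℕ} {k : ℕ → Bool}
    (h : leaf test E P n k = true) : ∃ w : ℕ,
    iteb (test (Nat.add (sm E (Nat.land (Nat.shiftRight w (nat_lit 3)) (nat_lit 7)) (Nat.shiftRight w (nat_lit 11)))
        (sm P (Nat.land (Nat.shiftRight w (nat_lit 6)) (nat_lit 31))
          (Nat.shiftRight w (Nat.add (nat_lit 11) (Nat.mul (nat_lit 36) (Nat.land (Nat.shiftRight w (nat_lit 3)) (nat_lit 7)))))))
      (Nat.shiftRight (Nat.add (sm E (Nat.land (Nat.shiftRight w (nat_lit 3)) (nat_lit 7)) (Nat.shiftRight w (nat_lit 11)))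
        (sm P (Nat.land (Nat.shiftRight w (nat_lit 6)) (nat_lit 31))
          (Nat.shiftRight w (Nat.add (nat_lit 11) (Nat.mul (nat_lit 36) (Nat.land (Nat.shiftRight w (nat_lit 3)) (nat_lit 7)))))))
        (nat_lit 640)))
      (k (Nat.shiftRight n (Nat.add (nat_lit 11) (Nat.mul (nat_lit 36)
        (Nat.add (Nat.land (Nat.shiftRight w (nat_lit 3)) (nat_lit 7)) (Nat.land (Nat.shiftRight w (nat_lit 6)) (nat_lit 31))))))) false = true :=
  ⟨Nat.land n (nat_lit 1552518092300708935148979488462502555256886017116696611139052038026050952686376886330878408828646477950487730697131073206171580044114814391444287275041181139204454976020849905550265285631598444825262999193716468750892846853816057855), h⟩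

/-- the combination of a leaf -/
theorem leaf_snd (hP : PathLemmas) {test : ℕ → ℕ → Bool} {E P n : ℕ} {k : ℕ → Bool}
    (h : leaf test E P n k = true) :
    (∃ n', k n' = true) ∧ (PathOK ε τ p E → PathOK ε τ p P →
      ∃ S, Cb ε τ p (2 ^ 55) S ∧ test S (Nat.shiftRight S 640) = true) := by
  obtain ⟨w, h⟩ := leaf_aux h
  have h' := (iteb_tf _ _).1 h
  refine ⟨⟨_, h'.2⟩, fun hE hp => ⟨_, ?_, h'.1⟩⟩
  have a1 := hP.sm ε τ p E (Nat.land (Nat.shiftRight w (nat_lit 3)) (nat_lit 7)) (Nat.shiftRight w (nat_lit 11)) hE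
  have a2 := hP.sm ε τ p P (Nat.land (Nat.shiftRight w (nat_lit 6)) (nat_lit 31))
    (Nat.shiftRight w (Nat.add (nat_lit 11) (Nat.mul (nat_lit 36) (Nat.land (Nat.shiftRight w (nat_lit 3)) (nat_lit 7))))) hp
  refine hP.mono ε τ p _ _ _ (hP.add ε τ p _ _ _ _ a1 a2) ?_
  have c1 : Nat.land (Nat.shiftRight w (nat_lit 3)) (nat_lit 7) ≤ 7 := Nat.and_le_right
  have c2 : Nat.land (Nat.shiftRight w (nat_lit 6)) (nat_lit 31) ≤ 31 := Nat.and_le_right
  have d1 := Nat.mul_le_mul_right (2 ^ 49) c1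
  have d2 := Nat.mul_le_mul_right (2 ^ 49) c2
  exact le_trans (Nat.add_le_add d1 d2) (by norm_num)

theorem digits_of_cb (hN : DigitLemmas) {S : ℕ} (h : Cb ε τ p (2 ^ 55) S) :
    ∃ d0 d1 d2 d3 d4 d5 d6 d7 κ σ T : ℕ, κ ≤ 2 ^ 55 ∧ Ineq ε τ p d0 d1 d2 d3 d4 d5 d6 d7 κ σ T ∧
      (Nat.shiftRight S 640 = T ∧ dg S 192 = d3 ∧ dg S 256 = d4 ∧ dg S 320 = d5 ∧ dg S 384 = d6 ∧ dg S 448 = d7 ∧
      (low3 S T = true → T ≤ d0 ∧ T ≤ d1 ∧ T ≤ d2) ∧
      (low8 S T = true → T ≤ d0 ∧ T ≤ d1 ∧ T ≤ d2 ∧ T ≤ d3 ∧ T ≤ d4 ∧ T ≤ d5 ∧ T ≤ d6 ∧ T ≤ d7) ∧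
      (posc S T = true → (T < d3 ∨ T < d4 ∨ T < d5 ∨ T < d6 ∨ T < d7) ∨ (κ = 0 ∧ 1 ≤ σ))) := by
  obtain ⟨d0, d1, d2, d3, d4, d5, d6, d7, κ, σ, T, ⟨b0, b1, b2, b3, b4, b5, b6, b7, bκ, bσ, bT⟩, hS, hI⟩ := h
  have hh := hN.top d0 d1 d2 d3 d4 d5 d6 d7 κ σ T b0 b1 b2 b3 b4 b5 b6 b7 bκ bσ bT
  rw [← hS] at hh
  exact ⟨d0, d1, d2, d3, d4, d5, d6, d7, κ, σ, T, bκ, hI, hh⟩

theorem amgm_le {S T a b x y z : ℕ} (hx : dg S (nat_lit 192) = x) (hy : dg S (nat_lit 256) = y)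
    (hz : dg S (nat_lit 320) = z) (h : amgm S T a b = true) :
    125 * (T + T - (a + b) + 1) ^ 4 ≤ 251 * ((T - a) * (x - T) * ((y - T) * (z - T))) := by
  unfold amgm at h
  rw [hx, hy, hz] at h
  have h2 := Nat.le_of_ble_eq_true h
  exact h2

theorem testA_snd (hN : DigitLemmas) (hA : LeafReal) (hc : Ctx ε τ p) {S : ℕ} (h : Cb ε τ p (2 ^ 55) S)
    (ht : testA S (Nat.shiftRight S 640) = true) : False := by
  obtain ⟨d0, d1, d2, d3, d4, d5, d6, d7, κ, σ, T, bκ, hI, e1, e2, e3, e4, e5, e6, e7, -, -⟩ := digits_of_cb hN h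
  rw [e1] at ht
  have ht' := (iteb_tf _ _).1 ht
  obtain ⟨f0, f1, f2⟩ := e7 ht'.1
  have h3 := amgm_le e2 e3 e4 ht'.2
  rw [show dg S (nat_lit 384) = d6 from e5, show dg S (nat_lit 448) = d7 from e6] at h3
  exact hA.am ε τ p hc d0 d1 d2 d3 d4 d5 d6 d7 κ σ T bκ hI f0 f1 f2 h3

theorem testS_snd (hN : DigitLemmas) (hA : LeafReal) (hc : Ctx ε τ p) {S : ℕ} (h : Cb ε τ p (2 ^ 55) S)
    (ht : testS S (Nat.shiftRight S 640) = true) : False := by
  obtain ⟨d0, d1, d2, d3, d4, d5, d6, d7, κ, σ, T, bκ, hI, e1, -, -, -, -, -, -, e8, e9⟩ := digits_of_cb hN h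
  rw [e1] at ht
  have ht' := (iteb_tf _ _).1 ht
  obtain ⟨f0, f1, f2, f3, f4, f5, f6, f7⟩ := e8 ht'.1
  exact hA.inf ε τ p hc d0 d1 d2 d3 d4 d5 d6 d7 κ σ T bκ hI f0 f1 f2 f3 f4 f5 f6 f7 (e9 ht'.2)

theorem leafA_snd (hN : DigitLemmas) (hP : PathLemmas) (hA : LeafReal) (hc : Ctx ε τ p)
    {E P n : ℕ} {k : ℕ → Bool} (h : leaf testA E P n k = true) :
    (∃ n', k n' = true) ∧ (PathOK ε τ p E → PathOK ε τ p P → False) := by
  obtain ⟨h1, h2⟩ := leaf_snd (ε := ε) (τ := τ) (p := p) hP h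
  refine ⟨h1, fun hE hp => ?_⟩
  obtain ⟨S, hS, ht⟩ := h2 hE hp
  exact testA_snd hN hA hc hS ht

theorem leafS_snd (hN : DigitLemmas) (hP : PathLemmas) (hA : LeafReal) (hc : Ctx ε τ p)
    {E P n : ℕ} {k : ℕ → Bool} (h : leaf testS E P n k = true) :
    (∃ n', k n' = true) ∧ (PathOK ε τ p E → PathOK ε τ p P → False) := by
  obtain ⟨h1, h2⟩ := leaf_snd (ε := ε) (τ := τ) (p := p) hP h
  refine ⟨h1, fun hE hp => ?_⟩
  obtain ⟨S, hS, ht⟩ := h2 hE hp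
  exact testS_snd hN hA hc hS ht

/-- soundness of a checker with fixed box, for the aim `A` -/
def Snd1 (ε τ : ℝ) (p : Par) (A : Prop) (chk : ℕ → ℕ → (ℕ → Bool) → Bool) : Prop :=
  ∀ P n k, chk P n k = true → (∃ n', k n' = true) ∧ (PathOK ε τ p P → A)

theorem cand_snd (hN : DigitLemmas) (hP : PathLemmas) (hA : LeafReal) (hc : Ctx ε τ p) {A : Prop}
    {chk : ℕ → ℕ → (ℕ → Bool) → Bool} (hchk : Snd1 ε τ p A chk)
    {P Kc a b s ρ r v n : ℕ} {k : ℕ → Bool} (h : cand chk P Kc a b s ρ r v n k = true) :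
    (∃ n', k n' = true) ∧ (PathOK ε τ p P → Cb ε τ p 1048576 (eC Kc s (fX s a r v) (fY s b ρ)) →
      Cb ε τ p 1048576 (Nat.sub K2 (fX s a r v)) → Cb ε τ p 1048576 (Nat.sub K3 (fY s b ρ)) →
      Cb ε τ p 1048576 (Nat.add K4 (fX s a r v)) → A) := by
  unfold cand at h
  rcases (iteb_iff _ _ _).1 h with ⟨-, h⟩ | ⟨-, h⟩
  · have h' := leafS_snd hN hP hA hc h
    exact ⟨h'.1, fun hp h0 h1 h2 h3 => (h'.2 (four_ok hP h0 h1 h2 h3) hp).elim⟩
  · rcases (iteb_iff _ _ _).1 h with ⟨-, h⟩ | ⟨-, h⟩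
    · have h' := leafA_snd hN hP hA hc h
      exact ⟨h'.1, fun hp h0 h1 h2 h3 => (h'.2 (four_ok hP h0 h1 h2 h3) hp).elim⟩
    · have h' := hchk _ _ _ h
      exact ⟨h'.1, fun hp h0 h1 h2 h3 => h'.2 (pushes_ok hP hp h0 h1 h2 h3)⟩

theorem loopV_snd {cd : ℕ → ℕ → (ℕ → Bool) → Bool} (hcd : ∀ v n k, cd v n k = true → ∃ n', k n' = true)
    (cnt : ℕ) : ∀ v n k, loopV cd cnt v n k = true → (∃ n', k n' = true) ∧
      ∀ v', v ≤ v' → v' < v + cnt → ∃ n' k', cd v' n' k' = true := by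
  induction cnt with
  | zero =>
    intro v n k h
    exact ⟨⟨n, h⟩, fun v' h1 h2 => absurd h2 (by omega)⟩
  | succ c ih =>
    intro v n k h
    have h1 : cd v n (fun n' => loopV cd c (Nat.succ v) n' k) = true := h
    obtain ⟨n', hn'⟩ := hcd _ _ _ h1
    obtain ⟨i1, i2⟩ := ih _ _ _ hn'
    refine ⟨i1, fun v' a1 a2 => ?_⟩
    rcases Nat.eq_or_lt_of_le a1 with e | e
    · subst e; exact ⟨_, _, h1⟩
    · exact i2 v' e (by omega)

theorem loopR_snd {chk : ℕ → ℕ → (ℕ → Bool) → Bool} {P u1 u2 w1 w2 y1 y2 gm bm dm am : ℕ} {two : Bool}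
    {Kc a b t s : ℕ}
    (hcd : ∀ ρ r v n k, cand chk P Kc a b s ρ r v n k = true → ∃ n', k n' = true) (fuel : ℕ) :
    ∀ ρ n k, loopR chk P u1 u2 w1 w2 y1 y2 gm bm dm am two Kc a b t s fuel ρ n k = true →
      (∃ n', k n' = true) ∧ ∀ ρ', ρ ≤ ρ' →
        (∃ ρ0, ρ0 ≤ ρ' ∧ cost two gm bm dm am s 0 (lowY y1 y2 b s ρ0) = true) ∨ (s = b ∧ ρ' = 256) ∨
        (ρ' < ρ + fuel ∧ ∃ vlo cnt n' k', vlo ≤ 1023 ∧ cnt ≤ 31 ∧
          okLo w1 w2 u1 u2 a s (ρ' + 256 - t) vlo = true ∧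
          (5041 ≤ lowX w1 w2 u1 u2 a s (ρ' + 256 - t) (vlo + cnt) ∨
            cost two gm bm dm am s (lowX w1 w2 u1 u2 a s (ρ' + 256 - t) (vlo + cnt)) (lowY y1 y2 b s ρ') = true) ∧
          loopV (cand chk P Kc a b s ρ' (ρ' + 256 - t)) cnt vlo n' k' = true) := by
  induction fuel with
  | zero => intro ρ n k h; exact absurd h (by simp [loopR])
  | succ f ih =>
    intro ρ n k h
    have h1 : iteb (cost two gm bm dm am s (nat_lit 0) (lowY y1 y2 b s ρ))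
        (k n)
        (iteb (iteb (Nat.beq s b) (Nat.beq ρ (nat_lit 256)) false)
          (loopR chk P u1 u2 w1 w2 y1 y2 gm bm dm am two Kc a b t s f (Nat.succ ρ) n k)
          (iteb (okLo w1 w2 u1 u2 a s (Nat.sub (Nat.add ρ (nat_lit 256)) t) (Nat.land n (nat_lit 1023)))
            (iteb (iteb (Nat.ble (nat_lit 5041) (lowX w1 w2 u1 u2 a s (Nat.sub (Nat.add ρ (nat_lit 256)) t)
                  (Nat.add (Nat.land n (nat_lit 1023)) (Nat.land (Nat.shiftRight n (nat_lit 10)) (nat_lit 31))))) true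
                (cost two gm bm dm am s (lowX w1 w2 u1 u2 a s (Nat.sub (Nat.add ρ (nat_lit 256)) t)
                  (Nat.add (Nat.land n (nat_lit 1023)) (Nat.land (Nat.shiftRight n (nat_lit 10)) (nat_lit 31))))
                  (lowY y1 y2 b s ρ)))
             (loopV (cand chk P Kc a b s ρ (Nat.sub (Nat.add ρ (nat_lit 256)) t))
               (Nat.land (Nat.shiftRight n (nat_lit 10)) (nat_lit 31)) (Nat.land n (nat_lit 1023))
               (Nat.shiftRight n (nat_lit 15))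
               (fun n' => loopR chk P u1 u2 w1 w2 y1 y2 gm bm dm am two Kc a b t s f (Nat.succ ρ) n' k))
             false) false)) = true := h
    rcases (iteb_iff _ _ _).1 h1 with ⟨hc, hk⟩ | ⟨-, h2⟩
    · exact ⟨⟨_, hk⟩, fun ρ' hρ => Or.inl ⟨ρ, hρ, hc⟩⟩
    rcases (iteb_iff _ _ _).1 h2 with ⟨he, hk⟩ | ⟨-, h3⟩
    · have he' := (iteb_tf _ _).1 he
      have es : s = b := Nat.eq_of_beq_eq_true he'.1
      have er : ρ = 256 := Nat.eq_of_beq_eq_true he'.2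
      obtain ⟨i1, i2⟩ := ih _ _ _ hk
      refine ⟨i1, fun ρ' hρ => ?_⟩
      rcases Nat.eq_or_lt_of_le hρ with e | e
      · exact Or.inr (Or.inl ⟨es, by omega⟩)
      · rcases i2 ρ' e with j | j | ⟨j1, j2⟩
        · exact Or.inl j
        · exact Or.inr (Or.inl j)
        · exact Or.inr (Or.inr ⟨by omega, j2⟩)
    · obtain ⟨h4, h5⟩ := (iteb_tf _ _).1 h3
      obtain ⟨h6, h7⟩ := (iteb_tf _ _).1 h5
      have h8 := (iteb_or _ _).1 h6
      obtain ⟨⟨n', hn'⟩, -⟩ := loopV_snd (hcd ρ _) _ _ _ _ h7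
      obtain ⟨i1, i2⟩ := ih _ _ _ hn'
      refine ⟨i1, fun ρ' hρ => ?_⟩
      rcases Nat.eq_or_lt_of_le hρ with e | e
      · subst e
        refine Or.inr (Or.inr ⟨by omega, Nat.land n 1023, Nat.land (Nat.shiftRight n 10) 31, _, _,
          Nat.and_le_right, Nat.and_le_right, h4, ?_, h7⟩)
        rcases h8 with h8 | h8
        · exact Or.inl (Nat.le_of_ble_eq_true h8)
        · exact Or.inr h8
      · rcases i2 ρ' e with j | j | ⟨j1, j2⟩
        · exact Or.inl j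
        · exact Or.inr (Or.inl j)
        · exact Or.inr (Or.inr ⟨by omega, j2⟩)

theorem loopS_snd {chk : ℕ → ℕ → (ℕ → Bool) → Bool} {P u1 u2 w1 w2 y1 y2 gm bm dm am : ℕ} {two : Bool}
    {Kc a b t : ℕ}
    (hcd : ∀ s ρ r v n k, cand chk P Kc a b s ρ r v n k = true → ∃ n', k n' = true) (fuel : ℕ) :
    ∀ s n k, loopS chk P u1 u2 w1 w2 y1 y2 gm bm dm am two Kc a b t fuel s n k = true →
      (∃ n', k n' = true) ∧ ∀ s', s ≤ s' →
        (∃ s0, s0 ≤ s' ∧ iteb two (Nat.ble 1 s0) (Nat.ble 5041 (Nat.mul (Nat.succ s0) gm)) = true) ∨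
        (s' < s + fuel ∧ ∃ ρlo n' k', ρlo ≤ 1023 ∧
          Nat.ble (Nat.add (Nat.mul (Nat.sub s' b) y2) (Nat.mul 5040 ρlo))
            (Nat.add (Nat.mul (Nat.sub b s') y1) 1295280) = true ∧
          loopR chk P u1 u2 w1 w2 y1 y2 gm bm dm am two Kc a b t s' 200 ρlo n' k' = true) := by
  induction fuel with
  | zero => intro s n k h; exact absurd h (by simp [loopS])
  | succ f ih =>
    intro s n k h
    have h0 : fz s (fun s =>
      iteb (iteb two (Nat.ble (nat_lit 1) s) (Nat.ble (nat_lit 5041) (Nat.mul (Nat.succ s) gm)))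
        (k n)
        (iteb (Nat.ble (Nat.add (Nat.mul (Nat.sub s b) y2) (Nat.mul (nat_lit 5040) (Nat.land n (nat_lit 1023))))
            (Nat.add (Nat.mul (Nat.sub b s) y1) (nat_lit 1295280)))
           (loopR chk P u1 u2 w1 w2 y1 y2 gm bm dm am two Kc a b t s (nat_lit 200) (Nat.land n (nat_lit 1023))
             (Nat.shiftRight n (nat_lit 10))
             (fun n' => loopS chk P u1 u2 w1 w2 y1 y2 gm bm dm am two Kc a b t f (Nat.succ s) n' k)) false)) = true := h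
    rw [fz_eq] at h0
    rcases (iteb_iff _ _ _).1 h0 with ⟨hc, hk⟩ | ⟨-, h2⟩
    · exact ⟨⟨_, hk⟩, fun s' hs => Or.inl ⟨s, hs, hc⟩⟩
    obtain ⟨h3, h4⟩ := (iteb_tf _ _).1 h2
    obtain ⟨⟨n', hn'⟩, -⟩ := loopR_snd (hcd s) _ _ _ _ h4
    obtain ⟨i1, i2⟩ := ih _ _ _ hn'
    refine ⟨i1, fun s' hs => ?_⟩
    rcases Nat.eq_or_lt_of_le hs with e | e
    · subst e
      exact Or.inr ⟨by omega, Nat.land n 1023, _, _, Nat.and_le_right, h3, h4⟩
    · rcases i2 s' e with j | ⟨j1, j2⟩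
      · exact Or.inl j
      · exact Or.inr ⟨by omega, j2⟩

end Pool.Agent.H337_stamp.Check
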