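import Pool.Agent.H337_stamp.STest

/-! Soundness of one step of the checker, and of the checker. -/

namespace Pool.Agent.H337_stamp.Check

variable {ε τ : ℝ} {p : Par}

/-- soundness of a full checker -/
def Snd (ε τ : ℝ) (p : Par) (chk : Chk) : Prop :=
  ∀ P u1 u2 w1 w2 y1 y2 gm bm dm am n k, chk P u1 u2 w1 w2 y1 y2 gm bm dm am n k = true →
    (∃ n', k n' = true) ∧ (PathOK ε τ p P → BoxOK p u1 u2 w1 w2 y1 y2 gm bm dm am → Goal ε p)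

/-- two children: if one of them applies, we are done -/
theorem two_snd {chk : Chk} (hchk : Snd ε τ p chk)
    {P1 u1 u2 w1 w2 y1 y2 gm bm dm am P2 v1 v2 x1 x2 z1 z2 gm' bm' dm' am' n : ℕ} {c : ℕ → Bool}
    (h : chk P1 u1 u2 w1 w2 y1 y2 gm bm dm am n (fun n' => chk P2 v1 v2 x1 x2 z1 z2 gm' bm' dm' am' n' c) = true) :
    (∃ n', c n' = true) ∧ ((PathOK ε τ p P1 ∧ BoxOK p u1 u2 w1 w2 y1 y2 gm bm dm am) ∨
      (PathOK ε τ p P2 ∧ BoxOK p v1 v2 x1 x2 z1 z2 gm' bm' dm' am') → Goal ε p) := by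
  obtain ⟨⟨n', h1⟩, h2⟩ := hchk _ _ _ _ _ _ _ _ _ _ _ _ _ h
  obtain ⟨h3, h4⟩ := hchk _ _ _ _ _ _ _ _ _ _ _ _ _ h1
  refine ⟨h3, ?_⟩
  rintro (⟨a, b⟩ | ⟨a, b⟩)
  · exact h2 a b
  · exact h4 a b

theorem boxsplit_snd (hP : PathLemmas) (hB : SplitLemmas) {chk : Chk} (hchk : Snd ε τ p chk)
    {P u1 u2 w1 w2 y1 y2 gm bm dm am n : ℕ} {c : ℕ → Bool}
    (h : boxsplit chk P u1 u2 w1 w2 y1 y2 gm bm dm am n c = true) :
    (∃ n', c n' = true) ∧ (PathOK ε τ p P → BoxOK p u1 u2 w1 w2 y1 y2 gm bm dm am → Goal ε p) := by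
  unfold boxsplit at h
  rw [fz_eq] at h
  obtain ⟨m, hm⟩ : ∃ m, m = Nat.land (Nat.shiftRight n (nat_lit 3)) (nat_lit 262143) := ⟨_, rfl⟩
  rw [← hm] at h
  beta_reduce at h
  rw [fz_eq] at h
  have hm' : m ≤ 262143 := by rw [hm]; exact Nat.and_le_right
  clear hm
  rcases (iteb_iff _ _ _).1 h with ⟨-, h⟩ | ⟨-, h⟩
  · obtain ⟨h1, h2⟩ := two_snd hchk h
    refine ⟨h1, fun hp hb => h2 ?_⟩
    rcases le_total (5040 * p.b1) (m * p.al) with q | q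
    · exact Or.inl ⟨hP.push _ _ _ _ _ hp (hB.le03 _ _ _ m hm' q), { hb with u2 := q }⟩
    · exact Or.inr ⟨hP.push _ _ _ _ _ hp (hB.ge03 _ _ _ m hm' q), { hb with u1 := q }⟩
  rcases (iteb_iff _ _ _).1 h with ⟨-, h⟩ | ⟨-, h⟩
  · obtain ⟨h1, h2⟩ := two_snd hchk h
    refine ⟨h1, fun hp hb => h2 ?_⟩
    rcases le_total (5040 * p.g1) (m * p.al) with q | q
    · exact Or.inl ⟨hP.push _ _ _ _ _ hp (hB.le13 _ _ _ m hm' q), { hb with w2 := q }⟩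
    · exact Or.inr ⟨hP.push _ _ _ _ _ hp (hB.ge13 _ _ _ m hm' q), { hb with w1 := q }⟩
  rcases (iteb_iff _ _ _).1 h with ⟨-, h⟩ | ⟨-, h⟩
  · obtain ⟨h1, h2⟩ := two_snd hchk h
    refine ⟨h1, fun hp hb => h2 ?_⟩
    rcases le_total (5040 * p.g2) (m * p.be) with q | q
    · exact Or.inl ⟨hP.push _ _ _ _ _ hp (hB.le24 _ _ _ m hm' q), { hb with y2 := q }⟩
    · exact Or.inr ⟨hP.push _ _ _ _ _ hp (hB.ge24 _ _ _ m hm' q), { hb with y1 := q }⟩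
  rcases (iteb_iff _ _ _).1 h with ⟨-, h⟩ | ⟨-, h⟩
  · obtain ⟨h1, h2⟩ := two_snd hchk h
    refine ⟨h1, fun hp hb => h2 ?_⟩
    rcases le_total (5040 * p.g3) (m * p.D) with q | q
    · exact Or.inl ⟨hP.push _ _ _ _ _ hp (hB.le56 _ _ _ m hm' q), hb⟩
    · exact Or.inr ⟨hP.push _ _ _ _ _ hp (hB.ge56 _ _ _ m hm' q), { hb with gm := q }⟩
  rcases (iteb_iff _ _ _).1 h with ⟨-, h⟩ | ⟨-, h⟩
  · obtain ⟨h1, h2⟩ := two_snd hchk h
    refine ⟨h1, fun hp hb => h2 ?_⟩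
    rcases le_total (5040 * p.be) (m * p.D) with q | q
    · exact Or.inl ⟨hP.push _ _ _ _ _ hp (hB.le46 _ _ _ m hm' q), hb⟩
    · exact Or.inr ⟨hP.push _ _ _ _ _ hp (hB.ge46 _ _ _ m hm' q), { hb with bm := q }⟩
  rcases (iteb_iff _ _ _).1 h with ⟨-, h⟩ | ⟨-, h⟩
  · obtain ⟨h1, h2⟩ := two_snd hchk h
    refine ⟨h1, fun hp hb => h2 ?_⟩
    rcases le_total (5040 * p.al) (m * p.D) with q | q
    · exact Or.inl ⟨hP.push _ _ _ _ _ hp (hB.le36 _ _ _ m hm' q), hb⟩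
    · exact Or.inr ⟨hP.push _ _ _ _ _ hp (hB.ge36 _ _ _ m hm' q), { hb with am := q }⟩
  obtain ⟨-, h⟩ := (iteb_tf _ _).1 h
  obtain ⟨h1, h2⟩ := two_snd hchk h
  refine ⟨h1, fun hp hb => h2 ?_⟩
  rcases le_total (5040 * p.D) m with q | q
  · exact Or.inl ⟨hP.push _ _ _ _ _ hp (hB.le67 _ _ _ m hm' q), hb⟩
  · exact Or.inr ⟨hP.push _ _ _ _ _ hp (hB.ge67 _ _ _ m hm' q), { hb with dm := q }⟩

theorem linsplit_snd (hP : PathLemmas) (hB : SplitLemmas) {A : Prop} {chk : ℕ → ℕ → (ℕ → Bool) → Bool}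
    (hchk : Snd1 ε τ p A chk) {P n : ℕ} {c : ℕ → Bool} (h : linsplit chk P n c = true) :
    (∃ n', c n' = true) ∧ (PathOK ε τ p P → A) := by
  unfold linsplit at h
  rw [fz_eq] at h
  obtain ⟨⟨n', h1⟩, h2⟩ := hchk _ _ _ h
  obtain ⟨h3, h4⟩ := hchk _ _ _ h1
  refine ⟨h3, fun hp => ?_⟩
  have hl : ∀ x : ℕ, Nat.land x 511 ≤ 511 := fun x => Nat.and_le_right
  rcases le_total ((((Nat.land n 511 : ℕ) : ℝ) - 256) * p.b1 + (((Nat.land (Nat.shiftRight n 9) 511 : ℕ) : ℝ) - 256) * p.g1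
    + (((Nat.land (Nat.shiftRight n 18) 511 : ℕ) : ℝ) - 256) * p.g2
    + (((Nat.land (Nat.shiftRight n 27) 511 : ℕ) : ℝ) - 256) * p.al
    + (((Nat.land (Nat.shiftRight n 36) 511 : ℕ) : ℝ) - 256) * p.be) 0 with q | q
  · exact h2 (hP.push _ _ _ _ _ hp (hB.linL ε τ p _ _ _ _ _ (hl _) (hl _) (hl _) (hl _) (hl _) q))
  · exact h4 (hP.push _ _ _ _ _ hp (hB.linR ε τ p _ _ _ _ _ (hl _) (hl _) (hl _) (hl _) (hl _) q))

theorem special_snd {A : Prop} {P c0 c1 c2 c3 c4 n : ℕ} {k : ℕ → Bool}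
    (hA : Cb ε τ p 1048576 c0 → Cb ε τ p 1048576 c1 → Cb ε τ p 1048576 c2 → Cb ε τ p 1048576 c3 →
      Cb ε τ p 1048576 c4 → A)
    (h : special P c0 c1 c2 c3 c4 n k = true) :
    (∃ n', k n' = true) ∧ (PathOK ε τ p P → A) := by
  unfold special at h
  obtain ⟨h0, h⟩ := (iteb_tf _ _).1 h
  obtain ⟨h1, h⟩ := (iteb_tf _ _).1 h
  obtain ⟨h2, h⟩ := (iteb_tf _ _).1 h
  obtain ⟨h3, h⟩ := (iteb_tf _ _).1 h
  obtain ⟨h4, h⟩ := (iteb_tf _ _).1 h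
  refine ⟨⟨_, h⟩, fun hp => ?_⟩
  have e0 := Nat.eq_of_beq_eq_true h0
  have e1 := Nat.eq_of_beq_eq_true h1
  have e2 := Nat.eq_of_beq_eq_true h2
  have e3 := Nat.eq_of_beq_eq_true h3
  have e4 := Nat.eq_of_beq_eq_true h4
  exact hA (e0 ▸ hp _) (e1 ▸ hp _) (e2 ▸ hp _) (e3 ▸ hp _) (e4 ▸ hp _)

theorem collect_snd (hP : PathLemmas) {P : ℕ} {cont : ℕ → ℕ → Bool} (k : ℕ) :
    ∀ P' n, collect P cont k P' n = true →
      ∃ P'' n', cont P'' n' = true ∧ (PathOK ε τ p P → PathOK ε τ p P' → PathOK ε τ p P'') := by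
  induction k with
  | zero => intro P' n h; exact ⟨P', n, h, fun _ h => h⟩
  | succ k ih =>
    intro P' n h
    have h1 : collect P cont k (push P' (slot P (Nat.land n 127))) (Nat.shiftRight n 7) = true := h
    obtain ⟨P'', n', h2, h3⟩ := ih _ _ h1
    exact ⟨P'', n', h2, fun hp hp' => h3 hp (hP.push _ _ _ _ _ hp' (hp _))⟩

theorem refk_snd (hP : PathLemmas) (hc : Ctx ε τ p) {known : ℕ → ℕ} (hk : ∀ j, known j ≠ 0 → Good (known j))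
    {P u1 u2 w1 w2 y1 y2 gm bm dm am n : ℕ} {k : ℕ → Bool}
    (h : refk known P u1 u2 w1 w2 y1 y2 gm bm dm am n k = true) :
    (∃ n', k n' = true) ∧ (PathOK ε τ p P → BoxOK p u1 u2 w1 w2 y1 y2 gm bm dm am → Goal ε p) := by
  unfold refk at h
  obtain ⟨P'', n', h, hp''⟩ := collect_snd (ε := ε) (τ := τ) (p := p) hP _ _ _ h
  simp only [fz_eq] at h
  obtain ⟨x, hx⟩ : ∃ x, x = known (Nat.land n (nat_lit 4095)) := ⟨_, rfl⟩
  rw [← hx] at h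
  rcases (iteb_iff _ _ _).1 h with ⟨-, h⟩ | ⟨h0, h⟩
  · exact absurd h (by simp)
  obtain ⟨i0, h⟩ := (iteb_tf _ _).1 h
  obtain ⟨i1, h⟩ := (iteb_tf _ _).1 h
  obtain ⟨i2, h⟩ := (iteb_tf _ _).1 h
  obtain ⟨i3, h⟩ := (iteb_tf _ _).1 h
  obtain ⟨i4, h⟩ := (iteb_tf _ _).1 h
  obtain ⟨i5, h⟩ := (iteb_tf _ _).1 h
  obtain ⟨i6, h⟩ := (iteb_tf _ _).1 h
  obtain ⟨i7, h⟩ := (iteb_tf _ _).1 h
  obtain ⟨i8, h⟩ := (iteb_tf _ _).1 h
  obtain ⟨i9, h⟩ := (iteb_tf _ _).1 h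
  obtain ⟨i10, h⟩ := (iteb_tf _ _).1 h
  refine ⟨⟨_, h⟩, fun hp hb => ?_⟩
  have e0 := Nat.eq_of_beq_eq_true i0
  have e1 := Nat.eq_of_beq_eq_true i1
  have e2 := Nat.eq_of_beq_eq_true i2
  have e3 := Nat.eq_of_beq_eq_true i3
  have e4 := Nat.eq_of_beq_eq_true i4
  have e5 := Nat.eq_of_beq_eq_true i5
  have e6 := Nat.eq_of_beq_eq_true i6
  have e7 := Nat.eq_of_beq_eq_true i7
  have e8 := Nat.eq_of_beq_eq_true i8
  have e9 := Nat.eq_of_beq_eq_true i9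
  have e10 := Nat.eq_of_beq_eq_true i10
  have hne : x ≠ 0 := by
    intro hx0
    rw [hx0] at h0
    exact absurd h0 (by decide)
  have hG : Good x := by rw [hx]; rw [hx] at hne; exact hk _ hne
  have hpp := hp'' hp (hP.zero ε τ p)
  rw [e0] at hpp
  rw [e1, e2, e3, e4, e5, e6, e7, e8, e9, e10] at hb
  exact hG ε τ p hc hpp hb

theorem step_snd (hN : DigitLemmas) (hP : PathLemmas) (hA : LeafReal) (hC : CandLemmas) (hV : RangeLemmas)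
    (hB : SplitLemmas) (hc : Ctx ε τ p) {known : ℕ → ℕ} (hk : ∀ j, known j ≠ 0 → Good (known j))
    {chk : Chk} (hchk : Snd ε τ p chk) : Snd ε τ p (step known chk) := by
  intro P u1 u2 w1 w2 y1 y2 gm bm dm am n k h
  unfold step at h
  rw [fz_eq, fz_eq] at h
  have hs1 : Snd1 ε τ p (BoxOK p u1 u2 w1 w2 y1 y2 gm bm dm am → Goal ε p)
      (fun P n k => chk P u1 u2 w1 w2 y1 y2 gm bm dm am n k) :=
    fun P n k h => hchk _ _ _ _ _ _ _ _ _ _ _ _ _ h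
  rcases (iteb_iff _ _ _).1 h with ⟨-, h⟩ | ⟨-, h⟩
  · obtain ⟨h1, h2⟩ := test_snd hN hP hA hC hV hc hs1 h
    exact ⟨h1, fun hp hb => h2 hp hb hb⟩
  rcases (iteb_iff _ _ _).1 h with ⟨-, h⟩ | ⟨-, h⟩
  · obtain ⟨h1, h2⟩ := leafS_snd hN hP hA hc h
    exact ⟨h1, fun hp hb => (h2 (hP.zero ε τ p) hp).elim⟩
  rcases (iteb_iff _ _ _).1 h with ⟨-, h⟩ | ⟨-, h⟩
  · exact boxsplit_snd hP hB hchk h
  rcases (iteb_iff _ _ _).1 h with ⟨-, h⟩ | ⟨-, h⟩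
  · obtain ⟨h1, h2⟩ := leafA_snd hN hP hA hc h
    exact ⟨h1, fun hp hb => (h2 (hP.zero ε τ p) hp).elim⟩
  rcases (iteb_iff _ _ _).1 h with ⟨-, h⟩ | ⟨-, h⟩
  · exact refk_snd hP hc hk h
  rcases (iteb_iff _ _ _).1 h with ⟨-, h⟩ | ⟨-, h⟩
  · obtain ⟨h1, h2⟩ := linsplit_snd hP hB hs1 h
    exact ⟨h1, h2⟩
  rcases (iteb_iff _ _ _).1 h with ⟨-, h⟩ | ⟨-, h⟩
  · obtain ⟨h1, h2⟩ := special_snd (ε := ε) (τ := τ) (p := p) (A := Goal ε p)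
      (fun a b c d e => Or.inl (hB.sp1 ε τ p a b c d e)) h
    exact ⟨h1, fun hp _ => h2 hp⟩
  · obtain ⟨h1, h2⟩ := special_snd (ε := ε) (τ := τ) (p := p) (A := Goal ε p)
      (fun a b c d e => Or.inr (hB.sp2 ε τ p a b c d e)) h
    exact ⟨h1, fun hp _ => h2 hp⟩

theorem check_snd (hN : DigitLemmas) (hP : PathLemmas) (hA : LeafReal) (hC : CandLemmas) (hV : RangeLemmas)
    (hB : SplitLemmas) (hc : Ctx ε τ p) {known : ℕ → ℕ} (hk : ∀ j, known j ≠ 0 → Good (known j))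
    (fuel : ℕ) : Snd ε τ p (check known fuel) := by
  induction fuel with
  | zero => intro P u1 u2 w1 w2 y1 y2 gm bm dm am n k h; exact absurd h (by simp [check])
  | succ f ih => exact step_snd hN hP hA hC hV hB hc hk ih

theorem checkSt_snd (hN : DigitLemmas) (hP : PathLemmas) (hA : LeafReal) (hC : CandLemmas) (hV : RangeLemmas)
    (hB : SplitLemmas) {known : ℕ → ℕ} (hk : ∀ j, known j ≠ 0 → Good (known j))
    {fuel x n : ℕ} (h : checkSt known fuel x n = true) : Good x := by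
  intro ε τ p hc hp hb
  exact ((check_snd hN hP hA hC hV hB hc hk fuel) _ _ _ _ _ _ _ _ _ _ _ _ _ h).2 hp hb

theorem back (hN : DigitLemmas) (hP : PathLemmas) (hA : LeafReal) (hC : CandLemmas) (hV : RangeLemmas)
    (hB : SplitLemmas) {st : ℕ → ℕ} {k c : ℕ} (h : chk1 st k c = true)
    (ih : ∀ j, k + 1 ≤ j → st j ≠ 0 → Good (st j)) : ∀ j, k ≤ j → st j ≠ 0 → Good (st j) := by
  intro j hj hne
  rcases Nat.eq_or_lt_of_le hj with e | e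
  · subst e
    exact checkSt_snd hN hP hA hC hV hB (fun i hi => ih _ (Nat.le_add_right _ _) hi) h
  · exact ih j e hne

end Pool.Agent.H337_stamp.Check
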