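import Pool.Agent.H337_stamp.SDefs

/-! Statements of the parts of the soundness proof. -/

namespace Pool.Agent.H337_stamp.Check

/-- (N) digit lemmas -/
structure DigitLemmas : Prop where
  top : ∀ d0 d1 d2 d3 d4 d5 d6 d7 κ σ T : ℕ, d0 ≤ 2 ^ 55 → d1 ≤ 2 ^ 55 → d2 ≤ 2 ^ 55 → d3 ≤ 2 ^ 55 →
    d4 ≤ 2 ^ 55 → d5 ≤ 2 ^ 55 → d6 ≤ 2 ^ 55 → d7 ≤ 2 ^ 55 → κ ≤ 2 ^ 55 → σ ≤ 2 ^ 55 → T ≤ 2 ^ 55 →
    Nat.shiftRight (pk d0 d1 d2 d3 d4 d5 d6 d7 κ σ T) 640 = T ∧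
    dg (pk d0 d1 d2 d3 d4 d5 d6 d7 κ σ T) 192 = d3 ∧ dg (pk d0 d1 d2 d3 d4 d5 d6 d7 κ σ T) 256 = d4 ∧
    dg (pk d0 d1 d2 d3 d4 d5 d6 d7 κ σ T) 320 = d5 ∧ dg (pk d0 d1 d2 d3 d4 d5 d6 d7 κ σ T) 384 = d6 ∧
    dg (pk d0 d1 d2 d3 d4 d5 d6 d7 κ σ T) 448 = d7 ∧
    (low3 (pk d0 d1 d2 d3 d4 d5 d6 d7 κ σ T) T = true → T ≤ d0 ∧ T ≤ d1 ∧ T ≤ d2) ∧
    (low8 (pk d0 d1 d2 d3 d4 d5 d6 d7 κ σ T) T = true → T ≤ d0 ∧ T ≤ d1 ∧ T ≤ d2 ∧ T ≤ d3 ∧ T ≤ d4 ∧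
      T ≤ d5 ∧ T ≤ d6 ∧ T ≤ d7) ∧
    (posc (pk d0 d1 d2 d3 d4 d5 d6 d7 κ σ T) T = true →
      (T < d3 ∨ T < d4 ∨ T < d5 ∨ T < d6 ∨ T < d7) ∨ (κ = 0 ∧ 1 ≤ σ))

/-- (P) path lemmas -/
structure PathLemmas : Prop where
  push : ∀ (ε τ : ℝ) (p : Par) (P e : ℕ), PathOK ε τ p P → Cb ε τ p 1048576 e → PathOK ε τ p (push P e)
  sm : ∀ (ε τ : ℝ) (p : Par) (P k w : ℕ), PathOK ε τ p P → Cb ε τ p (k * 2 ^ 49) (sm P k w)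
  add : ∀ (ε τ : ℝ) (p : Par) (N N' e e' : ℕ), Cb ε τ p N e → Cb ε τ p N' e' → Cb ε τ p (N + N') (e + e')
  mono : ∀ (ε τ : ℝ) (p : Par) (N N' e : ℕ), Cb ε τ p N e → N ≤ N' → Cb ε τ p N' e
  zero : ∀ (ε τ : ℝ) (p : Par), PathOK ε τ p 0

/-- (A) the contradictions at the leaves -/
structure LeafReal : Prop where
  am : ∀ (ε τ : ℝ) (p : Par), Ctx ε τ p → ∀ d0 d1 d2 d3 d4 d5 d6 d7 κ σ T : ℕ,
    κ ≤ 2 ^ 55 → Ineq ε τ p d0 d1 d2 d3 d4 d5 d6 d7 κ σ T → T ≤ d0 → T ≤ d1 → T ≤ d2 →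
    125 * (T + T - (d6 + d7) + 1) ^ 4 ≤ 251 * ((T - d6) * (d3 - T) * ((d4 - T) * (d5 - T))) → False
  inf : ∀ (ε τ : ℝ) (p : Par), Ctx ε τ p → ∀ d0 d1 d2 d3 d4 d5 d6 d7 κ σ T : ℕ,
    κ ≤ 2 ^ 55 → Ineq ε τ p d0 d1 d2 d3 d4 d5 d6 d7 κ σ T →
    T ≤ d0 → T ≤ d1 → T ≤ d2 → T ≤ d3 → T ≤ d4 → T ≤ d5 → T ≤ d6 → T ≤ d7 →
    ((T < d3 ∨ T < d4 ∨ T < d5 ∨ T < d6 ∨ T < d7) ∨ (κ = 0 ∧ 1 ≤ σ)) → False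

/-- (C) the four constraints of a candidate. Here `r, v, ρ` carry the offset `256`. -/
structure CandLemmas : Prop where
  c3 : ∀ (ε τ : ℝ) (p : Par) (a b s ρ r v : ℕ), a ≤ 63 → b ≤ 63 → s ≤ 63 → ρ ≤ 4096 → r ≤ 4096 → v ≤ 4096 →
    ∀ X Y : ℝ, X = ((s : ℝ) - a) * p.g1 + ((r : ℝ) - 256) * p.b1 + ((v : ℝ) - 256) * p.al →
    Y = ((s : ℝ) - b) * p.g2 + ((ρ : ℝ) - 256) * p.be →
    τ ≤ X → X ≤ p.al → τ ≤ Y →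
    (X + Y + ((s : ℝ) + 1) * p.g3 ≤ p.D + ε → Cb ε τ p 1048576 (eC K1 s (fX s a r v) (fY s b ρ))) ∧
    (X + Y + ((s : ℝ) + 1) * p.g3 ≤ 1 + ε → Cb ε τ p 1048576 (eC K1t s (fX s a r v) (fY s b ρ))) ∧
    Cb ε τ p 1048576 (Nat.sub K2 (fX s a r v)) ∧ Cb ε τ p 1048576 (Nat.sub K3 (fY s b ρ)) ∧
    Cb ε τ p 1048576 (Nat.add K4 (fX s a r v))

/-- (B) the constraints of the splits -/
structure SplitLemmas : Prop where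
  le03 : ∀ (ε τ : ℝ) (p : Par) (m : ℕ), m ≤ 262143 → 5040 * p.b1 ≤ m * p.al → Cb ε τ p 1048576 (eLe m 0 3)
  ge03 : ∀ (ε τ : ℝ) (p : Par) (m : ℕ), m ≤ 262143 → m * p.al ≤ 5040 * p.b1 → Cb ε τ p 1048576 (eGe m 0 3)
  le13 : ∀ (ε τ : ℝ) (p : Par) (m : ℕ), m ≤ 262143 → 5040 * p.g1 ≤ m * p.al → Cb ε τ p 1048576 (eLe m 1 3)
  ge13 : ∀ (ε τ : ℝ) (p : Par) (m : ℕ), m ≤ 262143 → m * p.al ≤ 5040 * p.g1 → Cb ε τ p 1048576 (eGe m 1 3)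
  le24 : ∀ (ε τ : ℝ) (p : Par) (m : ℕ), m ≤ 262143 → 5040 * p.g2 ≤ m * p.be → Cb ε τ p 1048576 (eLe m 2 4)
  ge24 : ∀ (ε τ : ℝ) (p : Par) (m : ℕ), m ≤ 262143 → m * p.be ≤ 5040 * p.g2 → Cb ε τ p 1048576 (eGe m 2 4)
  le56 : ∀ (ε τ : ℝ) (p : Par) (m : ℕ), m ≤ 262143 → 5040 * p.g3 ≤ m * p.D → Cb ε τ p 1048576 (eLe m 5 6)
  ge56 : ∀ (ε τ : ℝ) (p : Par) (m : ℕ), m ≤ 262143 → m * p.D ≤ 5040 * p.g3 → Cb ε τ p 1048576 (eGe m 5 6)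
  le46 : ∀ (ε τ : ℝ) (p : Par) (m : ℕ), m ≤ 262143 → 5040 * p.be ≤ m * p.D → Cb ε τ p 1048576 (eLe m 4 6)
  ge46 : ∀ (ε τ : ℝ) (p : Par) (m : ℕ), m ≤ 262143 → m * p.D ≤ 5040 * p.be → Cb ε τ p 1048576 (eGe m 4 6)
  le36 : ∀ (ε τ : ℝ) (p : Par) (m : ℕ), m ≤ 262143 → 5040 * p.al ≤ m * p.D → Cb ε τ p 1048576 (eLe m 3 6)
  ge36 : ∀ (ε τ : ℝ) (p : Par) (m : ℕ), m ≤ 262143 → m * p.D ≤ 5040 * p.al → Cb ε τ p 1048576 (eGe m 3 6)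
  le67 : ∀ (ε τ : ℝ) (p : Par) (m : ℕ), m ≤ 262143 → 5040 * p.D ≤ m → Cb ε τ p 1048576 (eLe m 6 7)
  ge67 : ∀ (ε τ : ℝ) (p : Par) (m : ℕ), m ≤ 262143 → m ≤ 5040 * p.D → Cb ε τ p 1048576 (eGe m 6 7)
  linL : ∀ (ε τ : ℝ) (p : Par) (c0 c1 c2 c3 c4 : ℕ), c0 ≤ 511 → c1 ≤ 511 → c2 ≤ 511 → c3 ≤ 511 → c4 ≤ 511 →
    ((c0 : ℝ) - 256) * p.b1 + ((c1 : ℝ) - 256) * p.g1 + ((c2 : ℝ) - 256) * p.g2 + ((c3 : ℝ) - 256) * p.al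
      + ((c4 : ℝ) - 256) * p.be ≤ 0 →
    Cb ε τ p 1048576 (Nat.add KL (Nat.add (Nat.add (Nat.add c0 (sh c1 1)) (Nat.add (sh c2 2) (sh c3 3))) (sh c4 4)))
  linR : ∀ (ε τ : ℝ) (p : Par) (c0 c1 c2 c3 c4 : ℕ), c0 ≤ 511 → c1 ≤ 511 → c2 ≤ 511 → c3 ≤ 511 → c4 ≤ 511 →
    0 ≤ ((c0 : ℝ) - 256) * p.b1 + ((c1 : ℝ) - 256) * p.g1 + ((c2 : ℝ) - 256) * p.g2 + ((c3 : ℝ) - 256) * p.al
      + ((c4 : ℝ) - 256) * p.be →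
    Cb ε τ p 1048576 (Nat.sub KR (Nat.add (Nat.add (Nat.add c0 (sh c1 1)) (Nat.add (sh c2 2) (sh c3 3))) (sh c4 4)))
  sp1 : ∀ (ε τ : ℝ) (p : Par), Cb ε τ p 1048576 s10 → Cb ε τ p 1048576 s11 → Cb ε τ p 1048576 s12 →
    Cb ε τ p 1048576 s13 → Cb ε τ p 1048576 s14 → Special1 ε p
  sp2 : ∀ (ε τ : ℝ) (p : Par), Cb ε τ p 1048576 s20 → Cb ε τ p 1048576 s21 → Cb ε τ p 1048576 s22 →
    Cb ε τ p 1048576 s23 → Cb ε τ p 1048576 s24 → Special2 ε p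

/-- (V) the arithmetic of the loops: completeness of the ranges, in real numbers -/
structure RangeLemmas : Prop where
  /-- lower end of the `v` range -/
  vlo : ∀ (ε τ : ℝ) (p : Par), Ctx ε τ p → ∀ u1 u2 w1 w2 y1 y2 gm bm dm am : ℕ,
    BoxOK p u1 u2 w1 w2 y1 y2 gm bm dm am → ∀ a s r vlo : ℕ, ∀ v : ℤ,
    okLo w1 w2 u1 u2 a s r vlo = true →
    0 < ((s : ℝ) - a) * p.g1 + ((r : ℝ) - 256) * p.b1 + v * p.al → (vlo : ℤ) ≤ v + 256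
  /-- lower bound for `X` -/
  lX : ∀ (ε τ : ℝ) (p : Par), Ctx ε τ p → ∀ u1 u2 w1 w2 y1 y2 gm bm dm am : ℕ,
    BoxOK p u1 u2 w1 w2 y1 y2 gm bm dm am → ∀ a s r v : ℕ, ∀ X : ℝ,
    X = ((s : ℝ) - a) * p.g1 + ((r : ℝ) - 256) * p.b1 + ((v : ℝ) - 256) * p.al → 0 ≤ X →
    (lowX w1 w2 u1 u2 a s r v : ℝ) * p.al ≤ 5040 * X
  /-- lower bound for `Y` -/
  lY : ∀ (ε τ : ℝ) (p : Par), Ctx ε τ p → ∀ u1 u2 w1 w2 y1 y2 gm bm dm am : ℕ,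
    BoxOK p u1 u2 w1 w2 y1 y2 gm bm dm am → ∀ b s ρ : ℕ, ∀ Y : ℝ,
    Y = ((s : ℝ) - b) * p.g2 + ((ρ : ℝ) - 256) * p.be → 0 ≤ Y →
    (lowY y1 y2 b s ρ : ℝ) * p.be ≤ 5040 * Y
  /-- lower end of the `ρ` range -/
  rlo : ∀ (ε τ : ℝ) (p : Par), Ctx ε τ p → ∀ u1 u2 w1 w2 y1 y2 gm bm dm am : ℕ,
    BoxOK p u1 u2 w1 w2 y1 y2 gm bm dm am → ∀ b s rlo : ℕ, ∀ ρ : ℤ,
    Nat.ble (Nat.add (Nat.mul (Nat.sub s b) y2) (Nat.mul 5040 rlo))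
      (Nat.add (Nat.mul (Nat.sub b s) y1) 1295280) = true →
    0 < ((s : ℝ) - b) * p.g2 + ρ * p.be → (rlo : ℤ) ≤ ρ + 256
  /-- monotonicity -/
  monoY : ∀ y1 y2 b s ρ ρ' : ℕ, ρ ≤ ρ' → lowY y1 y2 b s ρ ≤ lowY y1 y2 b s ρ'
  monoX : ∀ w1 w2 u1 u2 a s r v v' : ℕ, v ≤ v' → lowX w1 w2 u1 u2 a s r v ≤ lowX w1 w2 u1 u2 a s r v'
  monoC : ∀ (two : Bool) (gm bm dm am s x y x' y' : ℕ), x ≤ x' → y ≤ y' →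
    cost two gm bm dm am s x y = true → cost two gm bm dm am s x' y' = true
  /-- a candidate which costs too much is excluded -/
  cost3 : ∀ (ε τ : ℝ) (p : Par), Ctx ε τ p → ∀ u1 u2 w1 w2 y1 y2 gm bm dm am : ℕ,
    BoxOK p u1 u2 w1 w2 y1 y2 gm bm dm am → ∀ s x y : ℕ, ∀ X Y : ℝ,
    (x : ℝ) * p.al ≤ 5040 * X → (y : ℝ) * p.be ≤ 5040 * Y → X + Y + ((s : ℝ) + 1) * p.g3 ≤ p.D + ε →
    cost false gm bm dm am s x y = true → False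
  cost2 : ∀ (ε τ : ℝ) (p : Par), Ctx ε τ p → ∀ u1 u2 w1 w2 y1 y2 gm bm dm am : ℕ,
    BoxOK p u1 u2 w1 w2 y1 y2 gm bm dm am → ∀ s x y : ℕ, ∀ X Y : ℝ,
    (x : ℝ) * p.al ≤ 5040 * X → (y : ℝ) * p.be ≤ 5040 * Y → X + Y + p.g3 ≤ 1 + ε →
    cost true gm bm dm am s x y = true → False
  /-- bound for `s` -/
  sbd : ∀ (ε τ : ℝ) (p : Par), Ctx ε τ p → ∀ u1 u2 w1 w2 y1 y2 gm bm dm am : ℕ,
    BoxOK p u1 u2 w1 w2 y1 y2 gm bm dm am → ∀ s : ℕ, ∀ X Y : ℝ, 0 ≤ X → 0 ≤ Y →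
    X + Y + ((s : ℝ) + 1) * p.g3 ≤ p.D + ε →
    Nat.ble 5041 (Nat.mul (Nat.succ s) gm) = true → False

/-- the root path: `al + be ≤ 1 + ε`, `b1 + τ ≤ al`, `g1 + τ ≤ al`, `g2 ≤ be`, `g3 ≤ D + ε`, `D ≤ 1`,
`630 D ≤ 5040 g3`, `151 D ≤ 5040 be`, `151 ≤ 5040 D`, `151 D ≤ 5040 al` (in the order of the pushes) -/
def rootP : ℕ := push (push (push (push (push (push (push (push (push (push 0 (pk 524288 524288 524288 524289 524289 524288 524288 524287 1 0 524288))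
  (pk 524289 524288 524288 524287 524288 524288 524288 524288 0 1 524288))
  (pk 524288 524289 524288 524287 524288 524288 524288 524288 0 1 524288))
  (pk 524288 524288 524289 524288 524287 524288 524288 524288 0 0 524288))
  (pk 524288 524288 524288 524288 524288 524289 524287 524288 1 0 524288))
  (pk 524288 524288 524288 524288 524288 524288 524289 524287 0 0 524288))
  (pk 524288 524288 524288 524288 524288 519248 524918 524288 0 0 524288))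
  (pk 524288 524288 524288 524288 519248 524288 524439 524288 0 0 524288))
  (pk 524288 524288 524288 524288 524288 524288 519248 524439 0 0 524288))
  (pk 524288 524288 524288 519248 524288 524288 524439 524288 0 0 524288)

/-- (R) the root state is valid -/
structure RootLemmas : Prop where
  path : ∀ (ε τ : ℝ) (p : Par), Ctx ε τ p → PathOK ε τ p rootP
  box : ∀ (ε τ : ℝ) (p : Par), Ctx ε τ p → BoxOK p 0 5040 0 5040 0 5040 630 151 151 151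

end Pool.Agent.H337_stamp.Check
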