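import Pool.Agent.H337_stamp.SMain

/-! Soundness of the test nodes. -/

namespace Pool.Agent.H337_stamp.Check

variable {ε τ : ℝ} {p : Par}

theorem test_core (hN : DigitLemmas) (hP : PathLemmas) (hA : LeafReal) (hC : CandLemmas) (hV : RangeLemmas)
    (hc : Ctx ε τ p) {A : Prop} {chk : ℕ → ℕ → (ℕ → Bool) → Bool} (hchk : Snd1 ε τ p A chk)
    {P u1 u2 w1 w2 y1 y2 gm bm dm am : ℕ} {two : Bool} {Kc a b t : ℕ}
    (ha : a ≤ 63) (hb : b ≤ 63) (ht1 : 193 ≤ t) (ht2 : t ≤ 319)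
    (hp : PathOK ε τ p P) (hB : BoxOK p u1 u2 w1 w2 y1 y2 gm bm dm am)
    (s : ℕ) (r v : ℤ) (X Y : ℝ)
    (hX : X = ((s : ℝ) - a) * p.g1 + r * p.b1 + v * p.al)
    (hY : Y = ((s : ℝ) - b) * p.g2 + ((r : ℝ) + ((t : ℝ) - 256)) * p.be)
    (hX1 : τ ≤ X) (hX2 : X ≤ p.al) (hY1 : τ ≤ Y)
    (hstop : ∀ s0, s0 ≤ s → iteb two (Nat.ble 1 s0) (Nat.ble 5041 (Nat.mul (Nat.succ s0) gm)) = true → False)
    (hcost : ∀ x y : ℕ, (x : ℝ) * p.al ≤ 5040 * X → (y : ℝ) * p.be ≤ 5040 * Y →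
      cost two gm bm dm am s x y = true → False)
    (hE : ∀ ρ r v : ℕ, ρ ≤ 4096 → r ≤ 4096 → v ≤ 4096 →
      X = ((s : ℝ) - a) * p.g1 + ((r : ℝ) - 256) * p.b1 + ((v : ℝ) - 256) * p.al →
      Y = ((s : ℝ) - b) * p.g2 + ((ρ : ℝ) - 256) * p.be → s ≤ 63 →
      Cb ε τ p 1048576 (eC Kc s (fX s a r v) (fY s b ρ)))
    {n : ℕ} {k : ℕ → Bool}
    (h : loopS chk P u1 u2 w1 w2 y1 y2 gm bm dm am two Kc a b t 64 0 n k = true) : A := by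
  have hcd : ∀ s ρ r v n k, cand chk P Kc a b s ρ r v n k = true → ∃ n', k n' = true :=
    fun s ρ r v n k h => (cand_snd hN hP hA hc hchk h).1
  have hτ := hc.conf.tau_pos
  obtain ⟨-, h2⟩ := loopS_snd hcd _ _ _ _ h
  rcases h2 s (Nat.zero_le _) with ⟨s0, hs0, hs1⟩ | ⟨hs, ρlo, n1, k1, hρ1, hρ2, h3⟩
  · exact (hstop s0 hs0 hs1).elim
  have hs63 : s ≤ 63 := by omega
  -- the integer `ρ`
  have hYi : 0 < ((s : ℝ) - b) * p.g2 + ((r + ((t : ℤ) - 256) : ℤ) : ℝ) * p.be := by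
    push_cast; rw [← hY]; linarith
  have hlo := hV.rlo ε τ p hc u1 u2 w1 w2 y1 y2 gm bm dm am hB b s ρlo (r + ((t : ℤ) - 256)) hρ2 hYi
  -- lower bound
  have hρge : -63 < r + ((t : ℤ) - 256) := by
    by_contra hcon
    have hcon' : ((r + ((t : ℤ) - 256) : ℤ) : ℝ) ≤ -63 := by exact_mod_cast not_lt.1 hcon
    have hbe := hc.conf.be_pos
    have hg2 := hc.conf.g2_nonneg
    have hg2' := hc.conf.g2_le
    have h63 : (s : ℝ) ≤ 63 := by exact_mod_cast hs63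
    have hb0 : (0 : ℝ) ≤ b := Nat.cast_nonneg b
    have q1 : ((s : ℝ) - b) * p.g2 ≤ 63 * p.be := by nlinarith
    have q2 : ((r + ((t : ℤ) - 256) : ℤ) : ℝ) * p.be ≤ -63 * p.be := by nlinarith
    linarith
  obtain ⟨ρ, hρ⟩ : ∃ ρ : ℕ, (ρ : ℤ) = r + ((t : ℤ) - 256) + 256 := ⟨(r + ((t : ℤ) - 256) + 256).toNat, by omega⟩
  have hρlo : ρlo ≤ ρ := by omega
  have hρR : (ρ : ℝ) - 256 = (r : ℝ) + ((t : ℝ) - 256) := by
    have : ((ρ : ℤ) : ℝ) = ((r + ((t : ℤ) - 256) + 256 : ℤ) : ℝ) := by rw [hρ]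
    push_cast at this
    linarith
  have hY' : Y = ((s : ℝ) - b) * p.g2 + ((ρ : ℝ) - 256) * p.be := by rw [hρR]; exact hY
  have hlY := hV.lY ε τ p hc u1 u2 w1 w2 y1 y2 gm bm dm am hB b s ρ Y hY' (by linarith)
  obtain ⟨-, h4⟩ := loopR_snd (hcd s) _ _ _ _ h3
  rcases h4 ρ hρlo with ⟨ρ0, hρ0, hco⟩ | ⟨e1, e2⟩ | ⟨hρf, vlo, cnt, n2, k2, hv1, hv2, hv3, hv4, h5⟩
  · refine (hcost 0 (lowY y1 y2 b s ρ) ?_ hlY (hV.monoC _ _ _ _ _ _ _ _ _ _ le_rfl (hV.monoY y1 y2 b s ρ0 ρ hρ0) hco)).elim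
    push_cast; linarith
  · exfalso
    subst e1
    have : (ρ : ℝ) = 256 := by exact_mod_cast e2
    rw [this] at hY'
    have : Y = 0 := by rw [hY']; ring
    linarith
  -- the integer `v`
  have hρ4 : ρ ≤ 1223 := by omega
  obtain ⟨r', hr'⟩ : ∃ r' : ℕ, r' = ρ + 256 - t := ⟨_, rfl⟩
  have hr1 : (r' : ℤ) = r + 256 := by omega
  have hrR : (r' : ℝ) - 256 = (r : ℝ) := by
    have : ((r' : ℤ) : ℝ) = ((r + 256 : ℤ) : ℝ) := by rw [hr1]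
    push_cast at this
    linarith
  rw [← hr'] at hv3 hv4 h5
  have hXi : 0 < ((s : ℝ) - a) * p.g1 + ((r' : ℝ) - 256) * p.b1 + v * p.al := by
    rw [hrR, ← hX]; linarith
  have hvl := hV.vlo ε τ p hc u1 u2 w1 w2 y1 y2 gm bm dm am hB a s r' vlo v hv3 hXi
  obtain ⟨v', hv'⟩ : ∃ v' : ℕ, (v' : ℤ) = v + 256 := ⟨(v + 256).toNat, by omega⟩
  have hvR : (v' : ℝ) - 256 = (v : ℝ) := by
    have : ((v' : ℤ) : ℝ) = ((v + 256 : ℤ) : ℝ) := by rw [hv']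
    push_cast at this
    linarith
  have hX' : X = ((s : ℝ) - a) * p.g1 + ((r' : ℝ) - 256) * p.b1 + ((v' : ℝ) - 256) * p.al := by
    rw [hrR, hvR]; exact hX
  have hlX := hV.lX ε τ p hc u1 u2 w1 w2 y1 y2 gm bm dm am hB a s r' v' X hX' (by linarith)
  have hvlo : vlo ≤ v' := by omega
  have hal := hc.conf.al_pos
  rcases Nat.lt_or_ge v' (vlo + cnt) with hlt | hge
  · obtain ⟨-, h6⟩ := loopV_snd (hcd s ρ r') _ _ _ _ h5
    obtain ⟨n3, k3, h7⟩ := h6 v' hvlo hlt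
    have h8 := (cand_snd hN hP hA hc hchk h7).2
    have hv5 : v' ≤ 4096 := by omega
    have hr5 : r' ≤ 4096 := by omega
    have hρ5 : ρ ≤ 4096 := by omega
    obtain ⟨-, -, c2, c3, c4⟩ := hC.c3 ε τ p a b s ρ r' v' ha hb hs63 hρ5 hr5 hv5 X Y hX' hY' hX1 hX2 hY1
    exact h8 hp (hE ρ r' v' hρ5 hr5 hv5 hX' hY' hs63) c2 c3 c4
  · exfalso
    have hm := hV.monoX w1 w2 u1 u2 a s r' _ _ hge
    rcases hv4 with hv4 | hv4
    · have : (5041 : ℝ) ≤ (lowX w1 w2 u1 u2 a s r' v' : ℝ) := by exact_mod_cast le_trans hv4 hm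
      obtain ⟨L, hL⟩ : ∃ L : ℝ, L = (lowX w1 w2 u1 u2 a s r' v' : ℝ) := ⟨_, rfl⟩
      rw [← hL] at this hlX
      have h9 := mul_le_mul_of_nonneg_right this hal.le
      linarith
    · exact hcost _ _ hlX hlY (hV.monoC _ _ _ _ _ _ _ _ _ _ hm le_rfl hv4)

theorem test_snd (hN : DigitLemmas) (hP : PathLemmas) (hA : LeafReal) (hC : CandLemmas) (hV : RangeLemmas)
    (hc : Ctx ε τ p) {A : Prop} {chk : ℕ → ℕ → (ℕ → Bool) → Bool} (hchk : Snd1 ε τ p A chk)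
    {P u1 u2 w1 w2 y1 y2 gm bm dm am : ℕ} {n : ℕ} {k : ℕ → Bool}
    (h : test chk P u1 u2 w1 w2 y1 y2 gm bm dm am n k = true) :
    (∃ n', k n' = true) ∧ (PathOK ε τ p P → BoxOK p u1 u2 w1 w2 y1 y2 gm bm dm am → A) := by
  have hcd : ∀ Kc a b s ρ r v n k, cand chk P Kc a b s ρ r v n k = true → ∃ n', k n' = true :=
    fun Kc a b s ρ r v n k h => (cand_snd hN hP hA hc hchk h).1
  unfold test at h
  rw [fz_eq, fz_eq, fz_eq] at h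
  obtain ⟨a, ha⟩ : ∃ a, a = Nat.land (Nat.shiftRight n (nat_lit 1)) (nat_lit 63) := ⟨_, rfl⟩
  obtain ⟨b, hb⟩ : ∃ b, b = Nat.land (Nat.shiftRight n (nat_lit 7)) (nat_lit 63) := ⟨_, rfl⟩
  obtain ⟨t, ht⟩ : ∃ t, t = Nat.land (Nat.shiftRight n (nat_lit 13)) (nat_lit 1023) := ⟨_, rfl⟩
  rw [← ha, ← hb, ← ht] at h
  have ha' : a ≤ 63 := by rw [ha]; exact Nat.and_le_right
  have hb' : b ≤ 63 := by rw [hb]; exact Nat.and_le_right
  clear ha hb ht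
  obtain ⟨h1, h⟩ := (iteb_tf _ _).1 h
  obtain ⟨h2, h⟩ := (iteb_tf _ _).1 h
  have ht1 : 193 ≤ t := Nat.le_of_ble_eq_true h1
  have ht2 : t ≤ 319 := Nat.le_of_ble_eq_true h2
  have habs : |((t : ℤ) - 256)| ≤ ((63 : ℕ) : ℤ) := by rw [abs_le]; constructor <;> push_cast <;> omega
  have hτ := hc.conf.tau_pos
  rcases (iteb_iff _ _ _).1 h with ⟨-, h⟩ | ⟨-, h⟩
  · obtain ⟨h3, h⟩ := (iteb_tf _ _).1 h
    obtain ⟨h4, h⟩ := (iteb_tf _ _).1 h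
    have ha0 : a = 0 := Nat.eq_of_beq_eq_true h3
    have hb0 : b = 0 := Nat.eq_of_beq_eq_true h4
    refine ⟨(loopS_snd (hcd _ _ _) _ _ _ _ h).1, fun hp hB => ?_⟩
    obtain ⟨r, v, q1, q2, q3, q4⟩ := hc.conf.test2 ((t : ℤ) - 256) habs
    refine test_core hN hP hA hC hV hc hchk ha' hb' ht1 ht2 hp hB 0 r v (r * p.b1 + v * p.al)
      (((r : ℝ) + ((t : ℝ) - 256)) * p.be) ?_ ?_ q1 q2 ?_ ?_ ?_ ?_ h
    · rw [ha0]; push_cast; ring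
    · rw [hb0]; push_cast; ring
    · push_cast at q3; linarith
    · intro s0 hs0 hs1
      have : s0 = 0 := by omega
      subst this
      exact absurd hs1 (by simp [iteb])
    · intro x y hx hy hco
      refine hV.cost2 ε τ p hc u1 u2 w1 w2 y1 y2 gm bm dm am hB 0 x y _ _ hx hy ?_ hco
      push_cast at q4; linarith
    · intro ρ r' v' h1 h2 h3 hX hY h5
      refine (hC.c3 ε τ p a b 0 ρ r' v' ha' hb' h5 h1 h2 h3 _ _ hX hY q1 q2 ?_).2.1 ?_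
      · push_cast at q3; linarith
      · push_cast at q4 ⊢; linarith
  · refine ⟨(loopS_snd (hcd _ _ _) _ _ _ _ h).1, fun hp hB => ?_⟩
    obtain ⟨s, r, v, q1, q2, q3, q4⟩ := hc.conf.test3 a b ((t : ℤ) - 256) ha' hb' habs
    push_cast at q3 q4
    refine test_core hN hP hA hC hV hc hchk ha' hb' ht1 ht2 hp hB s r v _ _ rfl rfl q1 q2 q3 ?_ ?_ ?_ h
    · intro s0 hs0 hs1
      have hs2 : Nat.ble 5041 (Nat.mul (Nat.succ s0) gm) = true := hs1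
      have hs3 : 5041 ≤ (s0 + 1) * gm := Nat.le_of_ble_eq_true hs2
      have hs4 : 5041 ≤ (s + 1) * gm := le_trans hs3 (Nat.mul_le_mul_right gm (by omega))
      exact hV.sbd ε τ p hc u1 u2 w1 w2 y1 y2 gm bm dm am hB s _ _ (by linarith) (by linarith) q4
        (Nat.ble_eq_true_of_le hs4)
    · intro x y hx hy hco
      exact hV.cost3 ε τ p hc u1 u2 w1 w2 y1 y2 gm bm dm am hB s x y _ _ hx hy q4 hco
    · intro ρ r' v' h1 h2 h3 hX hY h5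
      exact (hC.c3 ε τ p a b s ρ r' v' ha' hb' h5 h1 h2 h3 _ _ hX hY q1 q2 q3).1 q4

end Pool.Agent.H337_stamp.Check
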