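import Mathlib

/-!
The postage stamp function `n(h,k)` (problem MP_da66b4_nt).
-/

namespace Pool.Agent.H337_stamp

/-- `m` is a sum of at most `h` elements of `A`, repetitions allowed (the empty sum is `0`). -/
def Rep (h : ℕ) (A : Finset ℕ) (m : ℕ) : Prop :=
  ∃ s : Multiset ℕ, (∀ x ∈ s, x ∈ A) ∧ Multiset.card s ≤ h ∧ s.sum = m

/-- `A` is an `h`-basis for `n`: a set of positive integers such that every `m` with
`0 ≤ m ≤ n` is a sum of at most `h` elements of `A`. -/
def IsBasis (h : ℕ) (A : Finset ℕ) (n : ℕ) : Prop :=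
  (∀ a ∈ A, 0 < a) ∧ ∀ m : ℕ, m ≤ n → Rep h A m

/-- `n(h,k)`: the largest `n` for which some `h`-basis for `n` has exactly `k` elements. -/
noncomputable def stamp (h k : ℕ) : ℕ :=
  sSup {n : ℕ | ∃ A : Finset ℕ, A.card = k ∧ IsBasis h A n}

end Pool.Agent.H337_stamp
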